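import Pool.Agent.P.MP_ab74d4_pr.Master

/-!
Almost sure weak convergence of the chaos measures.
-/

namespace Pool.Agent.P.MP_ab74d4_pr

open MeasureTheory ProbabilityTheory Filter Topology Finset
open scoped ENNReal BoundedContinuousFunction

section General

variable {S : Type*} [MetricSpace S] [CompactSpace S] [MeasurableSpace S] [BorelSpace S]

theorem int_cont (μ : Measure S) [IsFiniteMeasure μ] {f : S → ℝ} (hf : Continuous f) :
    Integrable f μ :=
  hf.integrable_of_hasCompactSupport (HasCompactSupport.of_compactSpace f)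

theorem conv_all (μs : ℕ → FiniteMeasure S) {D : Set C(S, ℝ)} (hD : Dense D)
    (h : ∀ f ∈ D, ∃ c, Tendsto (fun n => ∫ x, f x ∂(μs n : Measure S)) atTop (𝓝 c))
    (h1 : ∃ c, Tendsto (fun n => ∫ x, (1 : C(S, ℝ)) x ∂(μs n : Measure S)) atTop (𝓝 c))
    (f : C(S, ℝ)) : ∃ c, Tendsto (fun n => ∫ x, f x ∂(μs n : Measure S)) atTop (𝓝 c) := by
  obtain ⟨c, hc⟩ := h1
  obtain ⟨M, hM⟩ := hc.bddAbove_range
  have hM' : ∀ n, (μs n : Measure S).real Set.univ ≤ M := fun n => by
    have := hM (Set.mem_range_self n)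
    simpa using this
  have hM0 : 0 ≤ M := measureReal_nonneg.trans (hM' 0)
  refine cauchySeq_tendsto_of_complete (Metric.cauchySeq_iff.2 fun ε hε => ?_)
  obtain ⟨g, hg, hfg⟩ := hD.exists_dist_lt f (show 0 < ε / (3 * (M + 1)) by positivity)
  obtain ⟨c', hc'⟩ := h g hg
  obtain ⟨N, hN⟩ := Metric.cauchySeq_iff.1 hc'.cauchySeq (ε / 3) (by positivity)
  have key : ∀ n, dist (∫ x, f x ∂(μs n : Measure S)) (∫ x, g x ∂(μs n : Measure S)) ≤ ε / 3 := by
    intro n
    rw [dist_eq_norm, ← integral_sub (int_cont _ f.continuous) (int_cont _ g.continuous)]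
    have := norm_integral_le_of_norm_le_const (μ := (μs n : Measure S))
      (f := fun x => f x - g x) (C := ε / (3 * (M + 1))) (ae_of_all _ fun x => by
        rw [← dist_eq_norm]; exact (ContinuousMap.dist_apply_le_dist x).trans hfg.le)
    refine this.trans ?_
    calc ε / (3 * (M + 1)) * (μs n : Measure S).real Set.univ ≤ ε / (3 * (M + 1)) * (M + 1) :=
          mul_le_mul_of_nonneg_left ((hM' n).trans (by linarith)) (by positivity)
      _ = ε / 3 := by field_simp
  refine ⟨N, fun m hm n hn => ?_⟩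
  have t := dist_triangle4 (∫ x, f x ∂(μs m : Measure S)) (∫ x, g x ∂(μs m : Measure S))
    (∫ x, g x ∂(μs n : Measure S)) (∫ x, f x ∂(μs n : Measure S))
  have k1 := key m
  have k2 := key n
  rw [dist_comm] at k2
  linarith [hN m hm n hn]

theorem exists_limit (μs : ℕ → FiniteMeasure S)
    (h : ∀ f : C(S, ℝ), ∃ c, Tendsto (fun n => ∫ x, f x ∂(μs n : Measure S)) atTop (𝓝 c)) :
    ∃ μ, Tendsto μs atTop (𝓝 μ) := by
  obtain ⟨c, hc⟩ := h 1
  obtain ⟨M, hM⟩ := hc.bddAbove_range
  have hM' : ∀ n, (μs n).mass ≤ M.toNNReal := fun n => by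
    have := hM (Set.mem_range_self n)
    simp only [ContinuousMap.one_apply, integral_const, smul_eq_mul, mul_one] at this
    rw [← ENNReal.coe_le_coe, FiniteMeasure.ennreal_mass, ← ofReal_measureReal]
    exact ENNReal.ofReal_le_ofReal this
  obtain ⟨μ, -, hμ⟩ := (isCompact_setOfPred_finiteMeasure_le_of_compactSpace S
    M.toNNReal).exists_mapClusterPt_of_frequently (f := μs) (l := atTop)
    (Frequently.of_forall hM')
  obtain ⟨U, hU, hUμ⟩ := mapClusterPt_iff_ultrafilter.1 hμ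
  refine ⟨μ, FiniteMeasure.tendsto_of_forall_integral_tendsto fun f => ?_⟩
  obtain ⟨c', hc'⟩ := h f.toContinuousMap
  have h1 := FiniteMeasure.tendsto_iff_forall_integral_tendsto.1 hUμ f
  have h2 : ∫ x, f x ∂(μ : Measure S) = c' := tendsto_nhds_unique h1 (hc'.mono_left hU)
  rw [h2]; exact hc'

theorem random_limit {Ω : Type*} [MeasurableSpace Ω] (P : Measure Ω)
    (M : ℕ → Ω → FiniteMeasure S)
    (hm : ∀ n (f : C(S, ℝ)), Measurable fun ω => ∫ x, f x ∂(M n ω : Measure S))
    (h : ∀ᵐ ω ∂P, ∀ f : C(S, ℝ),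
      ∃ c, Tendsto (fun n => ∫ x, f x ∂(M n ω : Measure S)) atTop (𝓝 c)) :
    ∃ L : Ω → FiniteMeasure S, Measurable L ∧
      ∀ᵐ ω ∂P, Tendsto (fun n => M n ω) atTop (𝓝 (L ω)) := by
  classical
  obtain ⟨D, hDc, hD⟩ := TopologicalSpace.exists_countable_dense C(S, ℝ)
  set G : Set Ω := {ω | ∃ μ, Tendsto (fun n => M n ω) atTop (𝓝 μ)} with hG
  have hGm : MeasurableSet G := by
    have : G = ⋂ f ∈ insert 1 D,
        {ω | ∃ c, Tendsto (fun n => ∫ x, f x ∂(M n ω : Measure S)) atTop (𝓝 c)} := by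
      ext ω
      simp only [hG, Set.mem_iInter, Set.mem_ofPred_eq]
      constructor
      · rintro ⟨μ, hμ⟩ f _
        exact ⟨_, FiniteMeasure.tendsto_iff_forall_integral_tendsto.1 hμ
          (BoundedContinuousFunction.mkOfCompact f)⟩
      · intro hω
        exact exists_limit _ (conv_all _ hD (fun f hf => hω f (Set.mem_insert_of_mem _ hf))
          (hω 1 (Set.mem_insert _ _)))
    rw [this]
    exact MeasurableSet.biInter (hDc.insert 1) fun f _ => measurableSet_exists_tendsto (hm · f)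
  set L : Ω → FiniteMeasure S := fun ω => if hω : ω ∈ G then hω.choose else 0 with hL
  have hLG : ∀ ω ∈ G, Tendsto (fun n => M n ω) atTop (𝓝 (L ω)) := fun ω hω => by
    simp only [hL, dif_pos hω]; exact hω.choose_spec
  have hint : ∀ f : S →ᵇ ℝ, Measurable fun ω => ∫ x, f x ∂(L ω : Measure S) := by
    intro f
    refine measurable_of_tendsto_metrizable (f := fun n => G.indicator
      fun ω => ∫ x, f x ∂(M n ω : Measure S))
      (fun n => (hm n f.toContinuousMap).indicator hGm) (tendsto_pi_nhds.2 fun ω => ?_)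
    by_cases hω : ω ∈ G
    · simp only [Set.indicator_of_mem hω]
      exact FiniteMeasure.tendsto_iff_forall_integral_tendsto.1 (hLG ω hω) f
    · simp [Set.indicator_of_notMem hω, hL, dif_neg hω]
  have hclosed : ∀ F : Set S, IsClosed F → Measurable fun ω => (L ω : Measure S) F := by
    intro F hF
    refine ENNReal.measurable_of_tendsto (f := fun m ω => ∫⁻ x, hF.apprSeq m x ∂(L ω : Measure S))
      (fun m => ?_) (tendsto_pi_nhds.2 fun ω =>
        HasOuterApproxClosed.tendsto_lintegral_apprSeq hF (L ω : Measure S))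
    have e : (fun ω => ∫⁻ x, hF.apprSeq m x ∂(L ω : Measure S)) = fun ω => ENNReal.ofReal
        (∫ x, (BoundedContinuousFunction.comp _ NNReal.isometry_coe.lipschitz (hF.apprSeq m)) x
          ∂(L ω : Measure S)) := by
      ext ω
      rw [ofReal_integral_eq_lintegral_ofReal (BoundedContinuousFunction.integrable _ _)
        (ae_of_all _ fun x => by simp)]
      simp
    rw [e]
    exact ENNReal.measurable_ofReal.comp (hint _)
  refine ⟨L, ?_, ?_⟩
  · refine Measurable.subtype_mk (f := fun ω => (L ω : Measure S)) ?_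
    exact Measurable.measure_of_isPiSystem
      (by rw [BorelSpace.measurable_eq (α := S), borel_eq_generateFrom_isClosed])
      isPiSystem_isClosed hclosed (hclosed _ isClosed_univ)
  · filter_upwards [h] with ω hω
    exact hLG ω (exists_limit _ hω)

end General

variable {Ω : Type*} [mΩ : MeasurableSpace Ω] {P : Measure Ω} {ξ : ℕ → Ω → ℂ}

theorem supermart_conv (h : IsCoeff P ξ) (g : ℕ → ℂ → UnitAddCircle → ℝ≥0∞)
    (hg : ∀ k, Measurable (Function.uncurry (g k))) (C : ℝ≥0∞) (hC : C ≠ ∞)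
    (hgC : ∀ k x θ, g k x θ ≤ C) (hE : ∀ k θ, ∫⁻ ω, g k (ξ k ω) θ ∂P ≤ 1)
    (f : UnitAddCircle → ℝ≥0∞) (hf : Measurable f) (hfC : ∀ θ, f θ ≤ C) :
    ∀ᵐ ω ∂P, ∃ c : ℝ, Tendsto
      (fun n => (∫⁻ θ, f θ * ∏ k ∈ range n, g k (ξ k ω) θ).toReal) atTop (𝓝 c) := by
  have := h.prob
  have hsm : ∀ k, StronglyMeasurable (ξ k) := fun k => (h.meas k).stronglyMeasurable
  set ℱ := Filtration.natural ξ hsm with hℱ
  set L : ℕ → Ω → ℝ≥0∞ := fun n ω => ∫⁻ θ, f θ * ∏ k ∈ range n, g k (ξ k ω) θ with hL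
  have hξℱ : ∀ i k, k ≤ i → Measurable[ℱ i] (ξ k) := fun i k hk =>
    (comap_measurable (ξ k)).mono (le_iSup₂_of_le (f := fun j (_ : j ≤ i) =>
      MeasurableSpace.comap (ξ j) inferInstance) k hk le_rfl) le_rfl
  have hjoint : ∀ (m : MeasurableSpace Ω) (n : ℕ), (∀ k < n, Measurable[m] (ξ k)) →
      Measurable[m.prod inferInstance] fun p : Ω × UnitAddCircle =>
        f p.2 * ∏ k ∈ range n, g k (ξ k p.1) p.2 := by
    intro m n hm
    refine (hf.comp measurable_snd).mul (Finset.measurable_prod _ fun k hk => ?_)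
    exact (hg k).comp (((hm k (mem_range.1 hk)).comp measurable_fst).prodMk measurable_snd)
  have hLm : ∀ (m : MeasurableSpace Ω) (n : ℕ), (∀ k < n, Measurable[m] (ξ k)) →
      Measurable[m] (L n) := fun m n hm => (hjoint m n hm).lintegral_prod_right'
  have hLb : ∀ n ω, L n ω ≤ C * C ^ n := fun n ω => by
    calc L n ω ≤ ∫⁻ _θ : UnitAddCircle, C * C ^ n := lintegral_mono fun θ => by
          refine mul_le_mul' (hfC θ) ?_
          simpa using Finset.prod_le_pow_card (range n) _ C fun k _ => hgC k _ θ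
      _ = _ := by simp
  have hLfin : ∀ n ω, L n ω < ∞ := fun n ω =>
    (hLb n ω).trans_lt (ENNReal.mul_lt_top hC.lt_top (ENNReal.pow_lt_top hC.lt_top))
  have hstep : ∀ i, ∀ s : Set Ω, MeasurableSet[ℱ i] s →
      ∫⁻ ω in s, L (i + 1 + 1) ω ∂P ≤ ∫⁻ ω in s, L (i + 1) ω ∂P := by
    intro i s hs
    have hs' : MeasurableSet s := ℱ.le i s hs
    simp only [hL]
    have sw : ∀ n, ∫⁻ ω in s, (∫⁻ θ, f θ * ∏ k ∈ range n, g k (ξ k ω) θ) ∂P =
        ∫⁻ θ, (∫⁻ ω in s, f θ * ∏ k ∈ range n, g k (ξ k ω) θ ∂P) := fun n =>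
      lintegral_lintegral_swap (f := fun ω θ => f θ * ∏ k ∈ range n, g k (ξ k ω) θ)
        (hjoint mΩ n fun k _ => h.meas k).aemeasurable
    rw [sw, sw]
    refine lintegral_mono fun θ => ?_
    rw [← lintegral_indicator hs', ← lintegral_indicator hs']
    have e : s.indicator (fun ω => f θ * ∏ k ∈ range (i + 1 + 1), g k (ξ k ω) θ) = fun ω =>
        g (i + 1) (ξ (i + 1) ω) θ *
          s.indicator (fun ω => f θ * ∏ k ∈ range (i + 1), g k (ξ k ω) θ) ω := by
      ext ω
      by_cases hω : ω ∈ s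
      · simp only [Set.indicator_of_mem hω, Finset.prod_range_succ _ (i + 1)]; ring
      · simp [Set.indicator_of_notMem hω]
    rw [e, lintegral_mul_eq_lintegral_mul_lintegral_of_independent_measurableSpace
      (h.meas (i + 1)).comap_le (ℱ.le i) (h.ind.indep_comap_natural_of_lt hsm (Nat.lt_succ_self i))]
    · exact mul_le_of_le_one_left' (hE _ _)
    · exact ((hg (i + 1)).comp (measurable_id.prodMk measurable_const)).comp
        (comap_measurable (ξ (i + 1)))
    · refine Measurable.indicator ?_ hs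
      exact (hjoint (ℱ i) (i + 1) fun k hk => hξℱ i k (by omega)).comp
        (measurable_id.prodMk measurable_const)
  have hint : ∀ n, Integrable (fun ω => (L n ω).toReal) P := fun n =>
    integrable_toReal_of_lintegral_ne_top (hLm mΩ n fun k _ => h.meas k).aemeasurable
      (ne_top_of_le_ne_top (by simp [hC, ENNReal.mul_eq_top]) (lintegral_mono (hLb n)))
  have hfin : ∀ n (s : Set Ω), ∫⁻ ω in s, L n ω ∂P ≠ ∞ := fun n s =>
    ne_top_of_le_ne_top (by simp [hC, ENNReal.mul_eq_top]) (lintegral_mono (hLb n))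
  have hsup : Supermartingale (fun i ω => (L (i + 1) ω).toReal) ℱ P := by
    refine supermartingale_of_setIntegral_succ_le (fun i => ?_) (fun i => hint _) fun i s hs => ?_
    · exact (ENNReal.measurable_toReal.comp
        (hLm (ℱ i) (i + 1) fun k hk => hξℱ i k (by omega))).stronglyMeasurable
    · rw [integral_toReal (hLm mΩ _ fun k _ => h.meas k).aemeasurable (ae_of_all _ (hLfin _)),
        integral_toReal (hLm mΩ _ fun k _ => h.meas k).aemeasurable (ae_of_all _ (hLfin _))]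
      exact ENNReal.toReal_mono (hfin _ _) (hstep i s hs)
  have hbd : ∀ i, ∫⁻ ω, L (i + 1) ω ∂P ≤ ∫⁻ ω, L 1 ω ∂P := by
    intro i
    induction i with
    | zero => exact le_rfl
    | succ i ih =>
      have := hstep i Set.univ MeasurableSet.univ
      simp only [Measure.restrict_univ] at this
      exact this.trans ih
  have hR : ∫⁻ ω, L 1 ω ∂P ≠ ∞ := by simpa using hfin 1 Set.univ
  have := hsup.neg.exists_ae_tendsto_of_bdd (R := (∫⁻ ω, L 1 ω ∂P).toNNReal) fun i => by
    rw [ENNReal.coe_toNNReal hR, eLpNorm_one_eq_lintegral_enorm]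
    refine le_trans (lintegral_mono fun ω => ?_) (hbd i)
    simp only [Pi.neg_apply, enorm_neg]
    rw [Real.enorm_eq_ofReal ENNReal.toReal_nonneg]
    exact ENNReal.ofReal_toReal_le
  filter_upwards [this] with ω ⟨c, hc⟩
  refine ⟨-c, ?_⟩
  rw [← tendsto_add_atTop_iff_nat 1]
  simpa using hc.neg

theorem IsCoeff.ae_conv_nonneg (h : IsCoeff P ξ) {γ : ℝ} (hγ : 0 ≤ γ) (f : C(UnitAddCircle, ℝ))
    (hf : ∀ θ, 0 ≤ f θ) : ∀ᵐ ω ∂P, ∃ c : ℝ, Tendsto
      (fun n => ∫ θ, f θ * Df (P.map (ξ 0)) ξ γ (range n) ω (ez θ)) atTop (𝓝 c) := by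
  set ν := P.map (ξ 0) with hν
  have hl : Law ν := h.law
  have hQ := hl.continuous_Q
  set g : ℕ → ℂ → UnitAddCircle → ℝ≥0∞ := fun k x θ => ENNReal.ofReal
    (Real.exp ((tr k x * bb γ k (ez θ)).re - Q ν (bb γ k (ez θ)) / 2 - cst γ * rho ν k)) with hg
  have hb : ∀ k θ, ‖bb γ k (ez θ)‖ ≤ γ / sq1 k := fun k θ => (norm_bb hγ k (norm_ez θ)).le
  have hmain := supermart_conv h g (fun k => by
      have h1 : Measurable fun p : ℂ × UnitAddCircle => bb γ k (ez p.2) :=
        ((continuous_bb γ k).comp (continuous_ez.comp continuous_snd)).measurable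
      have h2 := hQ.measurable.comp h1
      exact ENNReal.measurable_ofReal.comp (Real.measurable_exp.comp
        (((Complex.measurable_re.comp (((measurable_tr k).comp measurable_fst).mul h1)).sub
          (h2.div_const 2)).sub_const _)))
    (ENNReal.ofReal (max (Real.exp γ) ‖f‖)) ENNReal.ofReal_ne_top
    (fun k x θ => ENNReal.ofReal_le_ofReal (le_max_of_le_left (Real.exp_le_exp.2 (by
      have := (abs_le.1 (abs_tr_le (hb k θ) x)).2
      have := Q_nonneg (ν := ν) (bb γ k (ez θ))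
      have := mul_nonneg (cst_nonneg hγ) (rho_nonneg (ν := ν) k)
      linarith))))
    (fun k θ => by
      have e : ∀ ω, g k (ξ k ω) θ = ENNReal.ofReal (Real.exp (tr k (ξ k ω) * bb γ k (ez θ)).re) *
          ENNReal.ofReal (Real.exp (-(Q ν (bb γ k (ez θ)) / 2 + cst γ * rho ν k))) := fun ω => by
        rw [← ENNReal.ofReal_mul (Real.exp_pos _).le, ← Real.exp_add, hg]
        ring_nf
      simp_rw [e]
      have := h.meas k
      rw [lintegral_mul_const _ (by fun_prop), h.lint_exp (hb k θ),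
        ← ENNReal.ofReal_mul' (Real.exp_pos _).le, ENNReal.ofReal_le_one]
      refine (mul_le_mul_of_nonneg_right (hl.mg_le hγ (hb k θ)) (Real.exp_pos _).le).trans ?_
      rw [← Real.exp_add, Real.exp_le_one_iff]
      linarith [hl.Qt_le k (bb γ k (ez θ))])
    (fun θ => ENNReal.ofReal (f θ)) (by fun_prop)
    (fun θ => ENNReal.ofReal_le_ofReal (le_max_of_le_right
      ((le_abs_self _).trans (f.norm_coe_le_norm θ))))
  have hmono : Monotone fun n => ∑ k ∈ range n, rho ν k :=
    monotone_nat_of_le_succ fun n => by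
      rw [Finset.sum_range_succ]; linarith [rho_nonneg (ν := ν) n]
  have hconv := tendsto_atTop_ciSup hmono ⟨8, by rintro _ ⟨n, rfl⟩; exact hl.sum_rho_range n⟩
  filter_upwards [hmain] with ω ⟨c, hc⟩
  refine ⟨_, (hc.mul ((Real.continuous_exp.tendsto _).comp (hconv.const_mul (cst γ)))).congr
    fun n => ?_⟩
  have hD := hl.continuous_Df ξ γ (range n) ω
  have e : ∀ θ, ENNReal.ofReal (f θ) * ∏ k ∈ range n, g k (ξ k ω) θ =
      ENNReal.ofReal (f θ * Df ν ξ γ (range n) ω (ez θ) *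
        Real.exp (-(cst γ * ∑ k ∈ range n, rho ν k))) := fun θ => by
    rw [mul_assoc, ENNReal.ofReal_mul (hf θ), hg,
      ← ENNReal.ofReal_prod_of_nonneg fun _ _ => (Real.exp_pos _).le, ← Real.exp_sum, Df,
      ← Real.exp_add, Yf, Vf, Finset.mul_sum, Finset.sum_sub_distrib, Finset.sum_sub_distrib]
    rfl
  simp_rw [e]
  rw [← ofReal_integral_eq_lintegral_ofReal (int_cont _ (by fun_prop))
    (ae_of_all _ fun θ => mul_nonneg (mul_nonneg (hf θ) (Df_pos _ _ _ _ _ _).le)
      (Real.exp_pos _).le), ENNReal.toReal_ofReal (integral_nonneg fun θ =>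
      mul_nonneg (mul_nonneg (hf θ) (Df_pos _ _ _ _ _ _).le) (Real.exp_pos _).le),
    integral_mul_const, Function.comp_apply, mul_assoc, ← Real.exp_add]
  simp

/-- a finite measure with a continuous density -/
noncomputable def dens (F : UnitAddCircle → ℝ) (hF : Continuous F) : FiniteMeasure UnitAddCircle :=
  ⟨volume.withDensity fun θ => ENNReal.ofReal (F θ),
    isFiniteMeasure_withDensity_ofReal (int_cont _ hF).2⟩

theorem integral_dens {F : UnitAddCircle → ℝ} (hF : Continuous F) (h0 : ∀ θ, 0 ≤ F θ)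
    (f : UnitAddCircle → ℝ) :
    ∫ θ, f θ ∂(dens F hF : Measure UnitAddCircle) = ∫ θ, f θ * F θ := by
  change ∫ θ, f θ ∂(volume.withDensity fun θ => ENNReal.ofReal (F θ)) = _
  rw [integral_withDensity_eq_integral_toReal_smul (by fun_prop) (ae_of_all _ fun _ => by simp)]
  refine integral_congr_ae (ae_of_all _ fun θ => ?_)
  simp [ENNReal.toReal_ofReal (h0 θ), mul_comm]

theorem IsCoeff.ae_conv_trunc (h : IsCoeff P ξ) {γ : ℝ} (hγ : 0 ≤ γ) :
    ∀ᵐ ω ∂P, ∀ f : C(UnitAddCircle, ℝ), ∃ c : ℝ, Tendsto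
      (fun n => ∫ θ, f θ * Df (P.map (ξ 0)) ξ γ (range n) ω (ez θ)) atTop (𝓝 c) := by
  set ν := P.map (ξ 0) with hν
  have hl : Law ν := h.law
  have hD : ∀ n ω, Continuous fun θ => Df ν ξ γ (range n) ω (ez θ) := fun n ω =>
    (hl.continuous_Df ξ γ (range n) ω).comp continuous_ez
  have h1 : ∀ f : C(UnitAddCircle, ℝ), ∀ᵐ ω ∂P, ∃ c : ℝ, Tendsto
      (fun n => ∫ θ, f θ * Df ν ξ γ (range n) ω (ez θ)) atTop (𝓝 c) := by
    intro f
    filter_upwards [h.ae_conv_nonneg hγ (f + ContinuousMap.const _ ‖f‖) (fun θ => by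
        have := (abs_le.1 (f.norm_coe_le_norm θ)).1
        simp only [ContinuousMap.add_apply, ContinuousMap.const_apply]; linarith),
      h.ae_conv_nonneg hγ (ContinuousMap.const _ ‖f‖) (fun θ => norm_nonneg f)]
      with ω ⟨c, hc⟩ ⟨c', hc'⟩
    refine ⟨_, (hc.sub hc').congr fun n => ?_⟩
    have := hD n ω
    rw [← integral_sub (int_cont _ (by fun_prop)) (int_cont _ (by fun_prop))]
    refine integral_congr_ae (ae_of_all _ fun θ => ?_)
    simp only [ContinuousMap.add_apply, ContinuousMap.const_apply]; ring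
  obtain ⟨D, hDc, hDd⟩ := TopologicalSpace.exists_countable_dense C(UnitAddCircle, ℝ)
  filter_upwards [(ae_ball_iff hDc).2 fun f _ => h1 f, h1 1] with ω hω hω1 f
  have := conv_all (fun n => dens _ (hD n ω)) hDd
    (fun f hf => by simpa only [integral_dens _ fun θ => (Df_pos _ _ _ _ _ _).le] using hω f hf)
    (by simpa only [integral_dens _ fun θ => (Df_pos _ _ _ _ _ _).le] using hω1) f
  simpa only [integral_dens _ fun θ => (Df_pos _ _ _ _ _ _).le] using this

omit mΩ in
theorem Sf_stable {γ : ℝ} {ω : Ω} {N : ℕ} (hN : ∀ k ≥ N, tl k (ξ k ω) = 0) {n : ℕ} (hn : N ≤ n)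
    (z : ℂ) : Sf ξ γ (range n) ω z = Sf ξ γ (range N) ω z := by
  unfold Sf
  refine (Finset.sum_subset (Finset.range_subset_range.2 hn) fun k _ hk => ?_).symm
  rw [hN k (by simpa using hk)]; simp

/-- the full density -/
noncomputable def Ff (P : Measure Ω) (ξ : ℕ → Ω → ℂ) (γ : ℝ) (n : ℕ) (ω : Ω)
    (θ : UnitAddCircle) : ℝ :=
  Real.exp (Sf ξ γ (range n) ω (ez θ)) * Df (P.map (ξ 0)) ξ γ (range n) ω (ez θ)

theorem IsCoeff.continuous_Ff (h : IsCoeff P ξ) (γ : ℝ) (n : ℕ) (ω : Ω) :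
    Continuous (Ff P ξ γ n ω) := by
  have h1 := h.law.continuous_Df ξ γ (range n) ω
  have h2 := continuous_Sf ξ γ (range n) ω
  unfold Ff; fun_prop

theorem Ff_pos (γ : ℝ) (n : ℕ) (ω : Ω) (θ : UnitAddCircle) : 0 < Ff P ξ γ n ω θ :=
  mul_pos (Real.exp_pos _) (Df_pos _ _ _ _ _ _)

/-- the chaos measure as a finite measure -/
noncomputable def IsCoeff.M (h : IsCoeff P ξ) (γ : ℝ) (n : ℕ) (ω : Ω) :
    FiniteMeasure UnitAddCircle := dens _ (h.continuous_Ff γ n ω)

theorem IsCoeff.coe_M (h : IsCoeff P ξ) (γ : ℝ) (n : ℕ) (ω : Ω) :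
    (h.M γ n ω : Measure UnitAddCircle) = chaos P ξ γ n ω := (h.chaos_eq γ n ω).symm

theorem IsCoeff.measurable_M (h : IsCoeff P ξ) (γ : ℝ) (n : ℕ)
    (F : FiniteMeasure UnitAddCircle → ℝ) (hF : Continuous F) :
    Measurable fun ω => F (h.M γ n ω) := by
  set ν := P.map (ξ 0) with hν
  have hV := h.law.continuous_Vf γ (range n)
  set G : (Fin n → ℂ) → UnitAddCircle → ℝ := fun x θ =>
    Real.exp (∑ k : Fin n, (x k * bb γ k (ez θ)).re - Vf ν γ (range n) (ez θ)) with hG
  have hGc : Continuous (Function.uncurry G) := by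
    simp only [hG, Function.uncurry_def]; fun_prop
  have hGx : ∀ x, Continuous (G x) := fun x => hGc.comp (Continuous.prodMk_right x)
  have hΦ : Continuous fun x => dens _ (hGx x) := by
    refine continuous_iff_continuousAt.2 fun x => ?_
    refine FiniteMeasure.tendsto_of_forall_integral_tendsto fun f => ?_
    have hG0 : ∀ x θ, 0 ≤ G x θ := fun x θ => (Real.exp_pos _).le
    simp only [integral_dens _ (hG0 _)]
    have := continuous_parametric_integral_of_continuous (μ := (volume : Measure UnitAddCircle))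
      (f := fun x θ => f θ * G x θ) (by
        have := f.continuous
        simp only [Function.uncurry_def] at hGc ⊢; fun_prop) isCompact_univ
    simp only [Measure.restrict_univ] at this
    exact this.tendsto x
  have e : (fun ω => F (h.M γ n ω)) =
      (fun x => F (dens _ (hGx x))) ∘ fun ω (k : Fin n) => ξ k ω := by
    ext ω
    simp only [Function.comp_apply, IsCoeff.M]
    congr 2
    ext θ
    rw [Ff, Df, ← Real.exp_add, hG, Sf, Yf, ← add_sub_assoc, ← Finset.sum_add_distrib,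
      Finset.sum_range]
    congr 2
    refine Finset.sum_congr rfl fun k _ => ?_
    rw [← Complex.add_re, ← add_mul, add_comm (tl k _), tr_add_tl]
  rw [e]
  exact (hF.comp hΦ).measurable.comp (measurable_pi_lambda _ fun k => h.meas k)

theorem IsCoeff.ae_conv (h : IsCoeff P ξ) {γ : ℝ} (hγ : 0 ≤ γ) :
    ∀ᵐ ω ∂P, ∀ f : C(UnitAddCircle, ℝ), ∃ c : ℝ, Tendsto
      (fun n => ∫ θ, f θ ∂(h.M γ n ω : Measure UnitAddCircle)) atTop (𝓝 c) := by
  filter_upwards [h.ae_conv_trunc hγ, h.ae_trunc] with ω hω htr f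
  obtain ⟨N, hN⟩ := eventually_atTop.1 htr
  have hS := continuous_Sf ξ γ (range N) ω
  obtain ⟨c, hc⟩ := hω ⟨fun θ => f θ * Real.exp (Sf ξ γ (range N) ω (ez θ)), by fun_prop⟩
  refine ⟨c, hc.congr' ?_⟩
  filter_upwards [eventually_ge_atTop N] with n hn
  rw [IsCoeff.M, integral_dens _ fun θ => (Ff_pos _ _ _ _).le]
  refine integral_congr_ae (ae_of_all _ fun θ => ?_)
  simp only [ContinuousMap.coe_mk, Ff, Sf_stable hN hn]
  ring

theorem IsCoeff.main_conv (h : IsCoeff P ξ) {γ : ℝ} (hγ : 0 ≤ γ) :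
    ∃ (M : ℕ → Ω → FiniteMeasure UnitAddCircle) (L : Ω → FiniteMeasure UnitAddCircle),
      (∀ n ω, (M n ω : Measure UnitAddCircle) = chaos P ξ γ n ω) ∧ Measurable L ∧
      (∀ᵐ ω ∂P, Tendsto (fun n => M n ω) atTop (𝓝 (L ω))) ∧
      ∀ F : FiniteMeasure UnitAddCircle →ᵇ ℝ,
        (∀ n, Measurable fun ω => F (M n ω)) ∧ AEMeasurable (fun ω => F (L ω)) P ∧
        Tendsto (fun n => ∫ ω, F (M n ω) ∂P) atTop (𝓝 (∫ ω, F (L ω) ∂P)) := by
  have := h.prob
  obtain ⟨L, hL, hlim⟩ := random_limit P (h.M γ) (fun n f => h.measurable_M γ n _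
    (FiniteMeasure.continuous_integral_boundedContinuousFunction
      (BoundedContinuousFunction.mkOfCompact f))) (h.ae_conv hγ)
  refine ⟨h.M γ, L, h.coe_M γ, hL, hlim, fun F => ?_⟩
  have hm : ∀ n, Measurable fun ω => F (h.M γ n ω) := fun n => h.measurable_M γ n _ F.continuous
  have hl : ∀ᵐ ω ∂P, Tendsto (fun n => F (h.M γ n ω)) atTop (𝓝 (F (L ω))) := by
    filter_upwards [hlim] with ω hω using (F.continuous.tendsto _).comp hω
  refine ⟨hm, aemeasurable_of_tendsto_metrizable_ae' (fun n => (hm n).aemeasurable) hl, ?_⟩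
  exact tendsto_integral_of_dominated_convergence (fun _ => ‖F‖)
    (fun n => (hm n).aestronglyMeasurable) (integrable_const _)
    (fun n => ae_of_all _ fun ω => F.norm_coe_le_norm _) hl

end Pool.Agent.P.MP_ab74d4_pr
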