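import Mathlib

/-!
Definitions for MP_ab74d4_pr.  The circle is `ℝ/ℤ` with `z = exp (2 π i θ)`, and
`ξ 0, ξ 1, ...` stand for the coefficients `ξ_1, ξ_2, ...` of the problem.
-/

namespace Pool.Agent.P.MP_ab74d4_pr

open MeasureTheory ProbabilityTheory
open scoped ENNReal

/-- i.i.d. centred coefficients with variance one -/
def IsCoeff {Ω : Type*} [MeasurableSpace Ω] (P : Measure Ω) (ξ : ℕ → Ω → ℂ) : Prop :=
  IsProbabilityMeasure P ∧ (∀ k, Measurable (ξ k)) ∧ iIndepFun ξ P ∧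
    (∀ k, IdentDistrib (ξ k) (ξ 0) P P) ∧ MemLp (ξ 0) 2 P ∧
    ∫ ω, ξ 0 ω ∂P = 0 ∧ ∫ ω, ‖ξ 0 ω‖ ^ 2 ∂P = 1

/-- `Re P_n(z)` at `z = exp (2 π i θ)` -/
noncomputable def reP {Ω : Type*} (ξ : ℕ → Ω → ℂ) (n : ℕ) (θ : UnitAddCircle) (ω : Ω) : ℝ :=
  (∑ k ∈ Finset.range n,
    1 / ((Real.sqrt ((k : ℝ) + 1) : ℝ) : ℂ) * ξ k ω * (AddCircle.toCircle θ : ℂ) ^ (k + 1)).re

/-- the random measure `μ_n^γ` -/
noncomputable def chaos {Ω : Type*} [MeasurableSpace Ω] (P : Measure Ω) (ξ : ℕ → Ω → ℂ) (γ : ℝ)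
    (n : ℕ) (ω : Ω) : Measure UnitAddCircle :=
  volume.withDensity fun θ =>
    ENNReal.ofReal (Real.exp (γ * reP ξ n θ ω - γ ^ 2 / 2 * variance (reP ξ n θ) P))

/-- the Hausdorff dimension of a measure on the circle -/
noncomputable def mdim (μ : Measure UnitAddCircle) : ℝ≥0∞ :=
  ⨅ (A : Set UnitAddCircle) (_ : MeasurableSet A) (_ : μ Aᶜ = 0), dimH A

end Pool.Agent.P.MP_ab74d4_pr
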