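import Pool.Agent.P.MP_ab74d4_pr.Defs

/-!
Further definitions for Q2 of MP_ab74d4_pr.
-/

namespace Pool.Agent.P.MP_ab74d4_pr

open MeasureTheory Filter Topology

/-- `L` is an almost sure weak (= vague) limit of the random measures `μ_n^γ` -/
def IsLimit {Ω : Type*} [MeasurableSpace Ω] (P : Measure Ω) (ξ : ℕ → Ω → ℂ) (γ : ℝ)
    (L : Ω → FiniteMeasure UnitAddCircle) : Prop :=
  ∃ M : ℕ → Ω → FiniteMeasure UnitAddCircle,
    (∀ n ω, (M n ω : Measure UnitAddCircle) = chaos P ξ γ n ω) ∧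
    ∀ᵐ ω ∂P, Tendsto (fun n => M n ω) atTop (𝓝 (L ω))

/-- the condition `E |ξ|^2 log⁺ |ξ| < ∞` -/
def LogMoment {Ω : Type*} [MeasurableSpace Ω] (P : Measure Ω) (ξ : ℕ → Ω → ℂ) : Prop :=
  Integrable (fun ω => ‖ξ 0 ω‖ ^ 2 * Real.posLog ‖ξ 0 ω‖) P

/-- the product measure making the coordinates of `ℕ → ℝ` i.i.d. with law `ν` -/
noncomputable def iid (ν : Measure ℝ) : Measure (ℕ → ℝ) := Measure.infinitePi fun _ => ν

/-- the real coordinates, viewed as complex coefficients -/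
def coord (k : ℕ) (ω : ℕ → ℝ) : ℂ := ω k

end Pool.Agent.P.MP_ab74d4_pr
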