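import Mathlib

/-!
Deterministic criteria for the Hausdorff dimension of a measure from moment sums over dyadic balls.
-/

namespace Pool.Agent.P.MP_ab74d4_pr

open MeasureTheory Filter Topology Finset Metric
open scoped ENNReal NNReal

/-- the dyadic scale -/
noncomputable def hh (j : ℕ) : ℝ := (1 / 2) ^ j

theorem hh_pos (j : ℕ) : 0 < hh j := by unfold hh; positivity

theorem hh_succ (j : ℕ) : hh (j + 1) = hh j / 2 := by unfold hh; ring

theorem hh_anti : Antitone hh := antitone_nat_of_succ_le fun j => by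
  rw [hh_succ]; linarith [hh_pos j]

theorem hh_tendsto : Tendsto hh atTop (𝓝 0) :=
  tendsto_pow_atTop_nhds_zero_of_lt_one (by norm_num) (by norm_num)

theorem ofReal_hh_ne (j : ℕ) : ENNReal.ofReal (hh j) ≠ 0 := by simpa using hh_pos j

variable {X : Type*} [MetricSpace X] [MeasurableSpace X] [BorelSpace X]

/-- the moment sum at level `j` -/
noncomputable def msum (μ : Measure X) (c : ℕ → ℕ → X) (S : ℕ → Finset ℕ) (q β : ℝ) (j : ℕ) :
    ℝ≥0∞ :=
  ∑ i ∈ S j, μ (ball (c j i) (2 * hh j)) ^ q * ENNReal.ofReal (hh j) ^ (β * (1 - q))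

theorem dim_upper (μ : Measure X) (c : ℕ → ℕ → X) (S : ℕ → Finset ℕ) (K : Set X) {q : ℝ}
    (hq0 : 0 < q) (hq1 : q < 1) (β : ℝ≥0)
    (hcov : ∀ᶠ j in atTop, ∀ z ∈ K, ∃ i ∈ S j, dist z (c j i) ≤ hh j)
    (hsum : ∑' j, msum μ c S q β j ≠ ∞) :
    ∃ A, MeasurableSet A ∧ μ (K \ A) = 0 ∧ dimH A ≤ β := by
  classical
  set B : ℕ → ℕ → Set X := fun j i => ball (c j i) (2 * hh j) with hB
  set e : ℕ → ℝ≥0∞ := fun j => ENNReal.ofReal (hh j) with he
  set good : ℕ → Finset ℕ := fun j => (S j).filter fun i => e j ^ (β : ℝ) ≤ μ (B j i) with hgood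
  set bad : ℕ → Finset ℕ := fun j => (S j).filter fun i => ¬ e j ^ (β : ℝ) ≤ μ (B j i) with hbad
  have split : ∀ x : ℝ≥0∞, x = x ^ q * x ^ (1 - q) := fun x => by
    rw [← ENNReal.rpow_add_of_nonneg _ _ hq0.le (by linarith)]; simp
  have hbadm : ∀ j, μ (⋃ i ∈ bad j, B j i) ≤ msum μ c S q β j := fun j => by
    refine (measure_biUnion_finset_le _ _).trans ?_
    refine le_trans (Finset.sum_le_sum fun i hi => ?_)
      (Finset.sum_le_sum_of_subset (Finset.filter_subset _ (S j)))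
    have h1 := (not_le.1 (Finset.mem_filter.1 hi).2).le
    rw [ENNReal.rpow_mul]
    exact (split _).le.trans (mul_le_mul_right (ENNReal.rpow_le_rpow h1 (by linarith)) _)
  have hae := ae_eventually_notMem (ne_top_of_le_ne_top hsum (ENNReal.tsum_le_tsum hbadm))
  refine ⟨⋃ J, ⋂ j ≥ J, ⋃ i ∈ good j, B j i, ?_, ?_, ?_⟩
  · exact MeasurableSet.iUnion fun J => MeasurableSet.iInter fun j => MeasurableSet.iInter
      fun _ => Finset.measurableSet_biUnion _ fun i _ => measurableSet_ball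
  · refine measure_mono_null (fun z hz => ?_) (ae_iff.1 hae)
    intro hz'
    apply hz.2
    obtain ⟨J, hJ⟩ := eventually_atTop.1 (hz'.and hcov)
    refine Set.mem_iUnion.2 ⟨J, Set.mem_iInter₂.2 fun j hj => ?_⟩
    obtain ⟨h1, h2⟩ := hJ j hj
    obtain ⟨i, hi, hd⟩ := h2 z hz.1
    have hzB : z ∈ B j i := mem_ball.2 (by linarith [hh_pos j])
    refine Set.mem_iUnion₂.2 ⟨i, Finset.mem_filter.2 ⟨hi, ?_⟩, hzB⟩
    by_contra hc
    exact h1 (Set.mem_iUnion₂.2 ⟨i, Finset.mem_filter.2 ⟨hi, hc⟩, hzB⟩)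
  · rw [dimH_iUnion]
    refine iSup_le fun J => dimH_le_of_hausdorffMeasure_ne_top ?_
    have hdiam : ∀ j i, ediam (B j i) ≤ 4 * e j := fun j i => by
      refine ediam_le fun x hx y hy => ?_
      rw [edist_dist, he]
      have h1 := mem_ball.1 hx
      have h2 := mem_ball.1 hy
      have h3 := dist_triangle_right x y (c j i)
      calc ENNReal.ofReal (dist x y) ≤ ENNReal.ofReal (4 * hh j) :=
            ENNReal.ofReal_le_ofReal (by linarith)
        _ = _ := by rw [ENNReal.ofReal_mul (by norm_num)]; simp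
    have hle := Measure.hausdorffMeasure_le_liminf_sum (β : ℝ) (⋂ j ≥ J, ⋃ i ∈ good j, B j i)
      (l := atTop) (ι := fun j => good j) (fun j => 4 * e j)
      (by
        have : Tendsto e atTop (𝓝 0) := by
          simpa [he] using ENNReal.tendsto_ofReal hh_tendsto
        simpa using ENNReal.Tendsto.const_mul this (Or.inr (by simp)))
      (fun j i => B j i) (Eventually.of_forall fun j i => hdiam j i)
      (by
        filter_upwards [eventually_ge_atTop J] with j hj z hz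
        obtain ⟨i, hi, hzi⟩ := Set.mem_iUnion₂.1 (Set.mem_iInter₂.1 hz j hj)
        exact Set.mem_iUnion.2 ⟨⟨i, hi⟩, hzi⟩)
    refine ne_top_of_le_ne_top (b := 4 ^ (β : ℝ) * ∑' j, msum μ c S q β j)
      (ENNReal.mul_ne_top (ENNReal.rpow_ne_top_of_nonneg β.2 (by simp)) hsum) (hle.trans ?_)
    refine liminf_le_of_frequently_le' (Frequently.of_forall fun j => ?_)
    refine le_trans ?_ (mul_le_mul_right (ENNReal.le_tsum j) _)
    rw [Finset.sum_coe_sort (good j) fun i => ediam (B j i) ^ (β : ℝ), msum, Finset.mul_sum]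
    refine le_trans (Finset.sum_le_sum fun i hi => ?_)
      (Finset.sum_le_sum_of_subset (Finset.filter_subset _ (S j)))
    have h1 := (Finset.mem_filter.1 hi).2
    refine (ENNReal.rpow_le_rpow (hdiam j i) β.2).trans ?_
    rw [ENNReal.mul_rpow_of_nonneg _ _ β.2, ENNReal.rpow_mul]
    refine mul_le_mul_right ?_ _
    exact (split _).le.trans (mul_le_mul_left (ENNReal.rpow_le_rpow h1 hq0.le) _)

theorem dim_lower (μ : Measure X) [IsFiniteMeasure μ] (c : ℕ → ℕ → X) (S : ℕ → Finset ℕ)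
    {K : Set X} (hK : MeasurableSet K) (hK0 : μ K ≠ 0) {q : ℝ} (hq1 : 1 < q) {β : ℝ≥0}
    (hβ : 0 < β) (hcov : ∀ᶠ j in atTop, ∀ z ∈ K, ∃ i ∈ S j, dist z (c j i) ≤ hh j)
    (hsum : ∑' j, msum μ c S q β j ≠ ∞) {A : Set X} (hA : μ Aᶜ = 0) : (β : ℝ≥0∞) ≤ dimH A := by
  classical
  set B : ℕ → ℕ → Set X := fun j i => ball (c j i) (2 * hh j) with hB
  set e : ℕ → ℝ≥0∞ := fun j => ENNReal.ofReal (hh j) with he
  set bad : ℕ → Finset ℕ := fun j => (S j).filter fun i => e j ^ (β : ℝ) < μ (B j i) with hbad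
  have hbadm : ∀ j, μ (⋃ i ∈ bad j, B j i) ≤ msum μ c S q β j := fun j => by
    refine (measure_biUnion_finset_le _ _).trans ?_
    refine le_trans (Finset.sum_le_sum fun i hi => ?_)
      (Finset.sum_le_sum_of_subset (Finset.filter_subset _ (S j)))
    have h1 := (Finset.mem_filter.1 hi).2
    have h0 : μ (B j i) ≠ 0 := (bot_le.trans_lt h1).ne'
    rw [ENNReal.rpow_mul]
    have split : μ (B j i) = μ (B j i) ^ q * μ (B j i) ^ (1 - q) := by
      rw [← ENNReal.rpow_add _ _ h0 (measure_ne_top _ _)]; simp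
    refine split.le.trans (mul_le_mul_right ?_ _)
    rw [show 1 - q = -(q - 1) by ring, ENNReal.rpow_neg, ENNReal.rpow_neg]
    exact ENNReal.inv_le_inv.2 (ENNReal.rpow_le_rpow h1.le (by linarith))
  have hae := ae_eventually_notMem (ne_top_of_le_ne_top hsum (ENNReal.tsum_le_tsum hbadm))
  obtain ⟨J0, hJ0⟩ := eventually_atTop.1 hcov
  set E : ℕ → Set X := fun J => K ∩ ⋂ j ≥ J, (⋃ i ∈ bad j, B j i)ᶜ with hE
  have hEm : ∀ J, MeasurableSet (E J) := fun J => hK.inter (MeasurableSet.iInter fun j =>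
    MeasurableSet.iInter fun _ => (Finset.measurableSet_biUnion _ fun i _ =>
      measurableSet_ball).compl)
  obtain ⟨J, hJ, hEJ⟩ : ∃ J, J0 ≤ J ∧ μ (E J) ≠ 0 := by
    by_contra hc
    push Not at hc
    apply hK0
    refine measure_mono_null (t := (⋃ J : {J // J0 ≤ J}, E J) ∪
      {z | ¬ ∀ᶠ j in atTop, z ∉ ⋃ i ∈ bad j, B j i}) (fun z hz => ?_)
      (measure_union_null (measure_iUnion_null fun J => hc J J.2) (ae_iff.1 hae))
    by_cases h : ∀ᶠ j in atTop, z ∉ ⋃ i ∈ bad j, B j i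
    · obtain ⟨J, hJ⟩ := eventually_atTop.1 h
      exact Or.inl (Set.mem_iUnion.2 ⟨⟨max J0 J, le_max_left _ _⟩, hz,
        Set.mem_iInter₂.2 fun j hj => hJ j ((le_max_right _ _).trans hj)⟩)
    · exact Or.inr h
  have key : ∀ s : Set X, ∀ j ≥ J, ediam s < e j → μ (s ∩ E J) ≤ e j ^ (β : ℝ) := by
    intro s j hj hs
    rcases (s ∩ E J).eq_empty_or_nonempty with h | ⟨z, hzs, hzK, hzE⟩
    · rw [h]; simp
    obtain ⟨i, hi, hd⟩ := hJ0 j (hJ.trans hj) z hzK
    have hsB : s ⊆ B j i := fun w hw => by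
      have h1 : edist w z < e j := (edist_le_ediam_of_mem hw hzs).trans_lt hs
      rw [edist_dist, he, ENNReal.ofReal_lt_ofReal_iff (hh_pos j)] at h1
      exact mem_ball.2 (by linarith [dist_triangle w z (c j i)])
    refine (measure_mono (Set.inter_subset_left.trans hsB)).trans (not_lt.1 fun hc => ?_)
    exact Set.mem_iInter₂.1 hzE j hj (Set.mem_iUnion₂.2 ⟨i, Finset.mem_filter.2 ⟨hi, hc⟩, hsB hzs⟩)
  have h4 : (4 : ℝ≥0∞) ^ (β : ℝ) ≠ 0 := by simp
  have h4' : (4 : ℝ≥0∞) ^ (β : ℝ) ≠ ∞ := ENNReal.rpow_ne_top_of_nonneg β.2 (by simp)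
  have hle : ((4 : ℝ≥0∞) ^ (β : ℝ))⁻¹ • μ.restrict (E J) ≤ μH[β] := by
    refine Measure.le_hausdorffMeasure _ _ (e (J + 1)) (bot_lt_iff_ne_bot.2 (ofReal_hh_ne _))
      fun s hs => ?_
    rw [Measure.smul_apply, Measure.restrict_apply' (hEm J), smul_eq_mul,
      ENNReal.inv_mul_le_iff h4 h4', ← ENNReal.mul_rpow_of_nonneg _ _ β.coe_nonneg]
    rcases (zero_le (a := ediam s)).eq_or_lt with h0 | h0
    · have ht : Tendsto (fun j => e j ^ (β : ℝ)) atTop (𝓝 0) := by
        have : Tendsto e atTop (𝓝 0) := by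
          simpa [he] using ENNReal.tendsto_ofReal hh_tendsto
        have h2 := (ENNReal.continuous_rpow_const (y := (β : ℝ))).tendsto 0
        rw [ENNReal.zero_rpow_of_pos (by exact_mod_cast hβ)] at h2
        exact h2.comp this
      refine le_trans (ge_of_tendsto ht ?_) bot_le
      filter_upwards [eventually_ge_atTop J] with j hj
      exact key s j hj (h0 ▸ bot_lt_iff_ne_bot.2 (ofReal_hh_ne j))
    · have hfin : ediam s ≠ ∞ := ne_top_of_le_ne_top ENNReal.ofReal_ne_top hs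
      set d := (ediam s).toReal with hd
      have hd0 : 0 < d := ENNReal.toReal_pos h0.ne' hfin
      have hds : ediam s = ENNReal.ofReal d := (ENNReal.ofReal_toReal hfin).symm
      have hd1 : d ≤ hh (J + 1) := by
        rw [hds, he, ENNReal.ofReal_le_ofReal_iff (hh_pos _).le] at hs; exact hs
      have hd2 : d ≤ 1 := hd1.trans (by simpa [hh] using hh_anti (Nat.zero_le (J + 1)))
      obtain ⟨n, hn1, hn2⟩ := exists_nat_pow_near_of_lt_one hd0 hd2
        (show (0 : ℝ) < 1 / 2 by norm_num) (by norm_num)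
      change hh (n + 1) < d at hn1
      change d ≤ hh n at hn2
      have hn : J + 1 ≤ n := by
        by_contra hc
        have := hh_anti (show n + 1 ≤ J + 1 by omega)
        linarith
      obtain ⟨m, rfl⟩ : ∃ m, n = m + 1 := ⟨n - 1, by omega⟩
      rw [hh_succ, hh_succ] at hn1
      rw [hh_succ] at hn2
      refine (key s m (by omega) ?_).trans (ENNReal.rpow_le_rpow ?_ β.2)
      · rw [hds, he, ENNReal.ofReal_lt_ofReal_iff (hh_pos m)]; linarith [hh_pos m]
      · rw [hds, he]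
        calc ENNReal.ofReal (hh m) ≤ ENNReal.ofReal (4 * d) := ENNReal.ofReal_le_ofReal (by linarith)
          _ = _ := by rw [ENNReal.ofReal_mul (by norm_num)]; simp
  refine le_dimH_of_hausdorffMeasure_ne_zero fun h0 => hEJ ?_
  have h1 := hle A
  rw [h0, Measure.smul_apply, Measure.restrict_apply' (hEm J), smul_eq_mul, nonpos_iff_eq_zero,
    mul_eq_zero] at h1
  rcases h1 with h1 | h1
  · exact absurd (ENNReal.inv_eq_zero.1 h1) h4'
  · refine measure_mono_null (t := (A ∩ E J) ∪ Aᶜ) (fun z hz => ?_) (measure_union_null h1 hA)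
    by_cases h : z ∈ A
    · exact Or.inl ⟨h, hz⟩
    · exact Or.inr h

end Pool.Agent.P.MP_ab74d4_pr
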