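import Pool.Agent.P.MP_ab74d4_pr.Final

/-!
The dimension dichotomy for the limit measure.
-/

namespace Pool.Agent.P.MP_ab74d4_pr

open MeasureTheory ProbabilityTheory Filter Topology Finset Metric
open scoped ENNReal NNReal

theorem mdim_le {μ : Measure UnitAddCircle} {A : Set UnitAddCircle} (hA : MeasurableSet A)
    (h : μ Aᶜ = 0) : mdim μ ≤ dimH A :=
  iInf_le_of_le A (iInf_le_of_le hA (iInf_le _ h))

theorem mdim_zero : mdim 0 = 0 :=
  le_antisymm ((mdim_le MeasurableSet.empty (by simp)).trans (by simp)) bot_le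

theorem eps_tendsto : Tendsto (fun l : ℕ => 1 / ((l : ℝ) + 2)) atTop (𝓝 0) :=
  tendsto_const_nhds.div_atTop (tendsto_atTop_add_const_right _ _ tendsto_natCast_atTop_atTop)

theorem eps_le (l : ℕ) : 1 / ((l : ℝ) + 2) ≤ 1 / 2 :=
  one_div_le_one_div_of_le (by norm_num) (by linarith [Nat.cast_nonneg (α := ℝ) l])

variable {Ω : Type*} [mΩ : MeasurableSpace Ω] {P : Measure Ω} {ξ : ℕ → Ω → ℂ}

theorem not_ae_tendsto_zero [IsFiniteMeasure P] (X : ℕ → Ω → ℝ≥0∞) (hX : ∀ n, Measurable (X n))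
    {c C : ℝ≥0∞} (hc : c ≠ 0) (hC : C ≠ ∞) (h1 : ∀ n, c ≤ ∫⁻ ω, X n ω ∂P)
    (h2 : ∀ᶠ n in atTop, ∫⁻ ω, X n ω ^ (2 : ℝ) ∂P ≤ C) :
    ¬ ∀ᵐ ω ∂P, Tendsto (fun n => X n ω) atTop (𝓝 0) := by
  intro h0
  have ht : Tendsto (fun l : ℕ => (l : ℝ≥0∞)⁻¹ * C) atTop (𝓝 0) := by
    simpa using ENNReal.Tendsto.mul_const ENNReal.tendsto_inv_nat_nhds_zero (Or.inr hC)
  obtain ⟨l, hl, hl1⟩ := ((ht.eventually_lt_const (pos_iff_ne_zero.2 hc)).and
    (eventually_ge_atTop 1)).exists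
  have hl0 : (l : ℝ≥0∞) ≠ 0 := by exact_mod_cast (by omega : l ≠ 0)
  have hd := tendsto_lintegral_of_dominated_convergence (μ := P)
    (F := fun n ω => min (X n ω) l) (f := fun _ => 0) (fun _ => l)
    (fun n => (hX n).min measurable_const) (fun n => ae_of_all _ fun ω => min_le_right _ _)
    (by simp [ENNReal.mul_eq_top]) (by
      filter_upwards [h0] with ω hω
      simpa using hω.min (tendsto_const_nhds (x := (l : ℝ≥0∞))))
  rw [lintegral_zero] at hd
  have hd2 := hd.add (tendsto_const_nhds (x := (l : ℝ≥0∞)⁻¹ * C))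
  rw [zero_add] at hd2
  refine hl.not_ge (ge_of_tendsto hd2 ?_)
  filter_upwards [h2] with n hn
  refine (h1 n).trans (le_trans (lintegral_mono (g := fun ω =>
    min (X n ω) l + (l : ℝ≥0∞)⁻¹ * X n ω ^ (2 : ℝ)) fun ω => ?_) ?_)
  · dsimp only
    rcases le_total (X n ω) l with h | h
    · rw [min_eq_left h]; exact le_self_add
    · refine le_add_left ?_
      rw [ENNReal.rpow_two, sq, ← mul_assoc]
      exact le_mul_of_one_le_left' ((ENNReal.inv_mul_cancel hl0 (by simp)).ge.trans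
        (mul_le_mul_right h _))
  · rw [lintegral_add_left ((hX n).min measurable_const), lintegral_const_mul' _ _ (ENNReal.inv_ne_top.2 hl0)]
    gcongr

theorem IsCoeff.lint_Tm (h : IsCoeff P ξ) (γ : ℝ) (S : Finset ℕ) (A : Set UnitAddCircle) :
    ∫⁻ ω, Tm (P.map (ξ 0)) ξ γ S A ω ∂P =
      ∫⁻ θ in A, ∫⁻ ω, ENNReal.ofReal (Df (P.map (ξ 0)) ξ γ S ω (ez θ)) ∂P := by
  have := h.prob
  exact lintegral_lintegral_swap (h.law.measurable_Df_ez mΩ γ S fun k _ => h.meas k).aemeasurable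

omit mΩ in
theorem Tm_block {ν : Measure ℂ} (h : Law ν) {γ : ℝ} (hγ : 0 ≤ γ) (A : Set UnitAddCircle) (ω : Ω)
    (m : ℕ) : Tendsto (fun n => Tm ν ξ γ (range n) A ω) atTop (𝓝 0) ↔
      Tendsto (fun n => Tm ν ξ γ (Ico m n) A ω) atTop (𝓝 0) := by
  have key : ∀ n ≥ m, ∀ θ, Df ν ξ γ (range n) ω (ez θ) =
      Df ν ξ γ (Ico 0 m) ω (ez θ) * Df ν ξ γ (Ico m n) ω (ez θ) := fun n hn θ => by
    rw [range_eq_Ico, ← Finset.Ico_union_Ico_eq_Ico (Nat.zero_le m) hn,
      Df_union _ _ _ (Finset.Ico_disjoint_Ico_consecutive 0 m n)]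
  have aux : ∀ (X Y : ℕ → ℝ≥0∞) (c : ℝ), (∀ n ≥ m, X n ≤ ENNReal.ofReal c * Y n) →
      Tendsto Y atTop (𝓝 0) → Tendsto X atTop (𝓝 0) := fun X Y c hXY hY => by
    have := ENNReal.Tendsto.const_mul hY (Or.inr (ENNReal.ofReal_ne_top (r := c)))
    rw [mul_zero] at this
    exact tendsto_of_tendsto_of_tendsto_of_le_of_le' tendsto_const_nhds this
      (Eventually.of_forall fun _ => bot_le) ((eventually_ge_atTop m).mono hXY)
  constructor
  · refine aux _ _ (Real.exp ((Ico 0 m).card * (γ + γ ^ 2))) fun n hn => ?_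
    rw [Tm, Tm, ← lintegral_const_mul' _ _ ENNReal.ofReal_ne_top]
    refine lintegral_mono fun θ => ?_
    rw [← ENNReal.ofReal_mul (Real.exp_pos _).le, key n hn, ← mul_assoc]
    refine ENNReal.ofReal_le_ofReal (le_mul_of_one_le_left (Df_pos _ _ _ _ _ _).le ?_)
    refine le_trans ?_ (mul_le_mul_of_nonneg_left (h.le_Df hγ _ ω (norm_ez θ)) (Real.exp_pos _).le)
    rw [← Real.exp_add]; simp
  · refine aux _ _ (Real.exp ((Ico 0 m).card * γ)) fun n hn => ?_
    rw [Tm, Tm, ← lintegral_const_mul' _ _ ENNReal.ofReal_ne_top]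
    refine lintegral_mono fun θ => ?_
    rw [← ENNReal.ofReal_mul (Real.exp_pos _).le, key n hn]
    exact ENNReal.ofReal_le_ofReal (mul_le_mul_of_nonneg_right (Df_le ν hγ _ ω (norm_ez θ))
      (Df_pos _ _ _ _ _ _).le)

theorem IsCoeff.zero_one (h : IsCoeff P ξ) {γ : ℝ} (hγ : 0 ≤ γ) (A : Set UnitAddCircle)
    (hn : ¬ ∀ᵐ ω ∂P, Tendsto (fun n => Tm (P.map (ξ 0)) ξ γ (range n) A ω) atTop (𝓝 0)) :
    ∀ᵐ ω ∂P, ¬ Tendsto (fun n => Tm (P.map (ξ 0)) ξ γ (range n) A ω) atTop (𝓝 0) := by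
  have := h.prob
  have hl := h.law
  set T := {ω | Tendsto (fun n => Tm (P.map (ξ 0)) ξ γ (range n) A ω) atTop (𝓝 0)} with hT
  have hTm : MeasurableSet[limsup (fun k => MeasurableSpace.comap (ξ k) inferInstance) atTop]
      T := by
    rw [limsup_eq_iInf_iSup_of_nat, MeasurableSpace.measurableSet_iInf]
    intro m
    have e : T = {ω | Tendsto (fun n => Tm (P.map (ξ 0)) ξ γ (Ico m n) A ω) atTop (𝓝 0)} :=
      Set.ext fun ω => Tm_block hl hγ A ω m
    rw [e]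
    exact measurableSet_tendsto _ fun n => hl.measurable_Tm _ γ _ A fun k hk =>
      measurable_of_mem_block (T := Set.Ici m) (mem_Ico.1 hk).1
  rcases measure_zero_or_one_of_measurableSet_limsup_atTop (fun k => (h.meas k).comap_le) h.ind
    hTm with h0 | h1
  · exact measure_eq_zero_iff_ae_notMem.1 h0
  · refine absurd ?_ hn
    exact (mem_ae_iff_prob_eq_one (measurableSet_tendsto _ fun n =>
      hl.measurable_Tm mΩ γ _ A fun k _ => h.meas k)).2 h1

theorem norm_quarter : ‖1 - et (1 / 4) * et (1 / 4)‖ = 2 := by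
  rw [et_eq, ← Complex.exp_add, show (2 * Real.pi * ((1 / 4 : ℝ) : ℂ) * Complex.I +
    2 * Real.pi * ((1 / 4 : ℝ) : ℂ) * Complex.I) = Real.pi * Complex.I by push_cast; ring,
    Complex.exp_pi_mul_I]
  norm_num

theorem mem_Sg_quarter : 8 ∈ Sg 1 5 := by
  refine mem_Sg.2 ⟨by norm_num, by norm_num, fun t ht t' ht' => far_of_near (s := 1 / 4) ?_⟩
  rw [norm_quarter]
  simp only [Jg, hh, Set.mem_Ioo] at ht ht'
  norm_num at ht ht'
  have h7 : |t - 1 / 4| ≤ 1 / 16 := by rw [abs_le]; constructor <;> linarith [ht.1, ht.2]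
  have h8 : |t' - 1 / 4| ≤ 1 / 16 := by rw [abs_le]; constructor <;> linarith [ht'.1, ht'.2]
  linarith

/-- a closed arc away from `± 1` -/
def Fq : Set UnitAddCircle := closedBall ((1 / 4 : ℝ) : UnitAddCircle) (1 / 32)

theorem Fq_subset : Fq ⊆ Kf (1 / 4) := fun θ hθ => by
  obtain ⟨t, rfl, ht⟩ := exists_coe_near θ (1 / 4)
  have h1 : |t - 1 / 4| ≤ 1 / 32 := ht ▸ mem_closedBall.1 hθ
  have h2 : 1 ≤ ‖1 - et t * et t‖ := far_of_near (s := 1 / 4) (by rw [norm_quarter]; linarith)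
  change 2 * (1 / 4 : ℝ) < ‖1 - et t * et t‖
  linarith

variable {γ : ℝ} {M : ℕ → Ω → FiniteMeasure UnitAddCircle} {L : Ω → FiniteMeasure UnitAddCircle}

theorem IsCoeff.ae_nondeg (h : IsCoeff P ξ) (hγ : 0 ≤ γ) (hγ2 : γ ^ 2 < 2)
    (hi : Integrable (fun x : ℂ => ‖x‖ ^ 2 * Real.posLog ‖x‖) (P.map (ξ 0)))
    (hM : ∀ n ω, (M n ω : Measure UnitAddCircle) = chaos P ξ γ n ω)
    (hL : ∀ᵐ ω ∂P, Tendsto (fun n => M n ω) atTop (𝓝 (L ω))) :
    ∀ᵐ ω ∂P, (L ω : Measure UnitAddCircle) Fq ≠ 0 := by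
  have := h.prob
  have hl := h.law
  obtain ⟨B, hB⟩ := hl.DS_bdd hi
  have hn := not_ae_tendsto_zero (P := P) (fun n => Tm (P.map (ξ 0)) ξ γ (range n) Fq)
    (fun n => hl.measurable_Tm mΩ γ _ _ fun k _ => h.meas k)
    (c := ENNReal.ofReal (Real.exp (-(γ ^ 2 * B) / 2 - 8 * cst γ)) * volume Fq)
    (mul_ne_zero (by simpa using Real.exp_pos _) (measure_closedBall_pos _ _ (by norm_num)).ne')
    ENNReal.ofReal_ne_top (fun n => by
      rw [h.lint_Tm, ← setLIntegral_const]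
      refine lintegral_mono fun θ => le_trans (ENNReal.ofReal_le_ofReal (Real.exp_le_exp.2 ?_))
        (h.lint_Df_bounds hγ n (norm_ez θ)).1
      have h1 := hl.sum_Tl_le hγ n (norm_ez θ)
      have h2 := mul_le_mul_of_nonneg_left (hB n) (sq_nonneg γ)
      linarith) (by
      filter_upwards [eventually_ge_atTop (2 ^ 5)] with n hn
      refine le_trans (lintegral_mono fun ω => ENNReal.rpow_le_rpow ?_ (by norm_num))
        (h.grid_moment two_pos le_rfl hγ hγ2 one_pos mem_Sg_quarter hn)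
      refine (lintegral_mono_set (closedBall_subset_ball
        (show (1 / 32 : ℝ) < 1 / 16 by norm_num))).trans ((lint_ball_le _ _ _).trans (le_of_eq ?_))
      rw [Zf, Jg, hh]
      norm_num
      rfl)
  filter_upwards [h.zero_one hγ Fq hn, h.ae_compare hγ, hL] with ω hω ⟨c, hc, hcmp⟩ hlim h0
  apply hω
  have h1 := FiniteMeasure.limsup_measure_closed_le_of_tendsto hlim (F := Fq) isClosed_closedBall
  rw [h0] at h1
  have h2 := ENNReal.Tendsto.const_mul (tendsto_of_le_liminf_of_limsup_le bot_le h1) (Or.inr hc)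
  rw [show c * (⊥ : ℝ≥0∞) = 0 from mul_zero c] at h2
  refine tendsto_of_tendsto_of_tendsto_of_le_of_le' tendsto_const_nhds h2
    (Eventually.of_forall fun _ => bot_le) ?_
  filter_upwards [hcmp] with n hn
  rw [hM]
  exact (hn _ measurableSet_closedBall).2

theorem IsCoeff.ae_mdim_le (h : IsCoeff P ξ) (hγ : 0 ≤ γ) (hγ2 : γ ^ 2 < 2)
    (hM : ∀ n ω, (M n ω : Measure UnitAddCircle) = chaos P ξ γ n ω)
    (hL : ∀ᵐ ω ∂P, Tendsto (fun n => M n ω) atTop (𝓝 (L ω))) :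
    ∀ᵐ ω ∂P, mdim (L ω) ≤ ENNReal.ofReal (1 - γ ^ 2 / 4) := by
  have h1 : ∀ l r : ℕ, ∀ᵐ ω ∂P, ∑' j, msum (L ω : Measure UnitAddCircle) cg (Sg (1 / ((r : ℝ) + 2)))
      (1 - 1 / ((l : ℝ) + 2)) (1 - γ ^ 2 / 4 + 1 / ((l : ℝ) + 2)) j ≠ ∞ := fun l r => by
    have := eps_le l
    have p : 0 < 1 / ((l : ℝ) + 2) := by positivity
    refine h.ae_msum (by linarith) (by linarith) hγ hγ2 (by positivity) ?_ hM hL
    generalize 1 / ((l : ℝ) + 2) = ε at p
    nlinarith [mul_pos (mul_pos p p) (show 0 < 1 - γ ^ 2 / 4 by linarith)]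
  filter_upwards [ae_all_iff.2 fun l => ae_all_iff.2 (h1 l)] with ω hω
  have ht := ENNReal.tendsto_ofReal (eps_tendsto.const_add (1 - γ ^ 2 / 4))
  rw [add_zero] at ht
  refine ge_of_tendsto' ht fun l => ?_
  have := eps_le l
  have p : 0 < 1 / ((l : ℝ) + 2) := by positivity
  have hβ : 0 ≤ 1 - γ ^ 2 / 4 + 1 / ((l : ℝ) + 2) := by linarith
  choose A hA hA0 hAd using fun r : ℕ => dim_upper (L ω : Measure UnitAddCircle) cg _ _
    (q := 1 - 1 / ((l : ℝ) + 2))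
    (by linarith) (by linarith) (1 - γ ^ 2 / 4 + 1 / ((l : ℝ) + 2)).toNNReal
    (cover_Kf (show 0 < 1 / ((r : ℝ) + 2) by positivity))
    (by rw [Real.coe_toNNReal _ hβ]; exact hω l r)
  refine (mdim_le ((MeasurableSet.iUnion hA).union finite_exc.measurableSet) ?_).trans ?_
  · refine measure_mono_null (fun θ hθ => ?_) (measure_iUnion_null hA0)
    rw [Set.compl_union, Set.compl_iUnion] at hθ
    have h2 : 0 < ‖1 - ez θ * ez θ‖ / 2 := by
      have : 0 < ‖1 - ez θ * ez θ‖ := norm_pos_iff.2 hθ.2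
      positivity
    obtain ⟨r, hr⟩ := (eps_tendsto.eventually_lt_const h2).exists
    refine Set.mem_iUnion.2 ⟨r, ?_, Set.mem_iInter.1 hθ.1 r⟩
    change 2 * (1 / ((r : ℝ) + 2)) < _
    linarith
  · rw [dimH_union, finite_exc.dimH_zero, dimH_iUnion]
    exact max_le (iSup_le hAd) bot_le

theorem IsCoeff.ae_le_mdim (h : IsCoeff P ξ) (hγ : 0 ≤ γ) (hγ2 : γ ^ 2 < 2)
    (hi : Integrable (fun x : ℂ => ‖x‖ ^ 2 * Real.posLog ‖x‖) (P.map (ξ 0)))
    (hM : ∀ n ω, (M n ω : Measure UnitAddCircle) = chaos P ξ γ n ω)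
    (hL : ∀ᵐ ω ∂P, Tendsto (fun n => M n ω) atTop (𝓝 (L ω))) :
    ∀ᵐ ω ∂P, ENNReal.ofReal (1 - γ ^ 2 / 4) ≤ mdim (L ω) := by
  have h1 : ∀ l : ℕ, ∀ᵐ ω ∂P, ∑' j, msum (L ω : Measure UnitAddCircle) cg (Sg (1 / 4))
      (1 + 1 / ((l : ℝ) + 2)) (1 - γ ^ 2 / 4 - 1 / ((l : ℝ) + 2)) j ≠ ∞ := fun l => by
    have := eps_le l
    have p : 0 < 1 / ((l : ℝ) + 2) := by positivity
    refine h.ae_msum (by linarith) (by linarith) hγ hγ2 (by positivity) ?_ hM hL
    generalize 1 / ((l : ℝ) + 2) = ε at p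
    nlinarith [mul_pos (mul_pos p p) (show 0 < 1 - γ ^ 2 / 4 by linarith)]
  filter_upwards [ae_all_iff.2 h1, h.ae_nondeg hγ hγ2 hi hM hL] with ω hω h0
  have ht := ENNReal.tendsto_ofReal (eps_tendsto.const_sub (1 - γ ^ 2 / 4))
  rw [sub_zero] at ht
  refine le_of_tendsto' ht fun l => le_iInf fun A => le_iInf fun _ => le_iInf fun hA => ?_
  have := eps_le l
  have p : 0 < 1 / ((l : ℝ) + 2) := by positivity
  have hβ : 0 < 1 - γ ^ 2 / 4 - 1 / ((l : ℝ) + 2) := by linarith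
  exact dim_lower (L ω : Measure UnitAddCircle) cg _ (isOpen_Kf (1 / 4)).measurableSet
    (fun hK => h0 (measure_mono_null Fq_subset hK)) (q := 1 + 1 / ((l : ℝ) + 2))
    (by linarith) (Real.toNNReal_pos.2 hβ)
    (cover_Kf (by norm_num)) (by rw [Real.coe_toNNReal _ hβ.le]; exact hω l) hA

theorem IsCoeff.ae_eq_zero (h : IsCoeff P ξ) (hγ : 0 < γ)
    (hi : ¬ Integrable (fun x : ℂ => ‖x‖ ^ 2 * Real.posLog ‖x‖) (P.map (ξ 0)))
    (hM : ∀ n ω, (M n ω : Measure UnitAddCircle) = chaos P ξ γ n ω)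
    (hL : ∀ᵐ ω ∂P, Tendsto (fun n => M n ω) atTop (𝓝 (L ω))) :
    ∀ᵐ ω ∂P, L ω = 0 := by
  have := h.prob
  set ν := P.map (ξ 0) with hν
  have hl : Law ν := h.law
  have : NullSingletonClass (volume : Measure UnitAddCircle) := ⟨fun x => by
    rw [← closedBall_zero, AddCircle.volume_closedBall]; simp⟩
  have hTm : ∀ n, Measurable (Tm ν ξ γ (range n) Set.univ) := fun n =>
    hl.measurable_Tm mΩ γ _ _ fun k _ => h.meas k
  have hd := tendsto_lintegral_of_dominated_convergence (μ := (volume : Measure UnitAddCircle))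
    (F := fun n θ => ∫⁻ ω, ENNReal.ofReal (Df ν ξ γ (range n) ω (ez θ)) ∂P) (f := fun _ => 0)
    (fun _ => ENNReal.ofReal (Real.exp (8 * cst γ)))
    (fun n => (hl.measurable_Df_ez mΩ γ _ fun k _ => h.meas k).lintegral_prod_left')
    (fun n => ae_of_all _ fun θ => (h.lint_Df_bounds hγ.le n (norm_ez θ)).2.trans
      (ENNReal.ofReal_le_ofReal (Real.exp_le_exp.2 (by
        have : 0 ≤ ∑ k ∈ range n, Tl ν k (bb γ k (ez θ)) :=
          Finset.sum_nonneg fun k _ => Tl_nonneg _ _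
        linarith))))
    (by simp) (by
      filter_upwards [measure_eq_zero_iff_ae_notMem.1 (finite_exc.measure_zero volume)] with θ hθ
      have h1 : Tendsto (fun n => -(γ ^ 2 / 4) * DS ν n +
          (γ ^ 2 / ‖1 - ez θ * ez θ‖ / 2 + 8 * cst γ)) atTop atBot :=
        tendsto_atBot_add_const_right _ _ ((hl.DS_tendsto hi).const_mul_atTop_of_neg
          (by have := pow_pos hγ 2; linarith))
      have h2 := ENNReal.tendsto_ofReal (Real.tendsto_exp_atBot.comp h1)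
      rw [ENNReal.ofReal_zero] at h2
      refine tendsto_of_tendsto_of_tendsto_of_le_of_le tendsto_const_nhds h2 (fun _ => bot_le)
        fun n => (h.lint_Df_bounds hγ.le n (norm_ez θ)).2.trans
          (ENNReal.ofReal_le_ofReal (Real.exp_le_exp.2 ?_))
      linarith [hl.le_sum_Tl hγ.le n (norm_ez θ) hθ])
  rw [lintegral_zero] at hd
  have h0 : ∫⁻ ω, liminf (fun n => Tm ν ξ γ (range n) Set.univ ω) atTop ∂P = 0 := by
    refine le_antisymm ((lintegral_liminf_le hTm).trans (le_of_eq ?_)) bot_le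
    rw [← hd.liminf_eq]
    congr 1
    ext n
    rw [h.lint_Tm, Measure.restrict_univ]
  filter_upwards [(lintegral_eq_zero_iff (Measurable.liminf hTm)).1 h0, h.ae_compare hγ.le, hL]
    with ω hω ⟨c, hc, hcmp⟩ hlim
  have m2 : Monotone fun x : ℝ≥0∞ => c * x := fun _ _ hxy => mul_le_mul_right hxy _
  have e2 := m2.map_liminf_of_continuousAt (F := atTop)
    (fun n => Tm ν ξ γ (range n) Set.univ ω) (ENNReal.continuous_const_mul hc).continuousAt
  rw [hω, Pi.zero_apply, mul_zero] at e2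
  refine FiniteMeasure.toMeasure_injective (Measure.measure_univ_eq_zero.1 (le_antisymm ?_ bot_le))
  refine (le_liminf_open hlim isOpen_univ).trans (le_trans (liminf_le_liminf ?_) e2.ge)
  filter_upwards [hcmp] with n hn
  rw [hM]
  exact (hn _ MeasurableSet.univ).1

end Pool.Agent.P.MP_ab74d4_pr
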