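import Pool.Agent.P.MP_ab74d4_pr.Defs2
import Pool.Agent.P.MP_ab74d4_pr.Main

/-!
The dichotomy, the Gaussian case and a heavy-tailed example.
-/

namespace Pool.Agent.P.MP_ab74d4_pr

open MeasureTheory ProbabilityTheory Filter Topology
open scoped ENNReal NNReal

section

variable {Ω : Type*} [mΩ : MeasurableSpace Ω] {P : Measure Ω} {ξ : ℕ → Ω → ℂ}

theorem IsCoeff.logMoment_iff (h : IsCoeff P ξ) : LogMoment P ξ ↔
    Integrable (fun x : ℂ => ‖x‖ ^ 2 * Real.posLog ‖x‖) (P.map (ξ 0)) :=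
  (integrable_map_measure (by fun_prop : Continuous fun x : ℂ =>
    ‖x‖ ^ 2 * Real.posLog ‖x‖).aestronglyMeasurable (h.meas 0).aemeasurable).symm

theorem IsCoeff.logMoment_of_memLp (h : IsCoeff P ξ) (h3 : MemLp (ξ 0) 3 P) : LogMoment P ξ := by
  have hm := h.meas 0
  refine Integrable.mono' (h3.integrable_norm_pow (p := 3) (by norm_num))
    (((by fun_prop : Continuous fun x : ℂ => ‖x‖ ^ 2 * Real.posLog ‖x‖).measurable.comp
      hm).aestronglyMeasurable) (ae_of_all _ fun ω => ?_)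
  have h1 : Real.posLog ‖ξ 0 ω‖ ≤ ‖ξ 0 ω‖ :=
    max_le (norm_nonneg _) (Real.log_le_self (norm_nonneg _))
  rw [Real.norm_eq_abs, abs_of_nonneg (mul_nonneg (by positivity) Real.posLog_nonneg), pow_succ _ 2]
  exact mul_le_mul_of_nonneg_left h1 (by positivity)

theorem IsCoeff.logMoment_of_gaussian (h : IsCoeff P ξ) (hG : IsGaussian (P.map (ξ 0))) :
    LogMoment P ξ :=
  h.logMoment_of_memLp ((memLp_map_measure_iff (by fun_prop) (h.meas 0).aemeasurable).1
    (IsGaussian.memLp_id (P.map (ξ 0)) 3 (by simp)))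

theorem IsCoeff.dichotomy (h : IsCoeff P ξ) {γ : ℝ} (hγ : 0 < γ) (hγ2 : γ ^ 2 < 2)
    {L : Ω → FiniteMeasure UnitAddCircle} (hL : IsLimit P ξ γ L) :
    (LogMoment P ξ → ∀ᵐ ω ∂P, mdim (L ω) = ENNReal.ofReal (1 - γ ^ 2 / 4)) ∧
    (¬ LogMoment P ξ → ∀ᵐ ω ∂P, L ω = 0 ∧ mdim (L ω) = 0) := by
  obtain ⟨M, hM, hL⟩ := hL
  rw [h.logMoment_iff]
  refine ⟨fun hi => ?_, fun hi => ?_⟩
  · filter_upwards [h.ae_mdim_le hγ.le hγ2 hM hL, h.ae_le_mdim hγ.le hγ2 hi hM hL] with ω h1 h2
    exact le_antisymm h1 h2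
  · filter_upwards [h.ae_eq_zero hγ hi hM hL] with ω h1
    exact ⟨h1, by rw [h1]; exact mdim_zero⟩

end

theorem iid_mp (ν : Measure ℝ) [IsProbabilityMeasure ν] (k : ℕ) :
    MeasurePreserving (fun ω : ℕ → ℝ => ω k) (iid ν) ν :=
  measurePreserving_eval_infinitePi (fun _ : ℕ => ν) k

theorem isCoeff_iid (ν : Measure ℝ) [IsProbabilityMeasure ν] (h2 : MemLp id 2 ν)
    (h0 : ∫ x, x ∂ν = 0) (h1 : ∫ x, x ^ 2 ∂ν = 1) : IsCoeff (iid ν) coord := by
  have hm : ∀ k, Measurable (coord k) := fun k => by unfold coord; fun_prop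
  have hmap : ∀ k, (iid ν).map (coord k) = ν.map ((↑) : ℝ → ℂ) := fun k => by
    rw [← (iid_mp ν k).map_eq, Measure.map_map (by fun_prop) (by fun_prop), (iid_mp ν k).map_eq]
    rfl
  have hint : ∀ f : ℝ → ℝ, Continuous f → ∫ ω, f (ω 0) ∂(iid ν) = ∫ x, f x ∂ν := fun f hf => by
    conv_rhs => rw [← (iid_mp ν 0).map_eq]
    rw [integral_map (iid_mp ν 0).measurable.aemeasurable hf.aestronglyMeasurable]
  refine ⟨by unfold iid; infer_instance, hm,
    iIndepFun_infinitePi (X := fun (_ : ℕ) (x : ℝ) => (x : ℂ)) (by fun_prop),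
    fun k => ⟨(hm k).aemeasurable, (hm 0).aemeasurable, by rw [hmap, hmap]⟩,
    (h2.comp_measurePreserving (iid_mp ν 0)).ofReal (K := ℂ), ?_, ?_⟩
  · unfold coord
    rw [integral_complex_ofReal, hint (fun x => x) continuous_id, h0]; simp
  · simp only [coord, Complex.norm_real, Real.norm_eq_abs, sq_abs]
    rw [hint (fun x => x ^ 2) (by fun_prop), h1]

theorem isCoeff_gauss : IsCoeff (iid (gaussianReal 0 1)) coord := by
  refine isCoeff_iid _ (memLp_id_gaussianReal' 2 (by simp)) (by simp) ?_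
  have := variance_of_integral_eq_zero (X := fun x : ℝ => x) (μ := gaussianReal 0 1)
    (by fun_prop) (by simp)
  rw [← this, variance_fun_id_gaussianReal]; simp

theorem logMoment_gauss : LogMoment (iid (gaussianReal 0 1)) coord :=
  isCoeff_gauss.logMoment_of_memLp
    (((memLp_id_gaussianReal' 3 (by simp)).comp_measurePreserving (iid_mp _ 0)).ofReal (K := ℂ))

/-- the atoms of the heavy-tailed law -/
noncomputable def atm (j : ℕ) : ℝ := Real.exp (2 ^ j)

/-- the weights of the heavy-tailed law -/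
noncomputable def wgt (j : ℕ) : ℝ≥0∞ := ENNReal.ofReal (1 / 2 / 2 / 2 ^ j / atm j ^ 2)

/-- the heavy-tailed law -/
noncomputable def heavy : Measure ℝ :=
  Measure.sum (fun j => wgt j • (Measure.dirac (atm j) + Measure.dirac (-atm j))) +
    (1 - ∑' j, wgt j * 2) • Measure.dirac 0

theorem one_le_atm (j : ℕ) : 1 ≤ atm j := Real.one_le_exp (by positivity)

theorem lint_heavy (f : ℝ → ℝ≥0∞) : ∫⁻ x, f x ∂heavy =
    ∑' j, wgt j * (f (atm j) + f (-atm j)) + (1 - ∑' j, wgt j * 2) * f 0 := by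
  simp [heavy, lintegral_sum_measure, mul_add]

theorem tsum_half : ∑' j : ℕ, ENNReal.ofReal (1 / 2 / 2 ^ j) = 1 := by
  rw [← ENNReal.ofReal_tsum_of_nonneg (fun j => by positivity) (hasSum_geometric_two' 1).summable,
    (hasSum_geometric_two' 1).tsum_eq, ENNReal.ofReal_one]

theorem wgt_mul (j : ℕ) {a : ℝ} (ha : 0 ≤ a) :
    wgt j * (ENNReal.ofReal (atm j ^ 2 * a) + ENNReal.ofReal (atm j ^ 2 * a)) =
      ENNReal.ofReal (1 / 2 / 2 ^ j * a) := by
  have := one_le_atm j
  rw [wgt, ← ENNReal.ofReal_add (by positivity) (by positivity),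
    ← ENNReal.ofReal_mul (by positivity)]
  congr 1; field_simp; ring

instance : IsProbabilityMeasure heavy := ⟨by
  rw [← lintegral_one, lint_heavy, mul_one, one_add_one_eq_two]
  refine add_tsub_cancel_of_le (le_trans (ENNReal.tsum_le_tsum fun j => ?_) tsum_half.le)
  have := wgt_mul j zero_le_one
  rw [mul_one, mul_one] at this
  have h1 : 1 ≤ ENNReal.ofReal (atm j ^ 2) :=
    ENNReal.one_le_ofReal.2 (one_le_pow₀ (one_le_atm j))
  rw [← this, ← one_add_one_eq_two]
  gcongr⟩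

theorem heavy_sq : ∫⁻ x, ENNReal.ofReal (x ^ 2) ∂heavy = 1 := by
  rw [lint_heavy, ← tsum_half]
  simp only [neg_sq, ne_eq, OfNat.ofNat_ne_zero, not_false_eq_true, zero_pow,
    ENNReal.ofReal_zero, mul_zero, add_zero]
  exact tsum_congr fun j => by simpa only [mul_one] using wgt_mul j zero_le_one

theorem isCoeff_heavy : IsCoeff (iid heavy) coord := by
  have hi : Integrable (fun x : ℝ => x ^ 2) heavy :=
    ⟨by fun_prop, by
      rw [hasFiniteIntegral_iff_ofReal (ae_of_all _ fun x => sq_nonneg x), heavy_sq]; simp⟩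
  refine isCoeff_iid _ ((memLp_two_iff_integrable_sq (by fun_prop)).2 hi) ?_ ?_
  · have hs : heavy.map (fun x => -x) = heavy := by
      refine Measure.ext_of_lintegral _ fun f hf => ?_
      rw [lintegral_map hf measurable_neg, lint_heavy, lint_heavy]
      simp only [neg_neg, neg_zero, add_comm]
    have h1 := integral_map (μ := heavy) (φ := fun x => -x) (f := fun x : ℝ => x) (by fun_prop)
      (by fun_prop)
    rw [hs, integral_neg] at h1
    linarith
  · rw [integral_eq_lintegral_of_nonneg_ae (ae_of_all _ fun x => sq_nonneg x) (by fun_prop),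
      heavy_sq]; simp

theorem not_logMoment_heavy : ¬ LogMoment (iid heavy) coord := fun h => by
  have hc : Continuous fun x : ℝ => ‖(x : ℂ)‖ ^ 2 * Real.posLog ‖(x : ℂ)‖ := by fun_prop
  have h1 := ((iid_mp heavy 0).integrable_comp hc.aestronglyMeasurable).1 h
  have h2 := h1.2
  rw [hasFiniteIntegral_iff_ofReal (ae_of_all _ fun x =>
    mul_nonneg (by positivity) Real.posLog_nonneg), lint_heavy] at h2
  refine (le_self_add.trans_lt h2).ne ?_
  rw [← ENNReal.tsum_const_eq_top_of_ne_zero (α := ℕ) (c := ENNReal.ofReal (1 / 2)) (by simp)]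
  refine tsum_congr fun j => ?_
  have h3 := one_le_atm j
  have h4 : Real.posLog (atm j) = 2 ^ j := by
    rw [Real.posLog_eq_log (by rw [abs_of_nonneg (by linarith)]; exact h3), atm, Real.log_exp]
  simp only [Complex.norm_real, Real.norm_eq_abs, abs_neg, abs_of_nonneg (zero_le_one.trans h3), h4]
  rw [wgt_mul j (by positivity)]
  congr 1; field_simp

end Pool.Agent.P.MP_ab74d4_pr
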