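import Pool.Agent.P.MP_ab74d4_pr.Sums

/-!
The tail second moments and the logarithmic moment condition.
-/

namespace Pool.Agent.P.MP_ab74d4_pr

open MeasureTheory ProbabilityTheory Filter Topology Finset
open scoped ENNReal

variable {ν : Measure ℂ}

/-- tail second moment -/
noncomputable def dl (ν : Measure ℂ) (k : ℕ) : ℝ := ∫ x, ‖tl k x‖ ^ 2 ∂ν

/-- tail pseudo second moment -/
noncomputable def tk (ν : Measure ℂ) (k : ℕ) : ℂ := ∫ x, tl k x ^ 2 ∂ν

theorem Law.int_tl_norm (h : Law ν) (k : ℕ) : Integrable (fun x => ‖tl k x‖ ^ 2) ν :=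
  h.int_of_le_sq (by fun_prop) 1 fun x => by
    rw [abs_of_nonneg (by positivity), one_mul]
    exact pow_le_pow_left₀ (norm_nonneg _) (norm_tl_le' k x) 2

theorem Law.int_tl_sq (h : Law ν) (k : ℕ) : Integrable (fun x => tl k x ^ 2) ν :=
  Integrable.mono' (h.int_tl_norm k) (by fun_prop : Measurable fun x => tl k x ^ 2).aestronglyMeasurable
    (ae_of_all _ fun x => by simp)

theorem dl_nonneg (k : ℕ) : 0 ≤ dl ν k := integral_nonneg fun _ => by positivity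

theorem Law.dl_le_one (h : Law ν) (k : ℕ) : dl ν k ≤ 1 := by
  rw [← h.var]
  exact integral_mono (h.int_tl_norm k) h.sq fun x =>
    pow_le_pow_left₀ (norm_nonneg _) (norm_tl_le' k x) 2

theorem norm_tk_le (k : ℕ) : ‖tk ν k‖ ≤ dl ν k := by
  refine (norm_integral_le_integral_norm _).trans ?_
  simp [dl]

theorem Law.norm_tk_sub (h : Law ν) (k : ℕ) :
    ‖tk ν (k + 1) - tk ν k‖ ≤ dl ν k - dl ν (k + 1) := by
  rw [tk, tk, dl, dl, ← integral_sub (h.int_tl_sq _) (h.int_tl_sq _),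
    ← integral_sub (h.int_tl_norm _) (h.int_tl_norm _)]
  refine (norm_integral_le_integral_norm _).trans (integral_mono
    ((h.int_tl_sq _).sub (h.int_tl_sq _)).norm ((h.int_tl_norm _).sub (h.int_tl_norm _))
    fun x => ?_)
  simp only [tl]
  push_cast
  split_ifs with h1 h2 h2
  · simp
  · simp
  · exact absurd (h2.trans (by linarith)) h1
  · simp

theorem Law.Tl_eq (h : Law ν) (k : ℕ) (a : ℂ) :
    Tl ν k a = dl ν k * (‖a‖ ^ 2 / 2) + (tk ν k * a ^ 2).re / 2 := by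
  have e : ∀ x : ℂ, (tl k x * a).re ^ 2 =
      ‖tl k x‖ ^ 2 * (‖a‖ ^ 2 / 2) + (tl k x ^ 2 * a ^ 2).re / 2 := fun x => by
    rw [re_sq_eq, norm_mul, mul_pow, mul_pow]; ring
  have i1 : Integrable (fun x : ℂ => (tl k x ^ 2 * a ^ 2).re) ν := ((h.int_tl_sq k).mul_const _).re
  have := integral_re (𝕜 := ℂ) ((h.int_tl_sq k).mul_const (a ^ 2))
  simp only [RCLike.re_to_complex] at this
  unfold Tl
  simp_rw [e]
  rw [integral_add ((h.int_tl_norm k).mul_const _) (i1.div_const 2), integral_mul_const,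
    integral_div, this, integral_mul_const, tk, dl]

/-- the weighted tail sums -/
noncomputable def DS (ν : Measure ℂ) (n : ℕ) : ℝ := ∑ k ∈ range n, dl ν k / ((k : ℝ) + 1)

theorem Law.sum_Tl_le (h : Law ν) {γ : ℝ} (hγ : 0 ≤ γ) (n : ℕ) {z : ℂ} (hz : ‖z‖ = 1) :
    ∑ k ∈ range n, Tl ν k (bb γ k z) ≤ γ ^ 2 * DS ν n := by
  rw [DS, Finset.mul_sum]
  refine Finset.sum_le_sum fun k _ => ?_
  rw [h.Tl_eq]
  have h1 := (le_abs_self _).trans (abs_re_mul_le (tk ν k) (bb γ k z ^ 2))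
  have h2 := mul_le_mul_of_nonneg_right (norm_tk_le (ν := ν) k) (norm_nonneg (bb γ k z ^ 2))
  rw [norm_pow] at h1 h2
  rw [norm_bb hγ k hz, div_pow, sq1_sq] at h1 h2 ⊢
  have e : γ ^ 2 * (dl ν k / ((k : ℝ) + 1)) = dl ν k * (γ ^ 2 / ((k : ℝ) + 1)) := by ring
  linarith

theorem Law.le_sum_Tl (h : Law ν) {γ : ℝ} (hγ : 0 ≤ γ) (n : ℕ) {z : ℂ} (hz : ‖z‖ = 1)
    (hz1 : 1 - z * z ≠ 0) :
    γ ^ 2 / 2 * DS ν n - γ ^ 2 / ‖1 - z * z‖ ≤ ∑ k ∈ range n, Tl ν k (bb γ k z) := by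
  have hd : 0 < ‖1 - z * z‖ := norm_pos_iff.2 hz1
  have ha := abel_le (fun k => ((1 / ((k : ℝ) + 1) : ℝ) : ℂ) * tk ν k)
    (fun k => 1 / ((k : ℝ) + 1) * dl ν k)
    (fun k => by
      rw [norm_mul, Complex.norm_real, Real.norm_eq_abs, abs_of_nonneg (by positivity)]
      exact mul_le_mul_of_nonneg_left (norm_tk_le k) (by positivity))
    (fun k => by
      have e : ((1 / (((k + 1 : ℕ) : ℝ) + 1) : ℝ) : ℂ) * tk ν (k + 1) -
          ((1 / ((k : ℝ) + 1) : ℝ) : ℂ) * tk ν k =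
          ((1 / ((k : ℝ) + 1) : ℝ) : ℂ) * (tk ν (k + 1) - tk ν k) -
          ((1 / ((k : ℝ) + 1) - 1 / (((k + 1 : ℕ) : ℝ) + 1) : ℝ) : ℂ) * tk ν (k + 1) := by
        push_cast; ring
      have p : 0 ≤ 1 / ((k : ℝ) + 1) - 1 / (((k + 1 : ℕ) : ℝ) + 1) := by
        rw [sub_nonneg]
        exact one_div_le_one_div_of_le (by positivity) (by push_cast; linarith)
      rw [e]
      refine (norm_sub_le _ _).trans ?_
      rw [norm_mul, norm_mul, Complex.norm_real, Complex.norm_real, Real.norm_eq_abs,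
        Real.norm_eq_abs, abs_of_nonneg (by positivity), abs_of_nonneg p]
      have h1 := mul_le_mul_of_nonneg_left (h.norm_tk_sub k)
        (show 0 ≤ 1 / ((k : ℝ) + 1) by positivity)
      have h2 := mul_le_mul_of_nonneg_left (norm_tk_le (ν := ν) (k + 1)) p
      linarith)
    (u := z * z) (by rw [norm_mul, hz, one_mul]) 0 n
  set W := ∑ k ∈ Ico 0 n, ((1 / ((k : ℝ) + 1) : ℝ) : ℂ) * tk ν k * (z * z) ^ (k + 1) with hW
  have hW2 : ‖W‖ ≤ 2 / ‖1 - z * z‖ := by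
    rw [le_div_iff₀ hd]
    simp only [Nat.cast_zero, zero_add, div_one, one_mul] at ha
    linarith [h.dl_le_one 0]
  have e : ∑ k ∈ range n, Tl ν k (bb γ k z) = γ ^ 2 / 2 * DS ν n + γ ^ 2 / 2 * W.re := by
    rw [DS, hW, Complex.re_sum, ← range_eq_Ico, Finset.mul_sum, Finset.mul_sum,
      ← Finset.sum_add_distrib]
    refine Finset.sum_congr rfl fun k _ => ?_
    rw [h.Tl_eq, norm_bb hγ k hz, div_pow, sq1_sq, pow_two (bb γ k z), bb_mul, mul_left_comm,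
      Complex.re_ofReal_mul, ← mul_assoc (tk ν k), mul_comm (tk ν k)]
    ring
  have h3 := (abs_le.1 ((Complex.abs_re_le_norm W).trans hW2)).1
  have h4 := mul_le_mul_of_nonneg_left h3 (show 0 ≤ γ ^ 2 / 2 by positivity)
  have e2 : γ ^ 2 / 2 * -(2 / ‖1 - z * z‖) = -(γ ^ 2 / ‖1 - z * z‖) := by ring
  linarith

/-- the integrand of `DS` -/
noncomputable def ph (n : ℕ) (x : ℂ) : ℝ := ∑ k ∈ range n, ‖tl k x‖ ^ 2 / ((k : ℝ) + 1)

theorem ph_nonneg (n : ℕ) (x : ℂ) : 0 ≤ ph n x := Finset.sum_nonneg fun _ _ => by positivity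

theorem Law.int_ph (h : Law ν) (n : ℕ) : Integrable (ph n) ν :=
  integrable_finsetSum _ fun k _ => (h.int_tl_norm k).div_const _

theorem Law.DS_eq (h : Law ν) (n : ℕ) : DS ν n = ∫ x, ph n x ∂ν := by
  unfold ph DS dl
  rw [integral_finsetSum _ fun k _ => (h.int_tl_norm k).div_const _]
  simp only [integral_div]

theorem ph_le (n : ℕ) (x : ℂ) : ph n x ≤ ‖x‖ ^ 2 + 2 * (‖x‖ ^ 2 * Real.posLog ‖x‖) := by
  classical
  set M := ⌊‖x‖ ^ 2⌋₊ with hM
  have h1 : ph n x ≤ ‖x‖ ^ 2 * Hs 0 M := by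
    rw [ph, Hs, Finset.mul_sum, ← Finset.sum_filter_add_sum_filter_not (range n) (· < M)]
    have z : ∑ k ∈ (range n).filter (fun k => ¬ k < M), ‖tl k x‖ ^ 2 / ((k : ℝ) + 1) = 0 := by
      refine Finset.sum_eq_zero fun k hk => ?_
      have h2 : (M : ℝ) ≤ k := by exact_mod_cast not_lt.1 (Finset.mem_filter.1 hk).2
      have h3 := Nat.lt_floor_add_one (‖x‖ ^ 2)
      rw [tl, if_pos (by linarith)]; simp
    rw [z, add_zero]
    refine le_trans (Finset.sum_le_sum fun k _ => ?_) (Finset.sum_le_sum_of_subset_of_nonneg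
      (fun k hk => mem_Ico.2 ⟨Nat.zero_le _, (Finset.mem_filter.1 hk).2⟩) fun _ _ _ => by positivity)
    rw [mul_one_div]
    gcongr
    exact norm_tl_le' k x
  have h2 : Hs 0 M ≤ 1 + 2 * Real.posLog ‖x‖ := by
    have p := Real.posLog_nonneg (x := ‖x‖)
    rcases Nat.eq_zero_or_pos M with h | h
    · rw [h, Hs]; simp only [Finset.Ico_self, Finset.sum_empty]; linarith
    · refine (Hs_zero_le h).trans ?_
      have h3 : Real.log M ≤ Real.log (‖x‖ ^ 2) :=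
        Real.log_le_log (by exact_mod_cast h) (Nat.floor_le (by positivity))
      rw [Real.log_pow] at h3
      have h4 : Real.log ‖x‖ ≤ Real.posLog ‖x‖ := le_max_right _ _
      push_cast at h3
      linarith
  nlinarith [mul_le_mul_of_nonneg_left h2 (sq_nonneg ‖x‖)]

theorem le_ph (x : ℂ) : ∃ n, ‖x‖ ^ 2 * Real.posLog ‖x‖ ≤ ph n x := by
  rcases le_or_gt ‖x‖ 1 with h | h
  · refine ⟨0, ?_⟩
    rw [(Real.posLog_eq_zero_iff _).2 (by simpa using h)]; simp [ph]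
  have h0 : 1 < ‖x‖ ^ 2 := by nlinarith
  obtain ⟨N, hN⟩ : ∃ N, ⌈‖x‖ ^ 2⌉₊ = N + 1 :=
    ⟨_, (Nat.succ_pred_eq_of_pos (Nat.ceil_pos.2 (by linarith))).symm⟩
  have h1 : ‖x‖ ^ 2 ≤ N + 1 := by
    have := Nat.le_ceil (‖x‖ ^ 2); rw [hN] at this; exact_mod_cast this
  have h2 : (N : ℝ) < ‖x‖ ^ 2 := by
    have := Nat.ceil_lt_add_one (show 0 ≤ ‖x‖ ^ 2 by positivity)
    rw [hN] at this; push_cast at this; linarith
  refine ⟨N, ?_⟩
  have e : ph N x = ‖x‖ ^ 2 * Hs 0 N := by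
    rw [ph, Hs, Finset.mul_sum, range_eq_Ico]
    refine Finset.sum_congr rfl fun k hk => ?_
    have h3 : (k : ℝ) + 1 ≤ N := by exact_mod_cast (mem_Ico.1 hk).2
    rw [tl, if_neg (by linarith), mul_one_div]
  rw [e, Real.posLog_eq_log (by simpa using h.le)]
  refine mul_le_mul_of_nonneg_left (le_trans ?_ (log_le_Hs N)) (by positivity)
  exact Real.log_le_log (by linarith) (by nlinarith)

theorem Law.DS_bdd (h : Law ν) (hi : Integrable (fun x : ℂ => ‖x‖ ^ 2 * Real.posLog ‖x‖) ν) :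
    ∃ B, ∀ n, DS ν n ≤ B :=
  ⟨_, fun n => by
    rw [h.DS_eq]
    exact integral_mono (h.int_ph n) (h.sq.add (hi.const_mul 2)) (ph_le n)⟩

theorem Law.DS_tendsto (h : Law ν)
    (hi : ¬ Integrable (fun x : ℂ => ‖x‖ ^ 2 * Real.posLog ‖x‖) ν) :
    Tendsto (DS ν) atTop atTop := by
  have hmono : Monotone (DS ν) := monotone_nat_of_le_succ fun n => by
    rw [DS, DS, Finset.sum_range_succ]
    exact le_add_of_nonneg_right (div_nonneg (dl_nonneg n) (by positivity))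
  refine tendsto_atTop_atTop_of_monotone hmono fun B => ?_
  by_contra hc
  push Not at hc
  apply hi
  refine ⟨(by fun_prop : Continuous fun x : ℂ =>
    ‖x‖ ^ 2 * Real.posLog ‖x‖).aestronglyMeasurable, ?_⟩
  rw [hasFiniteIntegral_iff_ofReal
    (ae_of_all _ fun x => mul_nonneg (by positivity) Real.posLog_nonneg)]
  have hm : ∀ n, Measurable fun x => ENNReal.ofReal (ph n x) := fun n => by
    unfold ph; fun_prop
  calc ∫⁻ x, ENNReal.ofReal (‖x‖ ^ 2 * Real.posLog ‖x‖) ∂ν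
      ≤ ∫⁻ x, ⨆ n, ENNReal.ofReal (ph n x) ∂ν := lintegral_mono fun x => by
        obtain ⟨n, hn⟩ := le_ph x
        exact le_iSup_of_le n (ENNReal.ofReal_le_ofReal hn)
    _ = ⨆ n, ∫⁻ x, ENNReal.ofReal (ph n x) ∂ν := lintegral_iSup hm (monotone_nat_of_le_succ
        fun n x => ENNReal.ofReal_le_ofReal (by
          rw [ph, ph, Finset.sum_range_succ]; exact le_add_of_nonneg_right (by positivity)))
    _ ≤ ENNReal.ofReal B := iSup_le fun n => by
        rw [← ofReal_integral_eq_lintegral_ofReal (h.int_ph n) (ae_of_all _ (ph_nonneg n)),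
          ← h.DS_eq]
        exact ENNReal.ofReal_le_ofReal (hc n).le
    _ < ∞ := ENNReal.ofReal_lt_top

variable {Ω : Type*} [mΩ : MeasurableSpace Ω] {P : Measure Ω} {ξ : ℕ → Ω → ℂ}

theorem IsCoeff.lint_Df_bounds (h : IsCoeff P ξ) {γ : ℝ} (hγ : 0 ≤ γ) (n : ℕ) {z : ℂ}
    (hz : ‖z‖ = 1) :
    ENNReal.ofReal (Real.exp (-(∑ k ∈ range n, Tl (P.map (ξ 0)) k (bb γ k z)) / 2 - 8 * cst γ)) ≤
      ∫⁻ ω, ENNReal.ofReal (Df (P.map (ξ 0)) ξ γ (range n) ω z) ∂P ∧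
    ∫⁻ ω, ENNReal.ofReal (Df (P.map (ξ 0)) ξ γ (range n) ω z) ∂P ≤
      ENNReal.ofReal
        (Real.exp (-(∑ k ∈ range n, Tl (P.map (ξ 0)) k (bb γ k z)) / 2 + 8 * cst γ)) := by
  set ν := P.map (ξ 0) with hν
  have hl : Law ν := h.law
  have e : ∀ ω, ENNReal.ofReal (Df ν ξ γ (range n) ω z) =
      ENNReal.ofReal (Real.exp (∑ k ∈ range n, (tr k (ξ k ω) * bb γ k z).re)) *
        ENNReal.ofReal (Real.exp (-Vf ν γ (range n) z)) := fun ω => by
    rw [← ENNReal.ofReal_mul (Real.exp_pos _).le, ← Real.exp_add]; rfl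
  simp_rw [e]
  rw [lintegral_mul_const' _ _ ENNReal.ofReal_ne_top]
  have hb : ∀ k ∈ range n, ‖bb γ k z‖ ≤ γ / sq1 k := fun k _ => (norm_bb hγ k hz).le
  have e2 : ∑ k ∈ range n, Qt ν k (bb γ k z) / 2 - Vf ν γ (range n) z =
      -(∑ k ∈ range n, Tl ν k (bb γ k z)) / 2 := by
    have e3 : ∑ k ∈ range n, Q ν (bb γ k z) =
        ∑ k ∈ range n, Qt ν k (bb γ k z) + ∑ k ∈ range n, Tl ν k (bb γ k z) := by
      rw [← Finset.sum_add_distrib]
      exact Finset.sum_congr rfl fun k _ => (hl.Qt_add_Tl k _).symm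
    simp only [Vf, ← Finset.sum_div, e3]
    ring
  constructor
  · refine le_trans (le_of_eq ?_) (mul_le_mul_left (h.master_ge (range n) hγ hb) _)
    rw [← ENNReal.ofReal_mul (Real.exp_pos _).le, ← Real.exp_add, ← e2]
    congr 2; ring
  · refine (mul_le_mul_left (h.master_le (range n) hγ hb) _).trans (le_of_eq ?_)
    rw [← ENNReal.ofReal_mul (Real.exp_pos _).le, ← Real.exp_add, ← e2]
    congr 2; ring

end Pool.Agent.P.MP_ab74d4_pr
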