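import Pool.Agent.P.MP_ab74d4_pr.Low
import Pool.Agent.P.MP_ab74d4_pr.Tail
import Pool.Agent.P.MP_ab74d4_pr.Conv

/-!
The almost sure Hausdorff dimension of the limit.
-/

namespace Pool.Agent.P.MP_ab74d4_pr

open MeasureTheory ProbabilityTheory Filter Topology Finset Metric
open scoped ENNReal NNReal

theorem le_liminf_open {S : Type*} [MetricSpace S] [CompactSpace S] [MeasurableSpace S]
    [BorelSpace S] {μs : ℕ → FiniteMeasure S} {μ : FiniteMeasure S}
    (h : Tendsto μs atTop (𝓝 μ)) {U : Set S} (hU : IsOpen U) :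
    (μ : Measure S) U ≤ liminf (fun n => (μs n : Measure S) U) atTop := by
  refine le_of_forall_lt fun r hr => ?_
  obtain ⟨F, hFU, hF, hr'⟩ := hU.exists_lt_isClosed hr
  obtain ⟨δ, hδ, hth⟩ := hF.isCompact.exists_thickening_subset_open hU hFU
  have h1 := FiniteMeasure.tendsto_iff_forall_lintegral_tendsto.1 h (thickenedIndicator hδ F)
  have h2 : (μ : Measure S) F ≤ ∫⁻ x, thickenedIndicator hδ F x ∂(μ : Measure S) := by
    rw [← lintegral_indicator_one hF.measurableSet]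
    refine lintegral_mono fun x => ?_
    by_cases hx : x ∈ F
    · rw [Set.indicator_of_mem hx, thickenedIndicator_one hδ F hx]; simp
    · rw [Set.indicator_of_notMem hx]; exact bot_le
  refine hr'.trans_le (h2.trans ?_)
  rw [← h1.liminf_eq]
  refine liminf_le_liminf (Eventually.of_forall fun n => ?_)
  rw [← lintegral_indicator_one hU.measurableSet]
  refine lintegral_mono fun x => ?_
  by_cases hx : x ∈ U
  · rw [Set.indicator_of_mem hx, Pi.one_apply]
    exact ENNReal.coe_le_one_iff.2 (thickenedIndicator_le_one hδ F x)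
  · rw [Set.indicator_of_notMem hx, thickenedIndicator_zero hδ F fun h => hx (hth h)]; simp

theorem exists_coe_near (θ : UnitAddCircle) (s : ℝ) :
    ∃ t : ℝ, (t : UnitAddCircle) = θ ∧ dist θ (s : UnitAddCircle) = |t - s| := by
  refine ⟨AddCircle.equivIoc 1 (s - 1 / 2) θ, AddCircle.coe_equivIoc, ?_⟩
  have h1 := (AddCircle.equivIoc 1 (s - 1 / 2) θ).2
  conv_lhs => rw [← AddCircle.coe_equivIoc (p := 1) (a := s - 1 / 2) (y := θ)]
  rw [dist_eq_norm, ← AddCircle.coe_sub, (AddCircle.norm_coe_eq_abs_iff 1 one_ne_zero).2]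
  rw [abs_one, abs_le]; constructor <;> linarith [h1.1, h1.2]

theorem et_prod_near (t t' s : ℝ) :
    ‖et t * et t' - et s * et s‖ ≤ 7 * |t - s| + 7 * |t' - s| := by
  have e : et t * et t' - et s * et s = (et t - et s) * et t' + et s * (et t' - et s) := by ring
  rw [e]
  refine (norm_add_le _ _).trans ?_
  rw [norm_mul, norm_mul, norm_et, norm_et, mul_one, one_mul]
  exact add_le_add (et_lip _ _) (et_lip _ _)

theorem far_of_near {t t' s η : ℝ} (h : 7 * |t - s| + 7 * |t' - s| + η ≤ ‖1 - et s * et s‖) :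
    η ≤ ‖1 - et t * et t'‖ := by
  have h1 := et_prod_near t t' s
  have h2 := norm_add_le (1 - et t * et t') (et t * et t' - et s * et s)
  rw [sub_add_sub_cancel] at h2
  linarith

/-- the region away from `± 1` -/
def Kf (η : ℝ) : Set UnitAddCircle := {θ | 2 * η < ‖1 - ez θ * ez θ‖}

theorem isOpen_Kf (η : ℝ) : IsOpen (Kf η) := isOpen_lt continuous_const (by fun_prop)

/-- the grid -/
noncomputable def cg (j i : ℕ) : UnitAddCircle := ((i * hh j : ℝ) : UnitAddCircle)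

/-- the interval attached to a grid point -/
def Jg (j i : ℕ) : Set ℝ := Set.Ioo (i * hh j - 2 * hh j) (i * hh j - 2 * hh j + 4 * hh j)

open Classical in
/-- the grid points away from `± 1` -/
noncomputable def Sg (η : ℝ) (j : ℕ) : Finset ℕ :=
  (range (2 ^ j)).filter fun i => 3 ≤ j ∧ ∀ t ∈ Jg j i, ∀ t' ∈ Jg j i, η ≤ ‖1 - et t * et t'‖

theorem mem_Sg {η : ℝ} {j i : ℕ} : i ∈ Sg η j ↔
    i < 2 ^ j ∧ 3 ≤ j ∧ ∀ t ∈ Jg j i, ∀ t' ∈ Jg j i, η ≤ ‖1 - et t * et t'‖ := by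
  classical
  rw [Sg, Finset.mem_filter, mem_range]

theorem card_Sg (η : ℝ) (j : ℕ) : (Sg η j).card ≤ 2 ^ j :=
  (Finset.card_le_card fun _ hi => mem_range.2 (mem_Sg.1 hi).1).trans (card_range _).le

theorem hh_mul (j : ℕ) : hh j * 2 ^ j = 1 := by
  rw [hh, ← mul_pow]; simp

theorem cover_Kf {η : ℝ} (hη : 0 < η) :
    ∀ᶠ j in atTop, ∀ z ∈ Kf η, ∃ i ∈ Sg η j, dist z (cg j i) ≤ hh j := by
  filter_upwards [eventually_ge_atTop 3, hh_tendsto.eventually_le_const
    (show 0 < η / 42 by positivity)] with j hj3 hj z hz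
  obtain ⟨s, hs, rfl⟩ := AddCircle.eq_coe_Ico z
  have hp := hh_pos j
  have hm := hh_mul j
  have h2 : (0 : ℝ) < 2 ^ j := by positivity
  set i := ⌊s * 2 ^ j⌋₊ with hi
  have h3 : (i : ℝ) ≤ s * 2 ^ j := Nat.floor_le (mul_nonneg hs.1 h2.le)
  have h4 : s * 2 ^ j < i + 1 := Nat.lt_floor_add_one _
  have h5 : i * hh j ≤ s := by nlinarith
  have h6 : s < i * hh j + hh j := by nlinarith
  refine ⟨i, mem_Sg.2 ⟨?_, hj3, fun t ht t' ht' => ?_⟩, ?_⟩
  · have : (i : ℝ) < 2 ^ j := by nlinarith [hs.2]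
    exact_mod_cast this
  · refine far_of_near (s := s) ?_
    have h7 : |t - s| ≤ 3 * hh j := by rw [abs_le]; constructor <;> linarith [ht.1, ht.2]
    have h8 : |t' - s| ≤ 3 * hh j := by rw [abs_le]; constructor <;> linarith [ht'.1, ht'.2]
    have h9 : 2 * η < ‖1 - et s * et s‖ := hz
    linarith
  · rw [cg, dist_eq_norm, ← AddCircle.coe_sub]
    refine QuotientAddGroup.norm_mk_le_norm.trans ?_
    rw [Real.norm_eq_abs, abs_le]; constructor <;> linarith

theorem finite_exc : {θ : UnitAddCircle | 1 - ez θ * ez θ = 0}.Finite := by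
  refine Set.Finite.subset (Set.Finite.preimage (f := ez) (s := {1, -1}) ?_ (by simp)) ?_
  · exact (Subtype.val_injective.comp (AddCircle.injective_toCircle one_ne_zero)).injOn
  · intro θ h
    have h' : (ez θ - 1) * (ez θ + 1) = 0 := by
      have : 1 - ez θ * ez θ = 0 := h
      linear_combination -this
    rcases mul_eq_zero.1 h' with h | h
    · exact Or.inl (sub_eq_zero.1 h)
    · exact Or.inr (eq_neg_of_add_eq_zero_left h)

variable {Ω : Type*} [mΩ : MeasurableSpace Ω] {P : Measure Ω} {ξ : ℕ → Ω → ℂ}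

/-- the truncated mass of a set for a block of frequencies -/
noncomputable def Tm (ν : Measure ℂ) (ξ : ℕ → Ω → ℂ) (γ : ℝ) (S : Finset ℕ) (A : Set UnitAddCircle)
    (ω : Ω) : ℝ≥0∞ := ∫⁻ θ in A, ENNReal.ofReal (Df ν ξ γ S ω (ez θ))

omit mΩ in
theorem Law.measurable_Df_ez {ν : Measure ℂ} (h : Law ν) (m' : MeasurableSpace Ω) (γ : ℝ)
    (S : Finset ℕ) (hf : ∀ k ∈ S, Measurable (ξ k)) :
    Measurable fun p : Ω × UnitAddCircle => ENNReal.ofReal (Df ν ξ γ S p.1 (ez p.2)) :=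
  ENNReal.measurable_ofReal.comp (h.measurable_Df γ S (fun k hk => (hf k hk).comp measurable_fst)
    (measurable_ez.comp measurable_snd))

omit mΩ in
theorem Law.measurable_Tm {ν : Measure ℂ} (h : Law ν) (m' : MeasurableSpace Ω) (γ : ℝ)
    (S : Finset ℕ) (A : Set UnitAddCircle) (hf : ∀ k ∈ S, Measurable (ξ k)) :
    Measurable (Tm ν ξ γ S A) :=
  (h.measurable_Df_ez m' γ S hf).lintegral_prod_right'

theorem IsCoeff.ae_compare (h : IsCoeff P ξ) {γ : ℝ} (hγ : 0 ≤ γ) :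
    ∀ᵐ ω ∂P, ∃ c : ℝ≥0∞, c ≠ ∞ ∧ ∀ᶠ n in atTop, ∀ A, MeasurableSet A →
      chaos P ξ γ n ω A ≤ c * Tm (P.map (ξ 0)) ξ γ (range n) A ω ∧
      Tm (P.map (ξ 0)) ξ γ (range n) A ω ≤ c * chaos P ξ γ n ω A := by
  filter_upwards [h.ae_trunc] with ω htr
  obtain ⟨N, hN⟩ := eventually_atTop.1 htr
  set B := ∑ k ∈ range N, ‖tl k (ξ k ω)‖ * (γ / sq1 k) with hB
  have hS : ∀ θ, |Sf ξ γ (range N) ω (ez θ)| ≤ B := fun θ => by
    refine (Finset.abs_sum_le_sum_abs _ _).trans (Finset.sum_le_sum fun k _ => ?_)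
    rw [← norm_bb hγ k (norm_ez θ)]
    exact abs_re_mul_le _ _
  refine ⟨ENNReal.ofReal (Real.exp B), ENNReal.ofReal_ne_top, ?_⟩
  filter_upwards [eventually_ge_atTop N] with n hn A hA
  rw [h.chaos_eq, withDensity_apply _ hA, Tm, ← lintegral_const_mul' _ _ ENNReal.ofReal_ne_top,
    ← lintegral_const_mul' _ _ ENNReal.ofReal_ne_top]
  constructor
  · refine lintegral_mono fun θ => ?_
    rw [← ENNReal.ofReal_mul (Real.exp_pos _).le, Sf_stable hN hn]
    exact ENNReal.ofReal_le_ofReal (mul_le_mul_of_nonneg_right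
      (Real.exp_le_exp.2 (abs_le.1 (hS θ)).2) (Df_pos _ _ _ _ _ _).le)
  · refine lintegral_mono fun θ => ?_
    rw [← ENNReal.ofReal_mul (Real.exp_pos _).le, Sf_stable hN hn, ← mul_assoc, ← Real.exp_add]
    exact ENNReal.ofReal_le_ofReal (le_mul_of_one_le_left (Df_pos _ _ _ _ _ _).le
      (Real.one_le_exp (by linarith [(abs_le.1 (hS θ)).1])))

theorem exp_Hs_le (a : ℝ) (j : ℕ) :
    Real.exp (a * Hs 0 (2 ^ j)) ≤ Real.exp |a| * hh j ^ (-a) := by
  have h1 : Real.log (hh j) = -Real.log ((2 ^ j : ℕ) : ℝ) := by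
    rw [← Real.log_inv]; congr 1; push_cast
    exact eq_inv_of_mul_eq_one_left (hh_mul j)
  have h2 := log_le_Hs (2 ^ j)
  have h3 := Hs_zero_le (n := 2 ^ j) Nat.one_le_two_pow
  have h4 : Real.log ((2 ^ j : ℕ) : ℝ) ≤ Real.log (((2 ^ j : ℕ) : ℝ) + 1) :=
    Real.log_le_log (by positivity) (by linarith)
  rw [Real.rpow_def_of_pos (hh_pos j), ← Real.exp_add, h1]
  refine Real.exp_le_exp.2 ?_
  rcases abs_cases a with h | h <;> rw [h.1] <;> nlinarith [h.2]

theorem IsCoeff.grid_moment (h : IsCoeff P ξ) {q γ η : ℝ} (hq0 : 0 < q) (hq : q ≤ 2) (hγ : 0 ≤ γ)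
    (hγ2 : γ ^ 2 < 2) (hη : 0 < η) {j i : ℕ} (hi : i ∈ Sg η j) {n : ℕ} (hn : 2 ^ j ≤ n) :
    ∫⁻ ω, Zf (P.map (ξ 0)) ξ γ (range n) (Jg j i) ω ^ q ∂P ≤
      ENNReal.ofReal (cM γ η * Real.exp |(q ^ 2 - q) * (γ ^ 2 / 4)| * 4 ^ q *
        hh j ^ (q - (q ^ 2 - q) * (γ ^ 2 / 4))) := by
  obtain ⟨-, hj, hfar⟩ := mem_Sg.1 hi
  have hp := hh_pos j
  have hL : 4 * hh j = 4 / ((2 ^ j : ℕ) : ℝ) := by
    push_cast; rw [eq_div_iff (by positivity), mul_assoc, hh_mul, mul_one]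
  have hL2 : 4 * hh j ≤ 1 / 2 := by
    have := hh_anti hj
    rw [show hh 3 = 1 / 8 by norm_num [hh]] at this
    linarith
  refine (h.arc_moment hq0 hq hγ hγ2 Nat.one_le_two_pow hn hL hL2 hη hfar).trans
    (ENNReal.ofReal_le_ofReal ?_)
  have h1 := exp_Hs_le ((q ^ 2 - q) * (γ ^ 2 / 4)) j
  have h2 : 0 ≤ cM γ η := by
    have := cHF_nonneg (η := η) hγ2
    unfold cM; positivity
  rw [← mul_assoc (q ^ 2 - q), Real.mul_rpow (by norm_num) hp.le, sub_eq_add_neg q,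
    Real.rpow_add hp]
  calc _ ≤ cM γ η * (Real.exp |(q ^ 2 - q) * (γ ^ 2 / 4)| *
        hh j ^ (-((q ^ 2 - q) * (γ ^ 2 / 4)))) * (4 ^ q * hh j ^ q) := by gcongr
    _ = _ := by ring

theorem IsCoeff.ae_msum (h : IsCoeff P ξ) {q β γ η : ℝ} (hq0 : 0 < q) (hq : q ≤ 2) (hγ : 0 ≤ γ)
    (hγ2 : γ ^ 2 < 2) (hη : 0 < η) (hκ : 0 < (q - 1) * (1 - q * (γ ^ 2 / 4) - β))
    {M : ℕ → Ω → FiniteMeasure UnitAddCircle} {L : Ω → FiniteMeasure UnitAddCircle}
    (hM : ∀ n ω, (M n ω : Measure UnitAddCircle) = chaos P ξ γ n ω)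
    (hL : ∀ᵐ ω ∂P, Tendsto (fun n => M n ω) atTop (𝓝 (L ω))) :
    ∀ᵐ ω ∂P, ∑' j, msum (L ω : Measure UnitAddCircle) cg (Sg η) q β j ≠ ∞ := by
  set ν := P.map (ξ 0) with hν
  have hl : Law ν := h.law
  have hZm : ∀ n J, Measurable fun ω => Zf ν ξ γ (range n) J ω ^ q := fun n J =>
    (hl.measurable_Zf mΩ γ _ J fun k _ => h.meas k).pow_const q
  set u : ℕ → ℕ → Ω → ℝ≥0∞ := fun j i ω =>
    liminf (fun n => Zf ν ξ γ (range n) (Jg j i) ω ^ q) atTop with hu
  have hum : ∀ j i, Measurable (u j i) := fun j i => Measurable.liminf fun n => hZm n _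
  obtain ⟨C, hC⟩ : ∃ C, C = cM γ η * Real.exp |(q ^ 2 - q) * (γ ^ 2 / 4)| * 4 ^ q := ⟨_, rfl⟩
  have hC0 : 0 ≤ C := by
    have := cHF_nonneg (η := η) hγ2
    rw [hC]; unfold cM; positivity
  have hEu : ∀ j, ∀ i ∈ Sg η j, ∫⁻ ω, u j i ω ∂P ≤
      ENNReal.ofReal (C * hh j ^ (q - (q ^ 2 - q) * (γ ^ 2 / 4))) := by
    intro j i hi
    refine (lintegral_liminf_le fun n => hZm n _).trans ?_
    refine liminf_le_of_frequently_le' (Eventually.frequently ?_)
    filter_upwards [eventually_ge_atTop (2 ^ j)] with n hn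
    rw [hC]
    exact h.grid_moment hq0 hq hγ hγ2 hη hi hn
  have hWm : ∀ j, Measurable fun ω =>
      ∑ i ∈ Sg η j, u j i ω * ENNReal.ofReal (hh j) ^ (β * (1 - q)) := fun j =>
    Finset.measurable_sum _ fun i _ => (hum j i).mul_const _
  have hW : ∫⁻ ω, ∑' j, ∑ i ∈ Sg η j, u j i ω * ENNReal.ofReal (hh j) ^ (β * (1 - q)) ∂P ≠ ∞ := by
    rw [lintegral_tsum fun j => (hWm j).aemeasurable]
    have hsum : Summable fun j : ℕ =>
        C * (((1 : ℝ) / 2) ^ ((q - 1) * (1 - q * (γ ^ 2 / 4) - β))) ^ j :=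
      (summable_geometric_of_lt_one (by positivity)
        (Real.rpow_lt_one (by norm_num) (by norm_num) hκ)).mul_left C
    refine ne_top_of_le_ne_top hsum.tsum_ofReal_ne_top (ENNReal.tsum_le_tsum fun j => ?_)
    have hp := hh_pos j
    rw [lintegral_finsetSum _ fun i _ => (hum j i).mul_const _]
    calc ∑ i ∈ Sg η j, ∫⁻ ω, u j i ω * ENNReal.ofReal (hh j) ^ (β * (1 - q)) ∂P
        ≤ ∑ _i ∈ Sg η j, ENNReal.ofReal (C * hh j ^ (q - (q ^ 2 - q) * (γ ^ 2 / 4))) *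
            ENNReal.ofReal (hh j) ^ (β * (1 - q)) := by
          refine Finset.sum_le_sum fun i hi => ?_
          rw [lintegral_mul_const _ (hum j i)]
          exact mul_le_mul_left (hEu j i hi) _
      _ ≤ ((2 ^ j : ℕ) : ℝ≥0∞) * (ENNReal.ofReal (C * hh j ^ (q - (q ^ 2 - q) * (γ ^ 2 / 4))) *
            ENNReal.ofReal (hh j) ^ (β * (1 - q))) := by
          rw [Finset.sum_const, nsmul_eq_mul]
          refine mul_le_mul_left ?_ _
          exact_mod_cast card_Sg η j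
      _ = _ := by
          rw [ENNReal.ofReal_rpow_of_pos hp, ← ENNReal.ofReal_natCast,
            ← ENNReal.ofReal_mul (by positivity), ← ENNReal.ofReal_mul (by positivity)]
          congr 1
          have e1 : ((2 ^ j : ℕ) : ℝ) = hh j ^ (-1 : ℝ) := by
            rw [Real.rpow_neg_one]; push_cast
            exact eq_inv_of_mul_eq_one_right (hh_mul j)
          have e2 : ∀ κ : ℝ, (((1 : ℝ) / 2) ^ κ) ^ j = hh j ^ κ := fun κ => by
            rw [hh, ← Real.rpow_natCast, ← Real.rpow_mul (by norm_num), mul_comm,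
              Real.rpow_mul (by norm_num), Real.rpow_natCast]
          rw [e1, e2, show (q - 1) * (1 - q * (γ ^ 2 / 4) - β) =
            -1 + ((q - (q ^ 2 - q) * (γ ^ 2 / 4)) + β * (1 - q)) by ring, Real.rpow_add hp,
            Real.rpow_add hp]
          ring
  filter_upwards [ae_lt_top (Measurable.tsum hWm) hW, h.ae_compare hγ, hL]
    with ω hω ⟨c, hc, hcmp⟩ hlim
  refine ne_top_of_le_ne_top (ENNReal.mul_ne_top (ENNReal.rpow_ne_top_of_nonneg hq0.le hc) hω.ne) ?_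
  rw [← ENNReal.tsum_mul_left]
  refine ENNReal.tsum_le_tsum fun j => ?_
  rw [msum, Finset.mul_sum]
  refine Finset.sum_le_sum fun i _ => ?_
  rw [← mul_assoc]
  refine mul_le_mul_left ?_ _
  have h1 : (L ω : Measure UnitAddCircle) (ball (cg j i) (2 * hh j)) ≤
      liminf (fun n => c * Zf ν ξ γ (range n) (Jg j i) ω) atTop := by
    refine (le_liminf_open hlim isOpen_ball).trans (liminf_le_liminf ?_)
    filter_upwards [hcmp] with n hn
    rw [hM]
    refine (hn _ measurableSet_ball).1.trans (mul_le_mul_right ?_ _)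
    refine (lint_ball_le _ _ _).trans (le_of_eq ?_)
    rw [Zf, Jg, show i * hh j - 2 * hh j + 4 * hh j = i * hh j + 2 * hh j by ring]
    rfl
  refine (ENNReal.rpow_le_rpow h1 hq0.le).trans (le_of_eq ?_)
  have m1 : Monotone fun x : ℝ≥0∞ => x ^ q := fun _ _ hxy => ENNReal.rpow_le_rpow hxy hq0.le
  have m2 : Monotone fun x : ℝ≥0∞ => c ^ q * x := fun _ _ hxy => mul_le_mul_right hxy _
  have e1 := m1.map_liminf_of_continuousAt (F := atTop)
    (fun n => c * Zf ν ξ γ (range n) (Jg j i) ω) ENNReal.continuous_rpow_const.continuousAt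
  have e2 := m2.map_liminf_of_continuousAt (F := atTop)
    (fun n => Zf ν ξ γ (range n) (Jg j i) ω ^ q)
    (ENNReal.continuous_const_mul (ENNReal.rpow_ne_top_of_nonneg hq0.le hc)).continuousAt
  refine e1.trans (Eq.trans ?_ e2.symm)
  congr 1
  ext n
  exact ENNReal.mul_rpow_of_nonneg _ _ hq0.le

end Pool.Agent.P.MP_ab74d4_pr
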