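import Pool.Agent.P.MP_ab74d4_pr.Moments

/-!
The low-frequency supremum bound and the moment bound for the measure of a small arc.
-/

namespace Pool.Agent.P.MP_ab74d4_pr

open MeasureTheory ProbabilityTheory Filter Topology Finset
open scoped ENNReal

/-- derivative coefficient -/
noncomputable def db (γ : ℝ) (k : ℕ) (t : ℝ) : ℂ :=
  bb γ k (et t) * (((2 * Real.pi * ((k : ℝ) + 1) : ℝ) : ℂ) * Complex.I)

/-- perturbed coefficient -/
noncomputable def al (q γ l : ℝ) (k : ℕ) (t : ℝ) : ℂ := (q : ℂ) * (bb γ k (et t) + (l : ℂ) * db γ k t)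

@[fun_prop] theorem continuous_db (γ : ℝ) (k : ℕ) : Continuous (db γ k) := by
  unfold db; fun_prop

@[fun_prop] theorem continuous_al (q γ l : ℝ) (k : ℕ) : Continuous (al q γ l k) := by
  unfold al; fun_prop

theorem norm_l_db {γ l : ℝ} (hγ : 0 ≤ γ) {k m : ℕ} (hk : k < m) (hl : |l| ≤ 4 / m) (t : ℝ) :
    ‖(l : ℂ) * db γ k t‖ ≤ γ / sq1 k * (26 * (((k : ℝ) + 1) / m)) := by
  have hs := sq1_pos k
  have hm0 : (0 : ℝ) < m := by exact_mod_cast (by omega : 0 < m)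
  rw [db, norm_mul, norm_mul, norm_mul, norm_bb hγ k (norm_et t), Complex.norm_I, mul_one,
    Complex.norm_real, Complex.norm_real, Real.norm_eq_abs, Real.norm_eq_abs,
    abs_of_pos (a := 2 * Real.pi * ((k : ℝ) + 1)) (by positivity), mul_left_comm]
  refine mul_le_mul_of_nonneg_left ?_ (by positivity)
  have hp := Real.pi_lt_d2
  calc |l| * (2 * Real.pi * ((k : ℝ) + 1)) ≤ 4 / m * (2 * 3.15 * ((k : ℝ) + 1)) := by gcongr
    _ = 25.2 * (((k : ℝ) + 1) / m) := by ring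
    _ ≤ _ := by gcongr; norm_num

theorem norm_al {q γ l : ℝ} (hq0 : 0 ≤ q) (hq : q ≤ 2) (hγ : 0 ≤ γ) {k m : ℕ} (hk : k < m)
    (hl : |l| ≤ 4 / m) (t : ℝ) : ‖al q γ l k t‖ ≤ 54 * γ / sq1 k := by
  have hs := sq1_pos k
  have hm0 : (0 : ℝ) < m := by exact_mod_cast (by omega : 0 < m)
  have h1 := norm_l_db hγ hk hl t
  have h2 : ((k : ℝ) + 1) / m ≤ 1 := by
    rw [div_le_one hm0]; exact_mod_cast hk
  have h3 : 0 ≤ γ / sq1 k := by positivity
  rw [al, norm_mul, Complex.norm_real, Real.norm_eq_abs, abs_of_nonneg hq0]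
  have h4 := norm_add_le (bb γ k (et t)) ((l : ℂ) * db γ k t)
  rw [norm_bb hγ k (norm_et t)] at h4
  have h5 : ‖bb γ k (et t) + (l : ℂ) * db γ k t‖ ≤ 27 * (γ / sq1 k) := by nlinarith
  calc _ ≤ 2 * (27 * (γ / sq1 k)) := mul_le_mul hq h5 (norm_nonneg _) (by norm_num)
    _ = _ := by ring

theorem Law.sum_Q_al {ν : Measure ℂ} (h : Law ν) (q : ℝ) {γ l : ℝ} (hγ : 0 ≤ γ) {m : ℕ}
    (hm : 1 ≤ m) (hl : |l| ≤ 4 / m) (t : ℝ) :
    ∑ k ∈ Ico 0 m, Q ν (al q γ l k t) / 2 ≤ q ^ 2 * (Vf ν γ (Ico 0 m) (et t) + 364 * γ ^ 2) := by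
  have hm0 : (0 : ℝ) < m := by exact_mod_cast hm
  have e : 364 * γ ^ 2 = ∑ _k ∈ Ico 0 m, 364 * γ ^ 2 / m := by
    rw [Finset.sum_const, Nat.card_Ico, nsmul_eq_mul]; simp only [Nat.sub_zero]; field_simp
  rw [e, Vf, ← Finset.sum_add_distrib, Finset.mul_sum]
  refine Finset.sum_le_sum fun k hk => ?_
  have hk' := (mem_Ico.1 hk).2
  rw [al, h.Q_smul, mul_div_assoc]
  refine mul_le_mul_of_nonneg_left ?_ (sq_nonneg q)
  have h1 := norm_l_db hγ hk' hl t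
  have h2 := h.Q_add_le (bb γ k (et t)) ((l : ℂ) * db γ k t)
  rw [norm_bb hγ k (norm_et t)] at h2
  have hs := sq1_pos k
  set r := ((k : ℝ) + 1) / m with hr
  have hr0 : 0 ≤ r := by positivity
  have hr1 : r ≤ 1 := by rw [hr, div_le_one hm0]; exact_mod_cast hk'
  have h3 : 0 ≤ γ / sq1 k := by positivity
  have h4 : (γ / sq1 k) ^ 2 * r = γ ^ 2 / m := by
    rw [div_pow, sq1_sq, hr]; field_simp
  have h5 : ‖(l : ℂ) * db γ k t‖ ^ 2 ≤ (γ / sq1 k * (26 * r)) ^ 2 :=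
    pow_le_pow_left₀ (norm_nonneg _) h1 2
  have h6 := mul_le_mul_of_nonneg_left h1 h3
  have h7 : (γ / sq1 k) ^ 2 * r * r ≤ (γ / sq1 k) ^ 2 * r :=
    mul_le_of_le_one_right (by positivity) hr1
  have h8 : 364 * γ ^ 2 / m = 364 * ((γ / sq1 k) ^ 2 * r) := by rw [h4]; ring
  nlinarith

variable {Ω : Type*} [mΩ : MeasurableSpace Ω] {P : Measure Ω} {ξ : ℕ → Ω → ℂ}

/-- the exponential of the perturbed low-frequency field -/
noncomputable def El (ξ : ℕ → Ω → ℂ) (q γ l : ℝ) (m : ℕ) (ω : Ω) (t : ℝ) : ℝ≥0∞ :=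
  ENNReal.ofReal (Real.exp (∑ k ∈ Ico 0 m, (tr k (ξ k ω) * al q γ l k t).re))

/-- the majorant of the low-frequency supremum -/
noncomputable def Gl (ξ : ℕ → Ω → ℂ) (q γ L : ℝ) (m : ℕ) (a : ℝ) (ω : Ω) : ℝ≥0∞ :=
  El ξ q γ 0 m ω (a + L / 2) + (ENNReal.ofReal L)⁻¹ *
    ∫⁻ t in Set.Ioo a (a + L), (El ξ q γ L m ω t + El ξ q γ (-L) m ω t)

omit mΩ in
theorem measurable_El (m' : MeasurableSpace Ω) (q γ l : ℝ) (m : ℕ)
    (hf : ∀ k ∈ Ico 0 m, Measurable (ξ k)) :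
    Measurable fun p : Ω × ℝ => El ξ q γ l m p.1 p.2 := by
  refine ENNReal.measurable_ofReal.comp (Real.measurable_exp.comp
    (Finset.measurable_sum _ fun k hk => ?_))
  exact Complex.measurable_re.comp (((measurable_tr k).comp ((hf k hk).comp measurable_fst)).mul
    ((continuous_al q γ l k).measurable.comp measurable_snd))

omit mΩ in
theorem measurable_Gl (m' : MeasurableSpace Ω) (q γ L : ℝ) (m : ℕ) (a : ℝ)
    (hf : ∀ k ∈ Ico 0 m, Measurable (ξ k)) : Measurable (Gl ξ q γ L m a) :=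
  ((measurable_El m' q γ 0 m hf).comp (measurable_id.prodMk measurable_const)).add
    (Measurable.const_mul (((measurable_El m' q γ L m hf).add
      (measurable_El m' q γ (-L) m hf)).lintegral_prod_right') _)

omit mΩ in
theorem exp_le_Gl (q γ : ℝ) {L : ℝ} (hL : 0 < L) (m : ℕ) (a : ℝ) (ω : Ω) {t : ℝ}
    (ht : t ∈ Set.Ioo a (a + L)) :
    ENNReal.ofReal (Real.exp (q * Yf ξ γ (Ico 0 m) ω (et t))) ≤ Gl ξ q γ L m a ω := by
  set Y : ℝ → ℝ := fun t => Yf ξ γ (Ico 0 m) ω (et t) with hY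
  set Y' : ℝ → ℝ := fun t => ∑ k ∈ Ico 0 m, (tr k (ξ k ω) * db γ k t).re with hY'
  have hd : ∀ x, HasDerivAt Y (Y' x) x := fun x => by
    refine HasDerivAt.fun_sum fun k _ => ?_
    exact Complex.reCLM.hasFDerivAt.comp_hasDerivAt x
      ((hasDerivAt_bb γ k x).const_mul (tr k (ξ k ω)))
  have hYc : Continuous Y := (continuous_Yf ξ γ _ ω).comp continuous_et
  have hY'c : Continuous Y' := by simp only [hY']; fun_prop
  have hE : ∀ l x, El ξ q γ l m ω x = ENNReal.ofReal (Real.exp (q * Y x + l * (q * Y' x))) := by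
    intro l x
    simp only [El, hY, hY', Yf, Finset.mul_sum, ← Finset.sum_add_distrib]
    congr 2
    refine Finset.sum_congr rfl fun k _ => ?_
    rw [← Complex.re_ofReal_mul, ← Complex.re_ofReal_mul, ← Complex.re_ofReal_mul,
      ← Complex.add_re, al]
    congr 1; ring
  have h1 := sup_le_int (F := fun x => Real.exp (q * Y x))
    (F' := fun x => Real.exp (q * Y x) * (q * Y' x)) (fun x => ((hd x).const_mul q).exp)
    (by fun_prop) (s := a + L / 2) ⟨by linarith, by linarith⟩ ht (Real.exp_pos _).le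
  refine h1.trans (add_le_add (by rw [hE]; simp) ?_)
  rw [← lintegral_const_mul' _ _ (by simpa using hL)]
  refine lintegral_mono fun x => ?_
  rw [hE, hE, ← ENNReal.ofReal_add (Real.exp_pos _).le (Real.exp_pos _).le,
    ← ENNReal.ofReal_inv_of_pos hL, ← ENNReal.ofReal_mul (by positivity), ← ofReal_norm]
  refine ENNReal.ofReal_le_ofReal ?_
  rw [norm_mul, Real.norm_eq_abs, Real.norm_eq_abs, abs_of_pos (Real.exp_pos _), Real.exp_add,
    Real.exp_add, ← mul_add, mul_left_comm]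
  refine mul_le_mul_of_nonneg_left ?_ (Real.exp_pos _).le
  rw [le_inv_mul_iff₀ hL]
  have e1 := Real.add_one_le_exp (L * (q * Y' x))
  have e2 := Real.add_one_le_exp (-L * (q * Y' x))
  have e3 := Real.exp_pos (L * (q * Y' x))
  have e4 := Real.exp_pos (-L * (q * Y' x))
  rcases abs_cases (q * Y' x) with h | h <;> rw [h.1] <;> nlinarith

theorem IsCoeff.lint_El (h : IsCoeff P ξ) {q γ l : ℝ} (hq0 : 0 ≤ q) (hq : q ≤ 2) (hγ : 0 ≤ γ)
    {m : ℕ} (hm : 1 ≤ m) (hl : |l| ≤ 4 / m) {t η : ℝ} (hη : 0 < η)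
    (hfar : η ≤ ‖1 - et t * et t‖) :
    ∫⁻ ω, El ξ q γ l m ω t ∂P ≤ ENNReal.ofReal (Real.exp (q ^ 2 * (γ ^ 2 / 4 * Hs 0 m) +
      (4 * (γ ^ 2 / η + 364 * γ ^ 2) + 8 * cst (54 * γ)))) := by
  refine (h.master_le' (Ico 0 m) (by linarith : 0 ≤ 54 * γ)
    fun k hk => norm_al hq0 hq hγ (mem_Ico.1 hk).2 hl t).trans
    (ENNReal.ofReal_le_ofReal (Real.exp_le_exp.2 ?_))
  have h1 := h.law.sum_Q_al q hγ hm hl t
  have h2 := (abs_le.1 (h.law.abs_Vf_sub hγ 0 m (norm_et t) hη hfar)).2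
  have h3 : q ^ 2 ≤ 4 := by nlinarith
  have h4 : 0 ≤ γ ^ 2 / η + 364 * γ ^ 2 := by positivity
  nlinarith [mul_le_mul_of_nonneg_right h3 h4, mul_le_mul_of_nonneg_left h2 (sq_nonneg q)]

theorem lint_G_aux [SFinite P] (e0 : Ω → ℝ≥0∞) (e1 e2 : Ω → ℝ → ℝ≥0∞) (h0 : Measurable e0)
    (h1 : Measurable fun p : Ω × ℝ => e1 p.1 p.2) (h2 : Measurable fun p : Ω × ℝ => e2 p.1 p.2)
    {a L : ℝ} (hL0 : 0 < L) (B : ℝ≥0∞) (b0 : ∫⁻ ω, e0 ω ∂P ≤ B)
    (b1 : ∀ t ∈ Set.Ioo a (a + L), ∫⁻ ω, e1 ω t ∂P ≤ B)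
    (b2 : ∀ t ∈ Set.Ioo a (a + L), ∫⁻ ω, e2 ω t ∂P ≤ B) :
    ∫⁻ ω, (e0 ω + (ENNReal.ofReal L)⁻¹ * ∫⁻ t in Set.Ioo a (a + L), (e1 ω t + e2 ω t)) ∂P ≤
      3 * B := by
  rw [lintegral_add_left h0, lintegral_const_mul' _ _ (by simpa using hL0),
    lintegral_lintegral_swap (f := fun ω t => e1 ω t + e2 ω t) (h1.add h2).aemeasurable]
  have h3 : ∫⁻ t in Set.Ioo a (a + L), ∫⁻ ω, (e1 ω t + e2 ω t) ∂P ≤
      ∫⁻ _t in Set.Ioo a (a + L), (B + B) := by
    refine setLIntegral_mono' measurableSet_Ioo fun t ht => ?_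
    have : Measurable fun ω => e1 ω t := h1.comp (measurable_id.prodMk measurable_const)
    rw [lintegral_add_left this]
    exact add_le_add (b1 t ht) (b2 t ht)
  rw [setLIntegral_const, Real.volume_Ioo, add_sub_cancel_left] at h3
  calc _ ≤ B + (ENNReal.ofReal L)⁻¹ * ((B + B) * ENNReal.ofReal L) := by gcongr
    _ = 3 * B := by
        rw [mul_comm (B + B), ← mul_assoc, ENNReal.inv_mul_cancel (by simpa using hL0)
          ENNReal.ofReal_ne_top, one_mul]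
        ring

omit mΩ in
theorem measurable_El' (m' : MeasurableSpace Ω) (q γ l : ℝ) (m : ℕ)
    (hf : ∀ k ∈ Ico 0 m, Measurable (ξ k)) (t : ℝ) : Measurable fun ω => El ξ q γ l m ω t := by
  refine ENNReal.measurable_ofReal.comp (Real.measurable_exp.comp
    (Finset.measurable_sum _ fun k hk => ?_))
  exact Complex.measurable_re.comp (((measurable_tr k).comp (hf k hk)).mul_const _)

theorem IsCoeff.lint_Gl (h : IsCoeff P ξ) {q γ L : ℝ} (hq0 : 0 ≤ q) (hq : q ≤ 2) (hγ : 0 ≤ γ)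
    {m : ℕ} (hm : 1 ≤ m) (hL : L = 4 / m) {a η : ℝ} (hη : 0 < η)
    (hfar : ∀ t ∈ Set.Ioo a (a + L), η ≤ ‖1 - et t * et t‖) :
    ∫⁻ ω, Gl ξ q γ L m a ω ∂P ≤ 3 * ENNReal.ofReal (Real.exp (q ^ 2 * (γ ^ 2 / 4 * Hs 0 m) +
      (4 * (γ ^ 2 / η + 364 * γ ^ 2) + 8 * cst (54 * γ)))) := by
  have := h.prob
  have hm0 : (0 : ℝ) < m := by exact_mod_cast hm
  have hL0 : 0 < L := by rw [hL]; positivity
  exact lint_G_aux (fun ω => El ξ q γ 0 m ω (a + L / 2)) (El ξ q γ L m) (El ξ q γ (-L) m)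
    (measurable_El' mΩ q γ 0 m (fun k _ => h.meas k) _)
    (measurable_El mΩ q γ L m fun k _ => h.meas k)
    (measurable_El mΩ q γ (-L) m fun k _ => h.meas k) hL0 _
    (h.lint_El hq0 hq hγ hm (by rw [abs_zero]; positivity) hη
      (hfar _ ⟨by linarith, by linarith⟩))
    (fun t ht => h.lint_El hq0 hq hγ hm (by rw [abs_of_pos hL0, hL]) hη (hfar t ht))
    (fun t ht => h.lint_El hq0 hq hγ hm (by rw [abs_neg, abs_of_pos hL0, hL]) hη (hfar t ht))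

theorem rpow_le_aux {Z L : ℝ≥0∞} (hL0 : L ≠ 0) (hL : L ≠ ∞) {q : ℝ} (hq0 : 0 < q) (hq : q ≤ 2) :
    Z ^ q ≤ L ^ q * (1 + L⁻¹ ^ 2 * Z ^ 2) := by
  have e : Z = L * (L⁻¹ * Z) := by rw [← mul_assoc, ENNReal.mul_inv_cancel hL0 hL, one_mul]
  rw [← mul_pow]
  generalize L⁻¹ * Z = x at e ⊢
  rw [e, ENNReal.mul_rpow_of_nonneg _ _ hq0.le]
  refine mul_le_mul_right ?_ _
  rcases le_total x 1 with h | h
  · exact le_add_right (ENNReal.rpow_le_one h hq0.le)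
  · refine le_add_left ?_
    rw [← ENNReal.rpow_natCast]
    exact ENNReal.rpow_le_rpow_of_exponent_le h (by simpa using hq)

omit mΩ in
theorem measurable_of_mem_block {T : Set ℕ} {k : ℕ} (hk : k ∈ T) :
    Measurable[⨆ i ∈ T, MeasurableSpace.comap (ξ i) inferInstance] (ξ k) :=
  (comap_measurable (ξ k)).mono (le_iSup₂_of_le (f := fun j (_ : j ∈ T) =>
    MeasurableSpace.comap (ξ j) inferInstance) k hk le_rfl) le_rfl

/-- the constant of the arc moment bound -/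
noncomputable def cM (γ η : ℝ) : ℝ :=
  3 * Real.exp (2 * (γ ^ 2 / η) + (4 * (γ ^ 2 / η + 364 * γ ^ 2) + 8 * cst (54 * γ))) *
    (1 + cHF γ η)

theorem cHF_nonneg {γ η : ℝ} (hγ2 : γ ^ 2 < 2) : 0 ≤ cHF γ η := by
  have : 0 < 1 - γ ^ 2 / 2 := by linarith
  unfold cHF; positivity

theorem IsCoeff.arc_moment (h : IsCoeff P ξ) {q γ : ℝ} (hq0 : 0 < q) (hq : q ≤ 2) (hγ : 0 ≤ γ)
    (hγ2 : γ ^ 2 < 2) {m n : ℕ} (hm : 1 ≤ m) (hmn : m ≤ n) {L a η : ℝ} (hL : L = 4 / m)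
    (hL2 : L ≤ 1 / 2) (hη : 0 < η)
    (hfar : ∀ t ∈ Set.Ioo a (a + L), ∀ t' ∈ Set.Ioo a (a + L), η ≤ ‖1 - et t * et t'‖) :
    ∫⁻ ω, Zf (P.map (ξ 0)) ξ γ (range n) (Set.Ioo a (a + L)) ω ^ q ∂P ≤
      ENNReal.ofReal (cM γ η * Real.exp ((q ^ 2 - q) * (γ ^ 2 / 4 * Hs 0 m)) * L ^ q) := by
  have := h.prob
  set ν := P.map (ξ 0) with hν
  have hl : Law ν := h.law
  have hm0 : (0 : ℝ) < m := by exact_mod_cast hm
  have hL0 : 0 < L := by rw [hL]; positivity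
  have hLe : ENNReal.ofReal L ≠ 0 := by simpa using hL0
  set c := ENNReal.ofReal (Real.exp (-(q * (γ ^ 2 / 4 * Hs 0 m)) + 2 * (γ ^ 2 / η))) with hc
  have hpt : ∀ ω, Zf ν ξ γ (range n) (Set.Ioo a (a + L)) ω ^ q ≤
      (c * ENNReal.ofReal L ^ q) * (Gl ξ q γ L m a ω * (1 + (ENNReal.ofReal L)⁻¹ ^ 2 *
        Zf ν ξ γ (Ico m n) (Set.Ioo a (a + L)) ω ^ 2)) := by
    intro ω
    have hsup : ∀ t ∈ Set.Ioo a (a + L), ENNReal.ofReal (Df ν ξ γ (Ico 0 m) ω (et t)) ≤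
        (c * Gl ξ q γ L m a ω) ^ q⁻¹ := by
      intro t ht
      rw [ENNReal.le_rpow_inv_iff hq0, ENNReal.ofReal_rpow_of_pos (Df_pos _ _ _ _ _ _)]
      refine le_trans ?_ (mul_le_mul_right (exp_le_Gl q γ hL0 m a ω ht) c)
      rw [hc, ← ENNReal.ofReal_mul (Real.exp_pos _).le, ← Real.exp_add, Df, ← Real.exp_mul]
      refine ENNReal.ofReal_le_ofReal (Real.exp_le_exp.2 ?_)
      have h2 := (abs_le.1 (hl.abs_Vf_sub hγ 0 m (norm_et t) hη (hfar t ht t ht))).1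
      have h3 : 0 ≤ γ ^ 2 / η := by positivity
      nlinarith [mul_le_mul_of_nonneg_left h2 hq0.le, mul_le_mul_of_nonneg_right hq h3]
    have hZ : Zf ν ξ γ (range n) (Set.Ioo a (a + L)) ω ≤
        (c * Gl ξ q γ L m a ω) ^ q⁻¹ * Zf ν ξ γ (Ico m n) (Set.Ioo a (a + L)) ω := by
      have hmeas : Measurable fun t => ENNReal.ofReal (Df ν ξ γ (Ico m n) ω (et t)) :=
        ENNReal.measurable_ofReal.comp ((hl.continuous_Df ξ γ _ ω).comp continuous_et).measurable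
      rw [Zf, Zf, ← lintegral_const_mul _ hmeas]
      refine setLIntegral_mono' measurableSet_Ioo fun t ht => ?_
      rw [range_eq_Ico, ← Finset.Ico_union_Ico_eq_Ico (Nat.zero_le m) hmn,
        Df_union _ _ _ (Finset.Ico_disjoint_Ico_consecutive 0 m n),
        ENNReal.ofReal_mul (Df_pos _ _ _ _ _ _).le]
      exact mul_le_mul_left (hsup t ht) _
    refine (ENNReal.rpow_le_rpow hZ hq0.le).trans ?_
    rw [ENNReal.mul_rpow_of_nonneg _ _ hq0.le, ← ENNReal.rpow_mul, inv_mul_cancel₀ hq0.ne',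
      ENNReal.rpow_one]
    refine (mul_le_mul_right (rpow_le_aux hLe ENNReal.ofReal_ne_top hq0 hq) _).trans (le_of_eq ?_)
    ring
  refine (lintegral_mono hpt).trans ?_
  have hZm : ∀ (m' : MeasurableSpace Ω), (∀ k ∈ Ico m n, Measurable (ξ k)) →
      Measurable fun ω => 1 + (ENNReal.ofReal L)⁻¹ ^ 2 *
        Zf ν ξ γ (Ico m n) (Set.Ioo a (a + L)) ω ^ 2 := fun m' hf =>
    measurable_const.add (((hl.measurable_Zf m' γ _ _ hf).pow_const 2).const_mul _)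
  rw [lintegral_const_mul' _ _ (ENNReal.mul_ne_top ENNReal.ofReal_ne_top
      (ENNReal.rpow_ne_top_of_nonneg hq0.le ENNReal.ofReal_ne_top)),
    lintegral_mul_eq_lintegral_mul_lintegral_of_independent_measurableSpace
      (iSup₂_le fun k _ => (h.meas k).comap_le) (iSup₂_le fun k _ => (h.meas k).comap_le)
      (indep_iSup_of_disjoint (fun k => (h.meas k).comap_le) h.ind
        (S := Set.Iio m) (T := Set.Ici m) (Set.Iio_disjoint_Ici le_rfl))
      (measurable_Gl _ q γ L m a fun k hk => measurable_of_mem_block (mem_Ico.1 hk).2)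
      (hZm _ fun k hk => measurable_of_mem_block (mem_Ico.1 hk).1),
    lintegral_add_left measurable_const, lintegral_const, measure_univ, mul_one,
    lintegral_const_mul' _ _ (by simp [hL0])]
  have h1 := h.lint_Gl hq0.le hq hγ hm hL hη fun t ht => hfar t ht t ht
  have h2 := h.high_freq hγ hγ2 hm hmn hL hL2 hη hfar
  have h3 : (ENNReal.ofReal L)⁻¹ ^ 2 * (ENNReal.ofReal (cHF γ η) * ENNReal.ofReal L ^ 2) =
      ENNReal.ofReal (cHF γ η) := by
    rw [mul_left_comm, ← mul_pow, ENNReal.inv_mul_cancel hLe ENNReal.ofReal_ne_top]; simp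
  refine (mul_le_mul_right (mul_le_mul' h1 (add_le_add_right (mul_le_mul_right h2 _) _)) _).trans
    (le_of_eq ?_)
  have hH := cHF_nonneg (η := η) hγ2
  rw [h3, ENNReal.ofReal_rpow_of_pos hL0, ← ENNReal.ofReal_one,
    ← ENNReal.ofReal_add zero_le_one hH, ← ENNReal.ofReal_ofNat 3,
    ← ENNReal.ofReal_mul (by positivity), ← ENNReal.ofReal_mul (by positivity),
    ← ENNReal.ofReal_mul (by positivity), ← ENNReal.ofReal_mul (by positivity)]
  congr 1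
  rw [cM, show (q ^ 2 - q) * (γ ^ 2 / 4 * Hs 0 m) =
    -(q * (γ ^ 2 / 4 * Hs 0 m)) + q ^ 2 * (γ ^ 2 / 4 * Hs 0 m) by ring]
  simp only [Real.exp_add]
  ring

end Pool.Agent.P.MP_ab74d4_pr
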