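import Mathlib

/-!
One-step exponential moment estimates for a truncated centred random variable with a finite
second moment.
-/

namespace Pool.Agent.P.MP_ab74d4_pr

open MeasureTheory ProbabilityTheory Filter Topology Finset

/-- a centred law on `ℂ` with second moment one -/
structure Law (ν : Measure ℂ) : Prop where
  prob : IsProbabilityMeasure ν
  sq : Integrable (fun x => ‖x‖ ^ 2) ν
  mean : ∫ x, x ∂ν = 0
  var : ∫ x, ‖x‖ ^ 2 ∂ν = 1

/-- truncation at level `√(k+1)` -/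
noncomputable def tr (k : ℕ) (x : ℂ) : ℂ := if ‖x‖ ^ 2 ≤ (k : ℝ) + 1 then x else 0

/-- the tail part -/
noncomputable def tl (k : ℕ) (x : ℂ) : ℂ := if ‖x‖ ^ 2 ≤ (k : ℝ) + 1 then 0 else x

/-- `√(k+1)` -/
noncomputable def sq1 (k : ℕ) : ℝ := Real.sqrt ((k : ℝ) + 1)

theorem sq1_pos (k : ℕ) : 0 < sq1 k := Real.sqrt_pos.2 (by positivity)

theorem sq1_sq (k : ℕ) : sq1 k ^ 2 = (k : ℝ) + 1 := Real.sq_sqrt (by positivity)

theorem one_le_sq1 (k : ℕ) : 1 ≤ sq1 k := by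
  rw [sq1]; exact Real.one_le_sqrt.2 (by linarith [Nat.cast_nonneg (α := ℝ) k])

theorem tr_add_tl (k : ℕ) (x : ℂ) : tr k x + tl k x = x := by
  unfold tr tl; split_ifs <;> simp

@[fun_prop] theorem measurable_tr (k : ℕ) : Measurable (tr k) :=
  Measurable.ite (measurableSet_le (by fun_prop) measurable_const) measurable_id measurable_const

@[fun_prop] theorem measurable_tl (k : ℕ) : Measurable (tl k) :=
  Measurable.ite (measurableSet_le (by fun_prop) measurable_const) measurable_const measurable_id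

theorem norm_tr_le (k : ℕ) (x : ℂ) : ‖tr k x‖ ≤ sq1 k := by
  unfold tr; split_ifs with h
  · exact Real.le_sqrt_of_sq_le h
  · simpa using (sq1_pos k).le

theorem norm_tr_le' (k : ℕ) (x : ℂ) : ‖tr k x‖ ≤ ‖x‖ := by
  unfold tr; split_ifs <;> simp

theorem norm_tl_le' (k : ℕ) (x : ℂ) : ‖tl k x‖ ≤ ‖x‖ := by
  unfold tl; split_ifs <;> simp

/-- the pointwise error term -/
noncomputable def er (k : ℕ) (x : ℂ) : ℝ := ‖tl k x‖ / sq1 k + ‖tr k x‖ ^ 3 / sq1 k ^ 3

theorem er_nonneg (k : ℕ) (x : ℂ) : 0 ≤ er k x := by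
  have := sq1_pos k
  unfold er; positivity

theorem sum_tail_one (r : ℝ) (hr : 0 ≤ r) (N : ℕ) :
    ∑ k ∈ range N, (if r ^ 2 ≤ (k : ℝ) + 1 then 0 else 1 / sq1 k) ≤ 2 * min (Real.sqrt N) r := by
  induction N with
  | zero => simp [hr]
  | succ N ih =>
    rw [Finset.sum_range_succ]
    have hmono : Real.sqrt N ≤ Real.sqrt ((N + 1 : ℕ) : ℝ) := Real.sqrt_le_sqrt (by push_cast; linarith)
    split_ifs with h
    · have : min (Real.sqrt N) r ≤ min (Real.sqrt ((N + 1 : ℕ) : ℝ)) r := min_le_min_right _ hmono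
      linarith
    · push Not at h
      have h1 : Real.sqrt ((N + 1 : ℕ) : ℝ) ≤ r := by
        apply Real.sqrt_le_iff.2 ⟨hr, by push_cast; linarith⟩
      rw [min_eq_left h1]
      have h2 : min (Real.sqrt N) r ≤ Real.sqrt N := min_le_left _ _
      have hs : Real.sqrt ((N + 1 : ℕ) : ℝ) = sq1 N := by simp [sq1]
      rw [hs] at hmono ⊢
      have h3 := sq1_sq N
      have h4 : Real.sqrt N ^ 2 = N := Real.sq_sqrt (Nat.cast_nonneg N)
      have h5 := sq1_pos N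
      have h6 : 1 / sq1 N ≤ 2 * (sq1 N - Real.sqrt N) := by
        rw [div_le_iff₀ h5]
        nlinarith [Real.sqrt_nonneg (N : ℝ)]
      linarith

theorem sum_tail_three (r : ℝ) (hr : 0 < r) (N : ℕ) :
    ∑ k ∈ range N, (if r ^ 2 ≤ (k : ℝ) + 1 then 1 / sq1 k ^ 3 else 0) ≤
      4 / r - 4 / max r (sq1 N) := by
  induction N with
  | zero =>
    simp only [range_zero, sum_empty, sub_nonneg]
    exact div_le_div_of_nonneg_left (by norm_num) hr (le_max_left _ _)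
  | succ N ih =>
    rw [Finset.sum_range_succ]
    have hmono : sq1 N ≤ sq1 (N + 1) := Real.sqrt_le_sqrt (by push_cast; linarith)
    have h5 := sq1_pos N
    have h5' := sq1_pos (N + 1)
    split_ifs with h
    · have h1 : r ≤ sq1 N := Real.le_sqrt_of_sq_le h
      rw [max_eq_right h1] at ih
      rw [max_eq_right (h1.trans hmono)]
      have h3 := sq1_sq N
      have h4 := sq1_sq (N + 1)
      push_cast at h4
      have h7 := one_le_sq1 N
      have h8 : sq1 (N + 1) ≤ 3 / 2 * sq1 N := by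
        apply le_of_pow_le_pow_left₀ two_ne_zero (by positivity); nlinarith [Nat.cast_nonneg (α := ℝ) N]
      have h6 : 1 / sq1 N ^ 3 ≤ 4 / sq1 N - 4 / sq1 (N + 1) := by
        rw [div_sub_div _ _ h5.ne' h5'.ne', div_le_div_iff₀ (by positivity) (by positivity)]
        have e : (sq1 (N + 1) - sq1 N) * (sq1 (N + 1) + sq1 N) = 1 := by nlinarith
        have e2 : (sq1 (N + 1) + sq1 N) * sq1 (N + 1) ≤ 4 * sq1 N ^ 2 := by nlinarith
        have e3 : 0 ≤ sq1 (N + 1) - sq1 N := by linarith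
        have e4 : sq1 (N + 1) ≤ (sq1 (N + 1) - sq1 N) * (4 * sq1 N ^ 2) := by
          calc sq1 (N + 1) = (sq1 (N + 1) - sq1 N) * ((sq1 (N + 1) + sq1 N) * sq1 (N + 1)) := by
                rw [← mul_assoc, e, one_mul]
            _ ≤ _ := mul_le_mul_of_nonneg_left e2 e3
        nlinarith
      linarith
    · have : 4 / max r (sq1 (N + 1)) ≤ 4 / max r (sq1 N) :=
        div_le_div_of_nonneg_left (by norm_num) (lt_max_of_lt_left hr) (max_le_max_left _ hmono)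
      linarith

theorem sum_er_le (x : ℂ) (N : ℕ) : ∑ k ∈ range N, er k x ≤ 6 * ‖x‖ ^ 2 := by
  rcases (norm_nonneg x).eq_or_lt with h0 | h0
  · have : x = 0 := norm_eq_zero.1 h0.symm
    subst this
    simp [er, tr, tl]
  have h1 := sum_tail_one ‖x‖ h0.le N
  have h3 := sum_tail_three ‖x‖ h0 N
  have e : ∑ k ∈ range N, er k x =
      ‖x‖ * ∑ k ∈ range N, (if ‖x‖ ^ 2 ≤ (k : ℝ) + 1 then 0 else 1 / sq1 k) +
      ‖x‖ ^ 3 * ∑ k ∈ range N, (if ‖x‖ ^ 2 ≤ (k : ℝ) + 1 then 1 / sq1 k ^ 3 else 0) := by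
    rw [Finset.mul_sum, Finset.mul_sum, ← Finset.sum_add_distrib]
    refine Finset.sum_congr rfl fun k _ => ?_
    unfold er tr tl
    split_ifs <;> simp [div_eq_mul_inv]
  rw [e]
  have h4 : 0 ≤ 4 / max ‖x‖ (sq1 N) := by positivity
  have h5 : min (Real.sqrt N) ‖x‖ ≤ ‖x‖ := min_le_right _ _
  have h6 : ‖x‖ ^ 3 * (4 / ‖x‖) = 4 * ‖x‖ ^ 2 := by field_simp
  have h7 := mul_le_mul_of_nonneg_left (h3.trans (sub_le_self _ h4)) (pow_nonneg h0.le 3)
  have h8 := mul_le_mul_of_nonneg_left (h1.trans (by linarith : _ ≤ 2 * ‖x‖)) h0.le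
  nlinarith

variable {ν : Measure ℂ}

theorem Law.int_norm (h : Law ν) : Integrable (fun x : ℂ => ‖x‖) ν := by
  have := h.prob
  refine Integrable.mono' (h.sq.add (integrable_const 1)) (by fun_prop) (ae_of_all _ fun x => ?_)
  simp only [norm_norm, Pi.add_apply]
  nlinarith [norm_nonneg x, sq_nonneg (‖x‖ - 1)]

theorem Law.int_id (h : Law ν) : Integrable (fun x : ℂ => x) ν :=
  (integrable_norm_iff (by fun_prop)).1 h.int_norm

theorem Law.int_of_le_sq (h : Law ν) {f : ℂ → ℝ} (hf : Measurable f) (C : ℝ)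
    (hC : ∀ x, |f x| ≤ C * ‖x‖ ^ 2) : Integrable f ν :=
  Integrable.mono' (h.sq.const_mul C) hf.aestronglyMeasurable (ae_of_all _ hC)

theorem Law.int_of_le_norm (h : Law ν) {f : ℂ → ℝ} (hf : Measurable f) (C : ℝ)
    (hC : ∀ x, |f x| ≤ C * ‖x‖) : Integrable f ν :=
  Integrable.mono' (h.int_norm.const_mul C) hf.aestronglyMeasurable (ae_of_all _ hC)

theorem Law.int_of_bdd (h : Law ν) {f : ℂ → ℝ} (hf : Measurable f) (C : ℝ)
    (hC : ∀ x, |f x| ≤ C) : Integrable f ν := by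
  have := h.prob
  exact Integrable.mono' (integrable_const C) hf.aestronglyMeasurable (ae_of_all _ hC)

theorem Law.int_er (h : Law ν) (k : ℕ) : Integrable (er k) ν := by
  refine h.int_of_le_sq (by unfold er; fun_prop) 6 fun x => ?_
  rw [abs_of_nonneg (er_nonneg k x)]
  refine le_trans ?_ (sum_er_le x (k + 1))
  exact Finset.single_le_sum (f := fun k => er k x) (fun i _ => er_nonneg i x)
    (mem_range.2 (Nat.lt_succ_self k))

/-- the summable error sequence -/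
noncomputable def rho (ν : Measure ℂ) (k : ℕ) : ℝ := ∫ x, er k x ∂ν + 1 / ((k : ℝ) + 1) ^ 2

theorem rho_nonneg (k : ℕ) : 0 ≤ rho ν k :=
  add_nonneg (integral_nonneg (er_nonneg k)) (by positivity)

theorem sum_inv_sq_le (N : ℕ) : ∑ k ∈ range N, 1 / ((k : ℝ) + 1) ^ 2 ≤ 2 - 1 / (N : ℝ) := by
  induction N with
  | zero => simp
  | succ N ih =>
    rw [Finset.sum_range_succ]
    rcases Nat.eq_zero_or_pos N with h | h
    · subst h; norm_num
    have h1 : (0 : ℝ) < N := by exact_mod_cast h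
    have : 1 / ((N : ℝ) + 1) ^ 2 ≤ 1 / (N : ℝ) - 1 / ((N + 1 : ℕ) : ℝ) := by
      push_cast
      rw [div_sub_div _ _ h1.ne' (by positivity), div_le_div_iff₀ (by positivity) (by positivity)]
      nlinarith
    linarith

theorem Law.sum_rho_range (h : Law ν) (N : ℕ) : ∑ k ∈ range N, rho ν k ≤ 8 := by
  simp only [rho, Finset.sum_add_distrib]
  rw [← integral_finsetSum _ (fun k _ => h.int_er k)]
  have h1 : ∫ x, ∑ k ∈ range N, er k x ∂ν ≤ ∫ x, 6 * ‖x‖ ^ 2 ∂ν :=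
    integral_mono (integrable_finsetSum _ (fun k _ => h.int_er k)) (h.sq.const_mul 6)
      (fun x => sum_er_le x N)
  rw [integral_const_mul, h.var] at h1
  have h2 := sum_inv_sq_le N
  have h3 : 0 ≤ 1 / (N : ℝ) := by positivity
  linarith

theorem Law.sum_rho (h : Law ν) (S : Finset ℕ) : ∑ k ∈ S, rho ν k ≤ 8 := by
  obtain ⟨N, hN⟩ := S.exists_nat_subset_range
  exact (Finset.sum_le_sum_of_subset_of_nonneg hN fun i _ _ => rho_nonneg i).trans
    (h.sum_rho_range N)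

theorem exp_taylor (y Λ : ℝ) (hy : |y| ≤ Λ) :
    |Real.exp y - (1 + y + y ^ 2 / 2)| ≤ |y| ^ 3 * Real.exp Λ := by
  have h := Complex.norm_exp_sub_sum_le_norm_mul_exp (y : ℂ) 3
  have e : Complex.exp y - ∑ m ∈ range 3, (y : ℂ) ^ m / (m.factorial : ℂ) =
      ((Real.exp y - (1 + y + y ^ 2 / 2) : ℝ) : ℂ) := by
    simp [Finset.sum_range_succ, Nat.factorial]
  rw [e, Complex.norm_real, Complex.norm_real, Real.norm_eq_abs, Real.norm_eq_abs] at h
  exact h.trans (mul_le_mul_of_nonneg_left (Real.exp_le_exp.2 hy) (by positivity))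

/-- second moment of the truncated linear statistic -/
noncomputable def Qt (ν : Measure ℂ) (k : ℕ) (a : ℂ) : ℝ := ∫ x, (tr k x * a).re ^ 2 ∂ν

/-- second moment of the linear statistic -/
noncomputable def Q (ν : Measure ℂ) (a : ℂ) : ℝ := ∫ x, (x * a).re ^ 2 ∂ν

/-- second moment of the tail part of the linear statistic -/
noncomputable def Tl (ν : Measure ℂ) (k : ℕ) (a : ℂ) : ℝ := ∫ x, (tl k x * a).re ^ 2 ∂ν

/-- the exponential moment of the truncated linear statistic -/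
noncomputable def mg (ν : Measure ℂ) (k : ℕ) (a : ℂ) : ℝ := ∫ x, Real.exp (tr k x * a).re ∂ν

theorem abs_re_mul_le (w a : ℂ) : |(w * a).re| ≤ ‖w‖ * ‖a‖ :=
  (Complex.abs_re_le_norm _).trans (norm_mul_le _ _)

theorem re_sq_le (w a x : ℂ) (h : ‖w‖ ≤ ‖x‖) : |(w * a).re ^ 2| ≤ ‖a‖ ^ 2 * ‖x‖ ^ 2 := by
  rw [abs_pow, ← mul_pow]
  refine pow_le_pow_left₀ (abs_nonneg _) ((abs_re_mul_le w a).trans ?_) 2
  rw [mul_comm]
  exact mul_le_mul_of_nonneg_left h (norm_nonneg _)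

theorem Law.Qt_add_Tl (h : Law ν) (k : ℕ) (a : ℂ) : Qt ν k a + Tl ν k a = Q ν a := by
  unfold Qt Tl Q
  rw [← integral_add
    (h.int_of_le_sq (by fun_prop) _ fun x => re_sq_le _ a x (norm_tr_le' k x))
    (h.int_of_le_sq (by fun_prop) _ fun x => re_sq_le _ a x (norm_tl_le' k x))]
  refine integral_congr_ae (ae_of_all _ fun x => ?_)
  unfold tr tl
  dsimp only
  split_ifs <;> simp

theorem Tl_nonneg (k : ℕ) (a : ℂ) : 0 ≤ Tl ν k a := integral_nonneg fun _ => sq_nonneg _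

theorem Qt_nonneg (k : ℕ) (a : ℂ) : 0 ≤ Qt ν k a := integral_nonneg fun _ => sq_nonneg _

theorem Q_nonneg (a : ℂ) : 0 ≤ Q ν a := integral_nonneg fun _ => sq_nonneg _

theorem Law.Q_le (h : Law ν) (a : ℂ) : Q ν a ≤ ‖a‖ ^ 2 := by
  have h1 : Q ν a ≤ ∫ x, ‖a‖ ^ 2 * ‖x‖ ^ 2 ∂ν :=
    integral_mono (h.int_of_le_sq (by fun_prop) _ fun x => re_sq_le _ a x le_rfl)
      (h.sq.const_mul _) fun x => (le_abs_self _).trans (re_sq_le _ a x le_rfl)
  rwa [integral_const_mul, h.var, mul_one] at h1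

theorem Law.Qt_le (h : Law ν) (k : ℕ) (a : ℂ) : Qt ν k a ≤ Q ν a := by
  linarith [h.Qt_add_Tl k a, Tl_nonneg (ν := ν) k a]

theorem abs_tr_le {k : ℕ} {a : ℂ} {Λ : ℝ} (ha : ‖a‖ ≤ Λ / sq1 k) (x : ℂ) :
    |(tr k x * a).re| ≤ Λ := by
  have h1 := sq1_pos k
  refine (abs_re_mul_le _ _).trans ?_
  calc ‖tr k x‖ * ‖a‖ ≤ sq1 k * (Λ / sq1 k) :=
        mul_le_mul (norm_tr_le k x) ha (norm_nonneg _) h1.le
    _ = Λ := by field_simp

theorem Law.int_exp (h : Law ν) {k : ℕ} {a : ℂ} {Λ : ℝ} (ha : ‖a‖ ≤ Λ / sq1 k) :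
    Integrable (fun x => Real.exp (tr k x * a).re) ν :=
  h.int_of_bdd (by fun_prop) (Real.exp Λ) fun x => by
    rw [abs_of_pos (Real.exp_pos _)]
    exact Real.exp_le_exp.2 ((le_abs_self _).trans (abs_tr_le ha x))

theorem Law.mg_taylor (h : Law ν) {k : ℕ} {a : ℂ} {Λ : ℝ} (hΛ : 0 ≤ Λ) (ha : ‖a‖ ≤ Λ / sq1 k) :
    |mg ν k a - (1 + Qt ν k a / 2)| ≤ (Λ + Λ ^ 3 * Real.exp Λ) * ∫ x, er k x ∂ν := by
  have := h.prob
  have hs := sq1_pos k
  have i0 := h.int_exp ha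
  have i1 : Integrable (fun x => (tr k x * a).re) ν :=
    h.int_of_bdd (by fun_prop) Λ (abs_tr_le ha)
  have i1' : Integrable (fun x => (tl k x * a).re) ν :=
    h.int_of_le_norm (by fun_prop) ‖a‖ fun x => (abs_re_mul_le _ _).trans (by
      rw [mul_comm]; exact mul_le_mul_of_nonneg_left (norm_tl_le' k x) (norm_nonneg _))
  have i2 : Integrable (fun x => (tr k x * a).re ^ 2) ν :=
    h.int_of_le_sq (by fun_prop) _ fun x => re_sq_le _ a x (norm_tr_le' k x)
  have hmean : ∫ x, ((tr k x * a).re + (tl k x * a).re) ∂ν = 0 := by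
    have e : ∀ x, (tr k x * a).re + (tl k x * a).re = (x * a).re := fun x => by
      rw [← Complex.add_re, ← add_mul, tr_add_tl]
    simp_rw [e]
    have := integral_re (𝕜 := ℂ) (h.int_id.mul_const a)
    simp only [RCLike.re_to_complex] at this
    rw [this, integral_mul_const, h.mean]; simp
  have e1 : mg ν k a - (1 + Qt ν k a / 2) =
      ∫ x, ((Real.exp (tr k x * a).re - (1 + (tr k x * a).re + (tr k x * a).re ^ 2 / 2))
        - (tl k x * a).re) ∂ν := by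
    rw [integral_add i1 i1'] at hmean
    have j1 : Integrable (fun x => 1 + (tr k x * a).re) ν := (integrable_const 1).add i1
    have j2 : Integrable (fun x => 1 + (tr k x * a).re + (tr k x * a).re ^ 2 / 2) ν :=
      j1.add (i2.div_const 2)
    have j3 : Integrable (fun x => Real.exp (tr k x * a).re -
      (1 + (tr k x * a).re + (tr k x * a).re ^ 2 / 2)) ν := i0.sub j2
    rw [integral_sub j3 i1', integral_sub i0 j2, integral_add j1 (i2.div_const 2),
      integral_add (integrable_const 1) i1, integral_div]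
    simp only [mg, Qt, integral_const, probReal_univ, smul_eq_mul, mul_one]
    linarith
  rw [e1, ← integral_const_mul]
  refine abs_integral_le_integral_abs.trans (integral_mono
    ((i0.sub (((integrable_const 1).add i1).add (i2.div_const 2))).sub i1').abs
    ((h.int_er k).const_mul _) fun x => ?_)
  have t1 := exp_taylor _ Λ (abs_tr_le ha x)
  have t2 : |(tr k x * a).re| ≤ Λ * (‖tr k x‖ / sq1 k) :=
    (abs_re_mul_le _ _).trans (by
      calc ‖tr k x‖ * ‖a‖ ≤ ‖tr k x‖ * (Λ / sq1 k) :=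
            mul_le_mul_of_nonneg_left ha (norm_nonneg _)
        _ = _ := by ring)
  have t3 : |(tl k x * a).re| ≤ Λ * (‖tl k x‖ / sq1 k) :=
    (abs_re_mul_le _ _).trans (by
      calc ‖tl k x‖ * ‖a‖ ≤ ‖tl k x‖ * (Λ / sq1 k) :=
            mul_le_mul_of_nonneg_left ha (norm_nonneg _)
        _ = _ := by ring)
  have t4 : |(tr k x * a).re| ^ 3 ≤ Λ ^ 3 * (‖tr k x‖ ^ 3 / sq1 k ^ 3) := by
    rw [← div_pow, ← mul_pow]
    exact pow_le_pow_left₀ (abs_nonneg _) t2 3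
  have t5 := mul_le_mul_of_nonneg_right t4 (Real.exp_pos Λ).le
  have p1 : 0 ≤ ‖tl k x‖ / sq1 k := by positivity
  have p2 : 0 ≤ ‖tr k x‖ ^ 3 / sq1 k ^ 3 := by positivity
  have p3 : 0 ≤ Λ ^ 3 * Real.exp Λ := by positivity
  dsimp only
  refine (abs_sub _ _).trans ?_
  unfold er
  nlinarith [mul_nonneg p3 p1, mul_nonneg hΛ p2]

/-- the constant in the one-step estimate -/
noncomputable def cst (Λ : ℝ) : ℝ :=
  (Λ + Λ ^ 3 * Real.exp Λ + Λ ^ 4) * Real.exp (Λ + Λ ^ 2)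

theorem cst_nonneg {Λ : ℝ} (hΛ : 0 ≤ Λ) : 0 ≤ cst Λ := by unfold cst; positivity

theorem Law.mg_le (h : Law ν) {k : ℕ} {a : ℂ} {Λ : ℝ} (hΛ : 0 ≤ Λ) (ha : ‖a‖ ≤ Λ / sq1 k) :
    mg ν k a ≤ Real.exp (Qt ν k a / 2 + cst Λ * rho ν k) := by
  have h1 := (abs_le.1 (h.mg_taylor hΛ ha)).2
  have h2 := Real.add_one_le_exp (Qt ν k a / 2 + cst Λ * rho ν k)
  have h3 : 0 ≤ ∫ x, er k x ∂ν := integral_nonneg (er_nonneg k)
  have h4 : ∫ x, er k x ∂ν ≤ rho ν k := le_add_of_nonneg_right (by positivity)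
  have h5 : Λ + Λ ^ 3 * Real.exp Λ ≤ cst Λ := by
    have : 1 ≤ Real.exp (Λ + Λ ^ 2) := Real.one_le_exp (by positivity)
    have p : 0 ≤ Λ + Λ ^ 3 * Real.exp Λ := by positivity
    have p' : 0 ≤ Λ ^ 4 := by positivity
    unfold cst; nlinarith
  have h6 := mul_le_mul h5 h4 h3 (cst_nonneg hΛ)
  linarith

theorem Law.le_mg (h : Law ν) {k : ℕ} {a : ℂ} {Λ : ℝ} (hΛ : 0 ≤ Λ) (ha : ‖a‖ ≤ Λ / sq1 k) :
    Real.exp (Qt ν k a / 2 - cst Λ * rho ν k) ≤ mg ν k a := by
  have := h.prob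
  have hs := sq1_pos k
  have h1 := (abs_le.1 (h.mg_taylor hΛ ha)).1
  set s := Qt ν k a / 2 with hsdef
  set E := ∫ x, er k x ∂ν with hE
  have hE0 : 0 ≤ E := integral_nonneg (er_nonneg k)
  have hs0 : 0 ≤ s := div_nonneg (Qt_nonneg k a) (by norm_num)
  have hsle : s ≤ Λ ^ 2 / ((k : ℝ) + 1) := by
    have e1 := (h.Qt_le k a).trans (h.Q_le a)
    have e2 : ‖a‖ ^ 2 ≤ (Λ / sq1 k) ^ 2 := pow_le_pow_left₀ (norm_nonneg _) ha 2
    rw [div_pow, sq1_sq] at e2
    have e3 := Qt_nonneg (ν := ν) k a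
    linarith
  have hk : (1 : ℝ) ≤ (k : ℝ) + 1 := by linarith [Nat.cast_nonneg (α := ℝ) k]
  have hsΛ : s ≤ Λ ^ 2 := hsle.trans (div_le_self (by positivity) hk)
  have hs2 : s ^ 2 ≤ Λ ^ 4 * (1 / ((k : ℝ) + 1) ^ 2) := by
    calc s ^ 2 ≤ (Λ ^ 2 / ((k : ℝ) + 1)) ^ 2 := pow_le_pow_left₀ hs0 hsle 2
      _ = _ := by field_simp
  have hlow : Real.exp (-Λ) ≤ mg ν k a := by
    have : ∫ _x, Real.exp (-Λ) ∂ν ≤ mg ν k a :=
      integral_mono (integrable_const _) (h.int_exp ha) fun x =>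
        Real.exp_le_exp.2 (abs_le.1 (abs_tr_le ha x)).1
    simpa using this
  set B := mg ν k a * Real.exp (-s) with hB
  set c := Real.exp (-(Λ + Λ ^ 2)) with hc
  have hc0 : 0 < c := Real.exp_pos _
  have hBc : c ≤ B := by
    calc c ≤ Real.exp (-Λ) * Real.exp (-s) := by
          rw [← Real.exp_add]; exact Real.exp_le_exp.2 (by linarith)
      _ ≤ B := mul_le_mul_of_nonneg_right hlow (Real.exp_pos _).le
  set v := (Λ + Λ ^ 3 * Real.exp Λ + Λ ^ 4) * rho ν k with hv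
  have p : 0 ≤ Λ + Λ ^ 3 * Real.exp Λ := by positivity
  have hBv : 1 - v ≤ B := by
    have e1 : 1 - s ≤ Real.exp (-s) := by linarith [Real.add_one_le_exp (-s)]
    have e2 : Real.exp (-s) ≤ 1 := Real.exp_le_one_iff.2 (by linarith)
    have e3 : (1 + s - (Λ + Λ ^ 3 * Real.exp Λ) * E) * Real.exp (-s) ≤ B :=
      mul_le_mul_of_nonneg_right (by linarith) (Real.exp_pos _).le
    have e4 : (1 + s) * (1 - s) ≤ (1 + s) * Real.exp (-s) :=
      mul_le_mul_of_nonneg_left e1 (by linarith)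
    have e5 : (Λ + Λ ^ 3 * Real.exp Λ) * E * Real.exp (-s) ≤ (Λ + Λ ^ 3 * Real.exp Λ) * E :=
      mul_le_of_le_one_right (mul_nonneg p hE0) e2
    have p2 : 0 ≤ 1 / ((k : ℝ) + 1) ^ 2 := by positivity
    have p3 : 0 ≤ Λ ^ 4 := by positivity
    have e6 : v = (Λ + Λ ^ 3 * Real.exp Λ + Λ ^ 4) * (E + 1 / ((k : ℝ) + 1) ^ 2) := rfl
    nlinarith [mul_nonneg p p2, mul_nonneg p3 hE0]
  have hv0 : 0 ≤ v := mul_nonneg (by positivity) (rho_nonneg k)
  have hB0 : 0 < B := hc0.trans_le hBc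
  have hfin : -(v / c) ≤ Real.log B := by
    have e1 := Real.one_sub_inv_le_log_of_pos hB0
    have e2 : -(v / B) ≤ 1 - B⁻¹ := by
      rw [show 1 - B⁻¹ = (B - 1) / B by field_simp, ← neg_div]
      exact div_le_div_of_nonneg_right (by linarith) hB0.le
    have e3 : v / B ≤ v / c := div_le_div_of_nonneg_left hv0 hc0 hBc
    linarith
  have hvc : v / c = cst Λ * rho ν k := by
    rw [hv, hc, Real.exp_neg, cst]; field_simp
  rw [hvc, Real.le_log_iff_exp_le hB0] at hfin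
  calc Real.exp (s - cst Λ * rho ν k) = Real.exp (-(cst Λ * rho ν k)) * Real.exp s := by
        rw [← Real.exp_add]; ring_nf
    _ ≤ B * Real.exp s := mul_le_mul_of_nonneg_right hfin (Real.exp_pos _).le
    _ = mg ν k a := by rw [hB, mul_assoc, ← Real.exp_add]; simp

end Pool.Agent.P.MP_ab74d4_pr
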