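import Pool.Agent.P.MP_ab74d4_pr.Defs
import Pool.Agent.P.MP_ab74d4_pr.Step

/-!
The product formula for exponential moments and the decomposition of the density of `chaos`.
-/

namespace Pool.Agent.P.MP_ab74d4_pr

open MeasureTheory ProbabilityTheory Filter Topology Finset
open scoped ENNReal

variable {Ω : Type*} [MeasurableSpace Ω] {P : Measure Ω} {ξ : ℕ → Ω → ℂ}

theorem IsCoeff.prob (h : IsCoeff P ξ) : IsProbabilityMeasure P := h.1
theorem IsCoeff.meas (h : IsCoeff P ξ) (k : ℕ) : Measurable (ξ k) := h.2.1 k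
theorem IsCoeff.ind (h : IsCoeff P ξ) : iIndepFun ξ P := h.2.2.1

theorem IsCoeff.map_eq (h : IsCoeff P ξ) (k : ℕ) : P.map (ξ k) = P.map (ξ 0) :=
  (h.2.2.2.1 k).map_eq

theorem IsCoeff.law (h : IsCoeff P ξ) : Law (P.map (ξ 0)) := by
  have := h.prob
  have hm := h.meas 0
  refine ⟨Measure.isProbabilityMeasure_map hm.aemeasurable, ?_, ?_, ?_⟩
  · rw [integrable_map_measure (by fun_prop) hm.aemeasurable]
    exact h.2.2.2.2.1.integrable_norm_pow (by norm_num)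
  · rw [integral_map hm.aemeasurable (by fun_prop)]; exact h.2.2.2.2.2.1
  · rw [integral_map hm.aemeasurable (by fun_prop)]; exact h.2.2.2.2.2.2

theorem IsCoeff.lint (h : IsCoeff P ξ) (k : ℕ) {g : ℂ → ℝ≥0∞} (hg : Measurable g) :
    ∫⁻ ω, g (ξ k ω) ∂P = ∫⁻ x, g x ∂(P.map (ξ 0)) := by
  rw [← h.map_eq k, lintegral_map hg (h.meas k)]

theorem IsCoeff.lint_exp (h : IsCoeff P ξ) {k : ℕ} {a : ℂ} {Λ : ℝ} (ha : ‖a‖ ≤ Λ / sq1 k) :
    ∫⁻ ω, ENNReal.ofReal (Real.exp (tr k (ξ k ω) * a).re) ∂P =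
      ENNReal.ofReal (mg (P.map (ξ 0)) k a) := by
  rw [h.lint k (g := fun x => ENNReal.ofReal (Real.exp (tr k x * a).re)) (by fun_prop), mg,
    ofReal_integral_eq_lintegral_ofReal (h.law.int_exp ha)
      (ae_of_all _ fun x => (Real.exp_pos _).le)]

theorem IsCoeff.master_eq (h : IsCoeff P ξ) (S : Finset ℕ) {a : ℕ → ℂ} {Λ : ℝ}
    (ha : ∀ k ∈ S, ‖a k‖ ≤ Λ / sq1 k) :
    ∫⁻ ω, ENNReal.ofReal (Real.exp (∑ k ∈ S, (tr k (ξ k ω) * a k).re)) ∂P =
      ∏ k ∈ S, ENNReal.ofReal (mg (P.map (ξ 0)) k (a k)) := by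
  have hm := h.meas
  have e : ∀ ω, ENNReal.ofReal (Real.exp (∑ k ∈ S, (tr k (ξ k ω) * a k).re)) =
      ∏ k ∈ S, ENNReal.ofReal (Real.exp (tr k (ξ k ω) * a k).re) := fun ω => by
    rw [Real.exp_sum, ENNReal.ofReal_prod_of_nonneg fun _ _ => (Real.exp_pos _).le]
  simp_rw [e]
  rw [lintegral_prod_eq_prod_lintegral_of_indepFun S
    (fun k ω => ENNReal.ofReal (Real.exp (tr k (ξ k ω) * a k).re))
    (h.ind.comp (fun k x => ENNReal.ofReal (Real.exp (tr k x * a k).re)) (fun k => by fun_prop))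
    (fun k => by fun_prop)]
  exact Finset.prod_congr rfl fun k hk => h.lint_exp (ha k hk)

theorem IsCoeff.master_le (h : IsCoeff P ξ) (S : Finset ℕ) {a : ℕ → ℂ} {Λ : ℝ} (hΛ : 0 ≤ Λ)
    (ha : ∀ k ∈ S, ‖a k‖ ≤ Λ / sq1 k) :
    ∫⁻ ω, ENNReal.ofReal (Real.exp (∑ k ∈ S, (tr k (ξ k ω) * a k).re)) ∂P ≤
      ENNReal.ofReal (Real.exp (∑ k ∈ S, Qt (P.map (ξ 0)) k (a k) / 2 + 8 * cst Λ)) := by
  rw [h.master_eq S ha]
  calc ∏ k ∈ S, ENNReal.ofReal (mg (P.map (ξ 0)) k (a k))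
      ≤ ∏ k ∈ S, ENNReal.ofReal (Real.exp (Qt (P.map (ξ 0)) k (a k) / 2 +
          cst Λ * rho (P.map (ξ 0)) k)) :=
        Finset.prod_le_prod' fun k hk => ENNReal.ofReal_le_ofReal (h.law.mg_le hΛ (ha k hk))
    _ ≤ _ := by
        rw [← ENNReal.ofReal_prod_of_nonneg fun _ _ => (Real.exp_pos _).le, ← Real.exp_sum,
          Finset.sum_add_distrib, ← Finset.mul_sum]
        refine ENNReal.ofReal_le_ofReal (Real.exp_le_exp.2 ?_)
        have := mul_le_mul_of_nonneg_left (h.law.sum_rho S) (cst_nonneg hΛ)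
        linarith

theorem IsCoeff.master_le' (h : IsCoeff P ξ) (S : Finset ℕ) {a : ℕ → ℂ} {Λ : ℝ} (hΛ : 0 ≤ Λ)
    (ha : ∀ k ∈ S, ‖a k‖ ≤ Λ / sq1 k) :
    ∫⁻ ω, ENNReal.ofReal (Real.exp (∑ k ∈ S, (tr k (ξ k ω) * a k).re)) ∂P ≤
      ENNReal.ofReal (Real.exp (∑ k ∈ S, Q (P.map (ξ 0)) (a k) / 2 + 8 * cst Λ)) := by
  refine (h.master_le S hΛ ha).trans (ENNReal.ofReal_le_ofReal (Real.exp_le_exp.2 ?_))
  gcongr with k hk
  exact h.law.Qt_le k _

theorem IsCoeff.master_ge (h : IsCoeff P ξ) (S : Finset ℕ) {a : ℕ → ℂ} {Λ : ℝ} (hΛ : 0 ≤ Λ)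
    (ha : ∀ k ∈ S, ‖a k‖ ≤ Λ / sq1 k) :
    ENNReal.ofReal (Real.exp (∑ k ∈ S, Qt (P.map (ξ 0)) k (a k) / 2 - 8 * cst Λ)) ≤
      ∫⁻ ω, ENNReal.ofReal (Real.exp (∑ k ∈ S, (tr k (ξ k ω) * a k).re)) ∂P := by
  rw [h.master_eq S ha]
  calc _ ≤ ∏ k ∈ S, ENNReal.ofReal (Real.exp (Qt (P.map (ξ 0)) k (a k) / 2 -
          cst Λ * rho (P.map (ξ 0)) k)) := by
        rw [← ENNReal.ofReal_prod_of_nonneg fun _ _ => (Real.exp_pos _).le, ← Real.exp_sum,
          Finset.sum_sub_distrib, ← Finset.mul_sum]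
        refine ENNReal.ofReal_le_ofReal (Real.exp_le_exp.2 ?_)
        have := mul_le_mul_of_nonneg_left (h.law.sum_rho S) (cst_nonneg hΛ)
        linarith
    _ ≤ _ := Finset.prod_le_prod' fun k hk => ENNReal.ofReal_le_ofReal (h.law.le_mg hΛ (ha k hk))

/-- the coefficient `γ z^(k+1) / √(k+1)` -/
noncomputable def bb (γ : ℝ) (k : ℕ) (z : ℂ) : ℂ := ((γ / sq1 k : ℝ) : ℂ) * z ^ (k + 1)

theorem norm_bb {γ : ℝ} (hγ : 0 ≤ γ) (k : ℕ) {z : ℂ} (hz : ‖z‖ = 1) :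
    ‖bb γ k z‖ = γ / sq1 k := by
  have := sq1_pos k
  rw [bb, norm_mul, norm_pow, hz, one_pow, mul_one, Complex.norm_real, Real.norm_eq_abs,
    abs_of_nonneg (by positivity)]

@[fun_prop] theorem continuous_bb (γ : ℝ) (k : ℕ) : Continuous (bb γ k) := by
  unfold bb; fun_prop

/-- the point of the unit circle attached to `θ` -/
noncomputable def ez (θ : UnitAddCircle) : ℂ := (AddCircle.toCircle θ : ℂ)

theorem norm_ez (θ : UnitAddCircle) : ‖ez θ‖ = 1 := Circle.norm_coe _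

@[fun_prop] theorem continuous_ez : Continuous ez :=
  continuous_subtype_val.comp AddCircle.continuous_toCircle

@[fun_prop] theorem measurable_ez : Measurable ez := continuous_ez.measurable

theorem ez_coe (t : ℝ) : ez (t : UnitAddCircle) = Complex.exp (2 * Real.pi * t * Complex.I) := by
  rw [ez, AddCircle.toCircle_apply_mk, Circle.coe_exp]
  congr 1; push_cast; ring

theorem re_sq_eq (w : ℂ) : w.re ^ 2 = ‖w‖ ^ 2 / 2 + (w ^ 2).re / 2 := by
  rw [Complex.sq_norm, Complex.normSq_apply, sq w, Complex.mul_re]; ring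

/-- the pseudo-variance -/
noncomputable def tau (ν : Measure ℂ) : ℂ := ∫ x, x ^ 2 ∂ν

theorem Law.int_sq {ν : Measure ℂ} (h : Law ν) : Integrable (fun x : ℂ => x ^ 2) ν :=
  Integrable.mono' h.sq (by fun_prop) (ae_of_all _ fun x => by simp)

theorem Law.norm_tau {ν : Measure ℂ} (h : Law ν) : ‖tau ν‖ ≤ 1 := by
  refine (norm_integral_le_integral_norm _).trans ?_
  simp [h.var]

theorem Law.Q_eq {ν : Measure ℂ} (h : Law ν) (a : ℂ) :
    Q ν a = ‖a‖ ^ 2 / 2 + (tau ν * a ^ 2).re / 2 := by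
  have e : ∀ x : ℂ, (x * a).re ^ 2 = ‖x‖ ^ 2 * (‖a‖ ^ 2 / 2) + (x ^ 2 * a ^ 2).re / 2 := fun x => by
    rw [re_sq_eq, norm_mul, mul_pow, mul_pow]; ring
  have i1 : Integrable (fun x : ℂ => (x ^ 2 * a ^ 2).re) ν := (h.int_sq.mul_const _).re
  have := integral_re (𝕜 := ℂ) (h.int_sq.mul_const (a ^ 2))
  simp only [RCLike.re_to_complex] at this
  unfold Q
  simp_rw [e]
  rw [integral_add (h.sq.mul_const _) (i1.div_const 2), integral_mul_const, integral_div, h.var,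
    this, integral_mul_const, one_mul, tau]

theorem Law.continuous_Q {ν : Measure ℂ} (h : Law ν) : Continuous (Q ν) := by
  have : Q ν = fun a => ‖a‖ ^ 2 / 2 + (tau ν * a ^ 2).re / 2 := funext h.Q_eq
  rw [this]; fun_prop

/-- the truncated field over a set of frequencies -/
noncomputable def Yf (ξ : ℕ → Ω → ℂ) (γ : ℝ) (S : Finset ℕ) (ω : Ω) (z : ℂ) : ℝ :=
  ∑ k ∈ S, (tr k (ξ k ω) * bb γ k z).re

/-- the tail field -/
noncomputable def Sf (ξ : ℕ → Ω → ℂ) (γ : ℝ) (S : Finset ℕ) (ω : Ω) (z : ℂ) : ℝ :=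
  ∑ k ∈ S, (tl k (ξ k ω) * bb γ k z).re

/-- the normalisation -/
noncomputable def Vf (ν : Measure ℂ) (γ : ℝ) (S : Finset ℕ) (z : ℂ) : ℝ :=
  ∑ k ∈ S, Q ν (bb γ k z) / 2

/-- the truncated density -/
noncomputable def Df (ν : Measure ℂ) (ξ : ℕ → Ω → ℂ) (γ : ℝ) (S : Finset ℕ) (ω : Ω) (z : ℂ) : ℝ :=
  Real.exp (Yf ξ γ S ω z - Vf ν γ S z)

omit [MeasurableSpace Ω] in
theorem mul_reP (ξ : ℕ → Ω → ℂ) (γ : ℝ) (n : ℕ) (θ : UnitAddCircle) (ω : Ω) :
    γ * reP ξ n θ ω = ∑ k ∈ range n, (ξ k ω * bb γ k (ez θ)).re := by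
  rw [reP, Complex.re_sum, Finset.mul_sum]
  refine Finset.sum_congr rfl fun k _ => ?_
  rw [← Complex.re_ofReal_mul]
  congr 1
  simp only [bb, ez, sq1]
  push_cast; ring

theorem IsCoeff.memLp_re (h : IsCoeff P ξ) (k : ℕ) (a : ℂ) :
    MemLp (fun ω => (ξ k ω * a).re) 2 P := by
  have h1 : MemLp (ξ k) 2 P := (h.2.2.2.1 k).symm.memLp_snd h.2.2.2.2.1
  exact (h1.mul_const a).re

theorem IsCoeff.var_re (h : IsCoeff P ξ) (k : ℕ) (a : ℂ) :
    variance (fun ω => (ξ k ω * a).re) P = Q (P.map (ξ 0)) a := by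
  have := h.prob
  have hm := h.meas k
  have hmean : ∫ ω, (ξ k ω * a).re ∂P = 0 := by
    rw [← integral_map (f := fun x : ℂ => (x * a).re) hm.aemeasurable (by fun_prop), h.map_eq k]
    have := integral_re (𝕜 := ℂ) (h.law.int_id.mul_const a)
    simp only [RCLike.re_to_complex] at this
    rw [this, integral_mul_const, h.law.mean]; simp
  rw [variance_of_integral_eq_zero (by fun_prop) hmean, Q, ← h.map_eq k,
    integral_map hm.aemeasurable (by fun_prop)]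

theorem IsCoeff.var_reP (h : IsCoeff P ξ) (γ : ℝ) (n : ℕ) (θ : UnitAddCircle) :
    γ ^ 2 / 2 * variance (reP ξ n θ) P = Vf (P.map (ξ 0)) γ (range n) (ez θ) := by
  have e : γ ^ 2 * variance (reP ξ n θ) P = variance (fun ω => γ * reP ξ n θ ω) P :=
    (variance_const_mul γ _ P).symm
  have e2 : (fun ω => γ * reP ξ n θ ω) = ∑ k ∈ range n, fun ω => (ξ k ω * bb γ k (ez θ)).re := by
    ext ω; rw [mul_reP, Finset.sum_apply]
  rw [e2, IndepFun.variance_sum (fun k _ => h.memLp_re k _) (fun i _ j _ hij =>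
    (h.ind.indepFun hij).comp (φ := fun x => (x * bb γ i (ez θ)).re)
      (ψ := fun x => (x * bb γ j (ez θ)).re) (by fun_prop) (by fun_prop))] at e
  simp only [h.var_re] at e
  rw [Vf, ← Finset.sum_div, ← e]; ring

theorem IsCoeff.chaos_eq (h : IsCoeff P ξ) (γ : ℝ) (n : ℕ) (ω : Ω) :
    chaos P ξ γ n ω = volume.withDensity fun θ => ENNReal.ofReal
      (Real.exp (Sf ξ γ (range n) ω (ez θ)) * Df (P.map (ξ 0)) ξ γ (range n) ω (ez θ)) := by
  unfold chaos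
  congr 1
  ext θ
  rw [h.var_reP, mul_reP, Df, ← Real.exp_add, Yf, Sf]
  congr 2
  rw [← add_sub_assoc, ← Finset.sum_add_distrib]
  congr 1
  refine Finset.sum_congr rfl fun k _ => ?_
  rw [← Complex.add_re, ← add_mul, add_comm (tl k _), tr_add_tl]

omit [MeasurableSpace Ω] in
theorem Df_pos (ν : Measure ℂ) (ξ : ℕ → Ω → ℂ) (γ : ℝ) (S : Finset ℕ) (ω : Ω) (z : ℂ) :
    0 < Df ν ξ γ S ω z := Real.exp_pos _

omit [MeasurableSpace Ω] in
theorem continuous_Yf (ξ : ℕ → Ω → ℂ) (γ : ℝ) (S : Finset ℕ) (ω : Ω) :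
    Continuous (Yf ξ γ S ω) := by
  unfold Yf; fun_prop

omit [MeasurableSpace Ω] in
theorem continuous_Sf (ξ : ℕ → Ω → ℂ) (γ : ℝ) (S : Finset ℕ) (ω : Ω) :
    Continuous (Sf ξ γ S ω) := by
  unfold Sf; fun_prop

theorem Law.continuous_Vf {ν : Measure ℂ} (h : Law ν) (γ : ℝ) (S : Finset ℕ) :
    Continuous (Vf ν γ S) := by
  have := h.continuous_Q
  unfold Vf; fun_prop

omit [MeasurableSpace Ω] in
theorem Law.continuous_Df {ν : Measure ℂ} (h : Law ν) (ξ : ℕ → Ω → ℂ) (γ : ℝ) (S : Finset ℕ)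
    (ω : Ω) : Continuous (Df ν ξ γ S ω) := by
  have := h.continuous_Vf γ S
  have := continuous_Yf ξ γ S ω
  unfold Df; fun_prop

omit [MeasurableSpace Ω] in
/-- joint measurability, for any σ-algebra making the relevant coefficients measurable -/
theorem Law.measurable_Df {ν : Measure ℂ} (h : Law ν) {α : Type*} [MeasurableSpace α]
    (γ : ℝ) (S : Finset ℕ) {f : α → Ω} {g : α → ℂ}
    (hf : ∀ k ∈ S, Measurable fun x => ξ k (f x)) (hg : Measurable g) :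
    Measurable fun x => Df ν ξ γ S (f x) (g x) := by
  have h1 : Measurable fun x => Vf ν γ S (g x) := (h.continuous_Vf γ S).measurable.comp hg
  have h2 : Measurable fun x => Yf ξ γ S (f x) (g x) := by
    unfold Yf
    refine Finset.measurable_sum _ fun k hk => ?_
    have := hf k hk
    have := (continuous_bb γ k).measurable.comp hg
    exact Complex.measurable_re.comp (((measurable_tr k).comp (hf k hk)).mul this)
  exact Real.measurable_exp.comp (h2.sub h1)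

omit [MeasurableSpace Ω] in
theorem abs_Yf_le {γ : ℝ} (hγ : 0 ≤ γ) (S : Finset ℕ) (ω : Ω) {z : ℂ} (hz : ‖z‖ = 1) :
    |Yf ξ γ S ω z| ≤ S.card * γ := by
  refine (Finset.abs_sum_le_sum_abs _ _).trans ?_
  rw [← nsmul_eq_mul, ← Finset.sum_const]
  exact Finset.sum_le_sum fun k _ => abs_tr_le (norm_bb hγ k hz).le _

theorem Vf_nonneg (ν : Measure ℂ) (γ : ℝ) (S : Finset ℕ) (z : ℂ) : 0 ≤ Vf ν γ S z :=
  Finset.sum_nonneg fun _ _ => div_nonneg (Q_nonneg _) (by norm_num)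

theorem Law.Vf_le {ν : Measure ℂ} (h : Law ν) {γ : ℝ} (hγ : 0 ≤ γ) (S : Finset ℕ) {z : ℂ}
    (hz : ‖z‖ = 1) : Vf ν γ S z ≤ S.card * γ ^ 2 := by
  rw [← nsmul_eq_mul, ← Finset.sum_const]
  refine Finset.sum_le_sum fun k _ => ?_
  have h1 := h.Q_le (bb γ k z)
  rw [norm_bb hγ k hz] at h1
  have h2 : γ / sq1 k ≤ γ := div_le_self hγ (one_le_sq1 k)
  have h3 : (γ / sq1 k) ^ 2 ≤ γ ^ 2 := pow_le_pow_left₀ (div_nonneg hγ (sq1_pos k).le) h2 2
  nlinarith [sq_nonneg γ]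

omit [MeasurableSpace Ω] in
theorem Df_le (ν : Measure ℂ) {γ : ℝ} (hγ : 0 ≤ γ) (S : Finset ℕ) (ω : Ω) {z : ℂ}
    (hz : ‖z‖ = 1) : Df ν ξ γ S ω z ≤ Real.exp (S.card * γ) := by
  refine Real.exp_le_exp.2 ?_
  linarith [(abs_le.1 (abs_Yf_le (ξ := ξ) hγ S ω hz)).2, Vf_nonneg ν γ S z]

omit [MeasurableSpace Ω] in
theorem Law.le_Df {ν : Measure ℂ} (h : Law ν) {γ : ℝ} (hγ : 0 ≤ γ) (S : Finset ℕ) (ω : Ω) {z : ℂ}
    (hz : ‖z‖ = 1) : Real.exp (-(S.card * (γ + γ ^ 2))) ≤ Df ν ξ γ S ω z := by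
  refine Real.exp_le_exp.2 ?_
  linarith [(abs_le.1 (abs_Yf_le (ξ := ξ) hγ S ω hz)).1, h.Vf_le hγ S hz]

omit [MeasurableSpace Ω] in
theorem Df_union (ν : Measure ℂ) (ξ : ℕ → Ω → ℂ) (γ : ℝ) {S T : Finset ℕ} (hST : Disjoint S T)
    (ω : Ω) (z : ℂ) : Df ν ξ γ (S ∪ T) ω z = Df ν ξ γ S ω z * Df ν ξ γ T ω z := by
  simp only [Df, Yf, Vf, Finset.sum_union hST, ← Real.exp_add]
  congr 1; ring

/-- almost surely only finitely many coefficients are truncated -/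
theorem IsCoeff.ae_trunc (h : IsCoeff P ξ) : ∀ᵐ ω ∂P, ∀ᶠ k in atTop, tl k (ξ k ω) = 0 := by
  have hl := h.law
  have key : ∑' k : ℕ, P {ω | (k : ℝ) + 1 < ‖ξ k ω‖ ^ 2} ≠ ∞ := by
    have e : ∀ k : ℕ, P {ω | (k : ℝ) + 1 < ‖ξ k ω‖ ^ 2} =
        ∫⁻ x, Set.indicator {x : ℂ | (k : ℝ) + 1 < ‖x‖ ^ 2} 1 x ∂(P.map (ξ 0)) := fun k => by
      have hs : MeasurableSet {x : ℂ | (k : ℝ) + 1 < ‖x‖ ^ 2} :=
        measurableSet_lt measurable_const (by fun_prop)
      rw [lintegral_indicator_one hs, ← h.map_eq k, Measure.map_apply (h.meas k) hs]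
      rfl
    simp_rw [e]
    rw [← lintegral_tsum fun k => (measurable_one.indicator
      (measurableSet_lt measurable_const (by fun_prop))).aemeasurable]
    refine ne_top_of_le_ne_top hl.sq.lintegral_lt_top.ne (lintegral_mono fun x => ?_)
    refine ENNReal.tsum_le_of_sum_range_le fun N => ?_
    have : ∀ N : ℕ, ∑ k ∈ range N, Set.indicator {x : ℂ | (k : ℝ) + 1 < ‖x‖ ^ 2} 1 x ≤
        min (N : ℝ≥0∞) (ENNReal.ofReal (‖x‖ ^ 2)) := by
      intro N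
      induction N with
      | zero => simp
      | succ N ih =>
        rw [Finset.sum_range_succ]
        by_cases hx : (N : ℝ) + 1 < ‖x‖ ^ 2
        · rw [Set.indicator_of_mem (by exact hx)]
          have h1 : ((N + 1 : ℕ) : ℝ≥0∞) ≤ ENNReal.ofReal (‖x‖ ^ 2) := by
            rw [← ENNReal.ofReal_natCast]
            exact ENNReal.ofReal_le_ofReal (by push_cast; exact hx.le)
          rw [min_eq_left h1]
          push_cast
          exact add_le_add (ih.trans (min_le_left _ _)) le_rfl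
        · rw [Set.indicator_of_notMem (by exact hx), add_zero]
          exact ih.trans (min_le_min_right _ (by exact_mod_cast Nat.le_succ N))
    exact (this N).trans (min_le_right _ _)
  filter_upwards [ae_eventually_notMem key] with ω hω
  filter_upwards [hω] with k hk
  simp only [not_lt] at hk
  simp [tl, hk]

end Pool.Agent.P.MP_ab74d4_pr
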