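import Pool.Agent.P.MP_ab74d4_pr.Sums
import Pool.Agent.P.MP_ab74d4_pr.Dim

/-!
Moment bounds for the truncated chaos measure of a small arc.
-/

namespace Pool.Agent.P.MP_ab74d4_pr

open MeasureTheory ProbabilityTheory Filter Topology Finset
open scoped ENNReal

/-- the point `exp (2 π i t)` -/
noncomputable def et (t : ℝ) : ℂ := ez (t : UnitAddCircle)

theorem et_eq (t : ℝ) : et t = Complex.exp (2 * Real.pi * t * Complex.I) := ez_coe t

theorem norm_et (t : ℝ) : ‖et t‖ = 1 := norm_ez _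

@[fun_prop] theorem continuous_et : Continuous et := by
  have : et = fun t : ℝ => Complex.exp (2 * Real.pi * t * Complex.I) := funext et_eq
  rw [this]; fun_prop

theorem et_mul_conj (t t' : ℝ) :
    et t * (starRingEnd ℂ) (et t') = Complex.exp (Complex.I * ((2 * Real.pi * (t - t') : ℝ) : ℂ)) := by
  rw [et_eq, et_eq, ← Complex.exp_conj, ← Complex.exp_add]
  congr 1
  simp only [map_mul, Complex.conj_ofReal, Complex.conj_I, map_ofNat]
  push_cast; ring

theorem et_far {t t' : ℝ} (h : |t - t'| ≤ 1 / 2) :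
    4 * |t - t'| ≤ ‖1 - et t * (starRingEnd ℂ) (et t')‖ := by
  rw [et_mul_conj, norm_sub_rev, Complex.norm_exp_I_mul_ofReal_sub_one, Real.norm_eq_abs, abs_mul,
    show 2 * Real.pi * (t - t') / 2 = Real.pi * (t - t') by ring]
  have hp := Real.pi_pos
  have h1 := Real.mul_abs_le_abs_sin (x := Real.pi * (t - t')) (by
    rw [abs_mul, abs_of_pos hp]; nlinarith)
  rw [abs_mul, abs_of_pos hp] at h1
  have h2 : 2 / Real.pi * (Real.pi * |t - t'|) = 2 * |t - t'| := by field_simp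
  rw [abs_two]; linarith

theorem et_lip (t t' : ℝ) : ‖et t - et t'‖ ≤ 7 * |t - t'| := by
  have h1 : ‖et t - et t'‖ = ‖et t * (starRingEnd ℂ) (et t') - 1‖ := by
    have h2 : et t' * (starRingEnd ℂ) (et t') = 1 := by
      rw [Complex.mul_conj, Complex.normSq_eq_norm_sq, norm_et]; simp
    rw [← h2, ← sub_mul, norm_mul, Complex.norm_conj, norm_et, mul_one]
  rw [h1, et_mul_conj]
  refine Real.norm_exp_I_mul_ofReal_sub_one_le.trans ?_
  rw [Real.norm_eq_abs, abs_mul, abs_of_pos (by positivity)]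
  have := Real.pi_lt_d2
  nlinarith [abs_nonneg (t - t')]

theorem hasDerivAt_bb (γ : ℝ) (k : ℕ) (t : ℝ) : HasDerivAt (fun t => bb γ k (et t))
    (bb γ k (et t) * (((2 * Real.pi * ((k : ℝ) + 1) : ℝ) : ℂ) * Complex.I)) t := by
  have e : (fun t : ℝ => bb γ k (et t)) = fun t : ℝ => ((γ / sq1 k : ℝ) : ℂ) *
      Complex.exp ((t : ℂ) * (((2 * Real.pi * ((k : ℝ) + 1) : ℝ) : ℂ) * Complex.I)) := by
    ext t
    rw [bb, et_eq, ← Complex.exp_nat_mul]
    congr 2; push_cast; ring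
  have h1 := (((hasDerivAt_id (t : ℂ)).mul_const
    (((2 * Real.pi * ((k : ℝ) + 1) : ℝ) : ℂ) * Complex.I)).cexp.const_mul
    ((γ / sq1 k : ℝ) : ℂ)).comp_ofReal
  rw [congrFun e t, e]
  exact h1.congr_deriv (by simp only [id_eq, one_mul, mul_assoc])

theorem lint_ball_le (F : UnitAddCircle → ℝ≥0∞) (s r : ℝ) :
    ∫⁻ θ in Metric.ball (s : UnitAddCircle) r, F θ ≤ ∫⁻ t in Set.Ioo (s - r) (s + r), F t := by
  rw [← lintegral_indicator measurableSet_ball, ← AddCircle.lintegral_preimage 1 (s - 1 / 2),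
    ← lintegral_indicator measurableSet_Ioo, ← lintegral_indicator measurableSet_Ioc]
  refine lintegral_mono fun t => ?_
  by_cases h1 : t ∈ Set.Ioc (s - 1 / 2) (s - 1 / 2 + 1)
  · rw [Set.indicator_of_mem h1]
    by_cases h2 : (t : UnitAddCircle) ∈ Metric.ball (s : UnitAddCircle) r
    · rw [Set.indicator_of_mem h2, Set.indicator_of_mem]
      rw [Metric.mem_ball, dist_eq_norm, ← AddCircle.coe_sub,
        (AddCircle.norm_coe_eq_abs_iff 1 one_ne_zero).2 (by
          rw [abs_one, abs_le]; constructor <;> linarith [h1.1, h1.2]), abs_lt] at h2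
      constructor <;> linarith [h2.1, h2.2]
    · rw [Set.indicator_of_notMem h2]; exact bot_le
  · rw [Set.indicator_of_notMem h1]; exact bot_le

theorem sup_le_int {F F' : ℝ → ℝ} (hF : ∀ x, HasDerivAt F (F' x) x) (hc : Continuous F')
    {a b s t : ℝ} (hs : s ∈ Set.Ioo a b) (ht : t ∈ Set.Ioo a b) (h0 : 0 ≤ F s) :
    ENNReal.ofReal (F t) ≤ ENNReal.ofReal (F s) + ∫⁻ x in Set.Ioo a b, ‖F' x‖ₑ := by
  have h1 := intervalIntegral.integral_eq_sub_of_hasDerivAt (a := s) (b := t)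
    (fun x _ => hF x) (hc.intervalIntegrable _ _)
  have h2 : ‖∫ x in s..t, F' x‖ₑ ≤ ∫⁻ x in Set.Ioo a b, ‖F' x‖ₑ := by
    rw [← ofReal_norm, intervalIntegral.norm_integral_eq_norm_integral_uIoc, ofReal_norm]
    refine (enorm_integral_le_lintegral_enorm _).trans (lintegral_mono_set fun x hx => ?_)
    exact ⟨(lt_min hs.1 ht.1).trans hx.1, hx.2.trans_lt (max_lt hs.2 ht.2)⟩
  refine le_trans ?_ (add_le_add_right h2 _)
  rw [h1, ← ofReal_norm, ← ENNReal.ofReal_add h0 (norm_nonneg _)]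
  exact ENNReal.ofReal_le_ofReal (by linarith [le_abs_self (F t - F s), Real.norm_eq_abs (F t - F s)])

theorem kernel_int {s L a t : ℝ} (hs1 : s < 1) (hL : 0 < L) (ht : t ∈ Set.Ioo a (a + L)) :
    ∫⁻ t' in Set.Ioo a (a + L), ENNReal.ofReal ((L / |t - t'|) ^ s) ≤
      ENNReal.ofReal (2 * (L / (1 - s))) := by
  set g : ℝ → ℝ≥0∞ := (Set.Ioo 0 L).indicator fun u => ENNReal.ofReal ((L / u) ^ s) with hg
  have hgm : Measurable g := Measurable.indicator (by fun_prop) measurableSet_Ioo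
  have hgi : ∫⁻ u, g u = ENNReal.ofReal (L / (1 - s)) := by
    rw [hg, lintegral_indicator measurableSet_Ioo]
    have e : ∀ u ∈ Set.Ioo 0 L, ENNReal.ofReal ((L / u) ^ s) =
        ENNReal.ofReal (L ^ s * u ^ (-s)) := fun u hu => by
      rw [Real.div_rpow hL.le hu.1.le, Real.rpow_neg hu.1.le, div_eq_mul_inv]
    have hi : IntervalIntegrable (fun u : ℝ => L ^ s * u ^ (-s)) volume 0 L :=
      (intervalIntegral.intervalIntegrable_rpow' (by linarith)).const_mul _
    rw [setLIntegral_congr_fun measurableSet_Ioo e, ← ofReal_integral_eq_lintegral_ofReal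
      ((intervalIntegrable_iff_integrableOn_Ioo_of_le hL.le).1 hi)
      ((ae_restrict_mem measurableSet_Ioo).mono fun u hu =>
        mul_nonneg (Real.rpow_nonneg hL.le _) (Real.rpow_nonneg hu.1.le _)),
      ← integral_Ioc_eq_integral_Ioo, ← intervalIntegral.integral_of_le hL.le,
      intervalIntegral.integral_const_mul, integral_rpow (Or.inl (by linarith)),
      Real.zero_rpow (by linarith), sub_zero, ← mul_div_assoc, ← Real.rpow_add hL]
    congr 2
    · simp
    · ring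
  calc ∫⁻ t' in Set.Ioo a (a + L), ENNReal.ofReal ((L / |t - t'|) ^ s)
      ≤ ∫⁻ t' in Set.Ioo a (a + L), (g (t - t') + g (t' - t)) := by
        refine lintegral_mono_ae ?_
        filter_upwards [ae_restrict_mem measurableSet_Ioo, ae_restrict_of_ae
          (Measure.ae_ne volume t)] with t' h1 h2
        rcases lt_or_gt_of_ne h2 with h | h
        · refine le_add_right ?_
          rw [hg, Set.indicator_of_mem (by constructor <;> linarith [h1.1, ht.2]),
            abs_of_pos (by linarith)]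
        · refine le_add_left ?_
          rw [hg, Set.indicator_of_mem (by constructor <;> linarith [h1.2, ht.1]),
            abs_sub_comm, abs_of_pos (by linarith)]
    _ ≤ ∫⁻ t', (g (t - t') + g (t' - t)) := setLIntegral_le_lintegral _ _
    _ = _ := by
        rw [lintegral_add_left (by fun_prop), lintegral_sub_left_eq_self g t,
          lintegral_sub_right_eq_self g t, hgi, ← ENNReal.ofReal_add (by
            have : 0 < 1 - s := by linarith
            positivity) (by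
            have : 0 < 1 - s := by linarith
            positivity), two_mul]

variable {Ω : Type*} [mΩ : MeasurableSpace Ω] {P : Measure Ω} {ξ : ℕ → Ω → ℂ}

/-- the mass of an interval for a block of frequencies -/
noncomputable def Zf (ν : Measure ℂ) (ξ : ℕ → Ω → ℂ) (γ : ℝ) (S : Finset ℕ) (J : Set ℝ) (ω : Ω) :
    ℝ≥0∞ := ∫⁻ t in J, ENNReal.ofReal (Df ν ξ γ S ω (et t))

omit mΩ in
theorem Law.measurable_Df_et {ν : Measure ℂ} (h : Law ν) (m' : MeasurableSpace Ω) (γ : ℝ)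
    (S : Finset ℕ) (hf : ∀ k ∈ S, Measurable (ξ k)) :
    Measurable fun p : Ω × ℝ => ENNReal.ofReal (Df ν ξ γ S p.1 (et p.2)) :=
  ENNReal.measurable_ofReal.comp (h.measurable_Df γ S (fun k hk => (hf k hk).comp measurable_fst)
    (continuous_et.measurable.comp measurable_snd))

omit mΩ in
theorem Law.measurable_Zf {ν : Measure ℂ} (h : Law ν) (m' : MeasurableSpace Ω) (γ : ℝ)
    (S : Finset ℕ) (J : Set ℝ) (hf : ∀ k ∈ S, Measurable (ξ k)) :
    Measurable (Zf ν ξ γ S J) :=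
  (h.measurable_Df_et m' γ S hf).lintegral_prod_right'

theorem IsCoeff.pair_moment (h : IsCoeff P ξ) {γ : ℝ} (hγ : 0 ≤ γ) {m n : ℕ}
    (hm : 1 ≤ m) (hmn : m ≤ n) {L t t' η : ℝ} (hL : L = 4 / m) (hL2 : L ≤ 1 / 2)
    (hγ2 : γ ^ 2 < 2) (htt : t ≠ t') (hd : |t - t'| < L) (hη : 0 < η)
    (hfar : η ≤ ‖1 - et t * et t'‖) :
    ∫⁻ ω, ENNReal.ofReal (Df (P.map (ξ 0)) ξ γ (Ico m n) ω (et t)) *
      ENNReal.ofReal (Df (P.map (ξ 0)) ξ γ (Ico m n) ω (et t')) ∂P ≤
      ENNReal.ofReal (2 * Real.exp (γ ^ 2 * (1 + 1 / η) + 8 * cst (2 * γ))) *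
        ENNReal.ofReal ((L / |t - t'|) ^ (γ ^ 2 / 2)) := by
  set ν := P.map (ξ 0) with hν
  have hl : Law ν := h.law
  have hm0 : (0 : ℝ) < m := by exact_mod_cast hm
  have hu : 0 < |t - t'| := abs_pos.2 (sub_ne_zero.2 htt)
  have hL0 : 0 < L := hu.trans hd
  have e : ∀ ω, ENNReal.ofReal (Df ν ξ γ (Ico m n) ω (et t)) *
      ENNReal.ofReal (Df ν ξ γ (Ico m n) ω (et t')) =
      ENNReal.ofReal (Real.exp (∑ k ∈ Ico m n,
        (tr k (ξ k ω) * (bb γ k (et t) + bb γ k (et t'))).re)) *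
      ENNReal.ofReal (Real.exp (- Vf ν γ (Ico m n) (et t) - Vf ν γ (Ico m n) (et t'))) := by
    intro ω
    rw [← ENNReal.ofReal_mul (Df_pos _ _ _ _ _ _).le, ← ENNReal.ofReal_mul (Real.exp_pos _).le,
      Df, Df, ← Real.exp_add, ← Real.exp_add]
    simp only [Yf, mul_add, Complex.add_re, Finset.sum_add_distrib]
    congr 2; ring
  simp_rw [e]
  rw [lintegral_mul_const' _ _ ENNReal.ofReal_ne_top]
  have hb : ∀ k ∈ Ico m n, ‖bb γ k (et t) + bb γ k (et t')‖ ≤ 2 * γ / sq1 k := fun k _ => by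
    refine (norm_add_le _ _).trans ?_
    rw [norm_bb hγ k (norm_et t), norm_bb hγ k (norm_et t')]
    exact le_of_eq (by ring)
  refine (mul_le_mul_left (h.master_le' (Ico m n) (by linarith) hb) _).trans ?_
  rw [← ENNReal.ofReal_mul (Real.exp_pos _).le, ← ENNReal.ofReal_mul (by positivity),
    ← Real.exp_add]
  refine ENNReal.ofReal_le_ofReal ?_
  have hf := et_far (t := t) (t' := t') (by linarith)
  have hne : et t * (starRingEnd ℂ) (et t') ≠ 1 := by
    intro h1; rw [h1] at hf; simp only [sub_self, norm_zero] at hf; linarith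
  have hp := hl.pair_le γ hm hmn (norm_et t) (norm_et t') hne hη hfar
  set x := 1 + 1 / (m * ‖1 - et t * (starRingEnd ℂ) (et t')‖) with hx
  have hx0 : 0 < x := by positivity
  have hx1 : x ≤ 2 * (L / |t - t'|) := by
    have h1 : 1 ≤ L / |t - t'| := by rw [le_div_iff₀ hu]; linarith
    have h2 : 1 / (m * ‖1 - et t * (starRingEnd ℂ) (et t')‖) ≤ L / |t - t'| := by
      rw [div_le_div_iff₀ (by have : 0 < ‖1 - et t * (starRingEnd ℂ) (et t')‖ := by linarith
                              positivity) hu, hL]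
      have : 4 / (m : ℝ) * (m * ‖1 - et t * (starRingEnd ℂ) (et t')‖) =
        4 * ‖1 - et t * (starRingEnd ℂ) (et t')‖ := by field_simp
      linarith
    linarith
  have h3 : Real.exp (γ ^ 2 / 2 * Real.log x) ≤ 2 * (L / |t - t'|) ^ (γ ^ 2 / 2) := by
    rw [mul_comm, ← Real.rpow_def_of_pos hx0]
    refine (Real.rpow_le_rpow hx0.le hx1 (by positivity)).trans ?_
    rw [Real.mul_rpow (by norm_num) (by positivity)]
    refine mul_le_mul_of_nonneg_right ?_ (by positivity)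
    exact (Real.rpow_le_rpow_of_exponent_le (by norm_num) (by linarith : γ ^ 2 / 2 ≤ 1)).trans
      (by simp)
  calc _ ≤ Real.exp (γ ^ 2 / 2 * Real.log x + (γ ^ 2 * (1 + 1 / η) + 8 * cst (2 * γ))) :=
        Real.exp_le_exp.2 (by linarith)
    _ ≤ _ := by
        rw [Real.exp_add]
        nlinarith [Real.exp_pos (γ ^ 2 * (1 + 1 / η) + 8 * cst (2 * γ))]

/-- the constant of the high-frequency bound -/
noncomputable def cHF (γ η : ℝ) : ℝ :=
  2 * Real.exp (γ ^ 2 * (1 + 1 / η) + 8 * cst (2 * γ)) * (2 / (1 - γ ^ 2 / 2))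

theorem second_moment [SFinite P] (d : Ω → ℝ → ℝ≥0∞) (hdm : Measurable fun p : Ω × ℝ => d p.1 p.2)
    {J : Set ℝ} (hJ : MeasurableSet J) (K : ℝ≥0∞)
    (hK : ∀ t ∈ J, ∫⁻ t' in J, ∫⁻ ω, d ω t * d ω t' ∂P ≤ K) :
    ∫⁻ ω, (∫⁻ t in J, d ω t) ^ 2 ∂P ≤ K * volume J := by
  have e : ∀ ω, (∫⁻ t in J, d ω t) ^ 2 = ∫⁻ t in J, ∫⁻ t' in J, d ω t * d ω t' := fun ω => by
    have : Measurable (d ω) := hdm.comp (measurable_const.prodMk measurable_id)
    rw [pow_two, lintegral_lintegral_mul this.aemeasurable this.aemeasurable]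
  simp_rw [e]
  have hm3 : Measurable fun p : (Ω × ℝ) × ℝ => d p.1.1 p.1.2 * d p.1.1 p.2 :=
    (hdm.comp measurable_fst).mul (hdm.comp ((measurable_fst.comp measurable_fst).prodMk
      measurable_snd))
  rw [lintegral_lintegral_swap (f := fun ω t => ∫⁻ t' in J, d ω t * d ω t')
    hm3.lintegral_prod_right'.aemeasurable, ← setLIntegral_const]
  refine setLIntegral_mono' hJ fun t ht => ?_
  have hm2 : Measurable fun p : Ω × ℝ => d p.1 t * d p.1 p.2 :=
    (hdm.comp (measurable_fst.prodMk measurable_const)).mul hdm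
  rw [lintegral_lintegral_swap (f := fun ω t' => d ω t * d ω t') hm2.aemeasurable]
  exact hK t ht

theorem IsCoeff.high_freq (h : IsCoeff P ξ) {γ : ℝ} (hγ : 0 ≤ γ) (hγ2 : γ ^ 2 < 2) {m n : ℕ}
    (hm : 1 ≤ m) (hmn : m ≤ n) {L a η : ℝ} (hL : L = 4 / m) (hL2 : L ≤ 1 / 2) (hη : 0 < η)
    (hfar : ∀ t ∈ Set.Ioo a (a + L), ∀ t' ∈ Set.Ioo a (a + L), η ≤ ‖1 - et t * et t'‖) :
    ∫⁻ ω, Zf (P.map (ξ 0)) ξ γ (Ico m n) (Set.Ioo a (a + L)) ω ^ 2 ∂P ≤
      ENNReal.ofReal (cHF γ η) * ENNReal.ofReal L ^ 2 := by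
  have := h.prob
  have hm0 : (0 : ℝ) < m := by exact_mod_cast hm
  have hL0 : 0 < L := by rw [hL]; positivity
  have hs : 0 < 1 - γ ^ 2 / 2 := by linarith
  refine (second_moment
    (fun ω t => ENNReal.ofReal (Df (P.map (ξ 0)) ξ γ (Ico m n) ω (et t)))
    (h.law.measurable_Df_et mΩ γ _ fun k _ => h.meas k) measurableSet_Ioo
    (ENNReal.ofReal (2 * Real.exp (γ ^ 2 * (1 + 1 / η) + 8 * cst (2 * γ))) *
      ENNReal.ofReal (2 * (L / (1 - γ ^ 2 / 2)))) fun t ht => ?_).trans (le_of_eq ?_)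
  · refine le_trans ?_ (mul_le_mul_right (kernel_int (by linarith) hL0 ht) _)
    rw [← lintegral_const_mul' _ _ ENNReal.ofReal_ne_top]
    refine lintegral_mono_ae ?_
    filter_upwards [ae_restrict_mem measurableSet_Ioo, ae_restrict_of_ae
      (Measure.ae_ne volume t)] with t' h1 h2
    exact h.pair_moment hγ hm hmn hL hL2 hγ2 h2.symm
      (by rw [abs_lt]; constructor <;> linarith [ht.1, ht.2, h1.1, h1.2]) hη (hfar t ht t' h1)
  · rw [Real.volume_Ioo, add_sub_cancel_left,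
      ← ENNReal.ofReal_mul (by positivity), ← ENNReal.ofReal_mul (by positivity),
      ← ENNReal.ofReal_pow hL0.le, ← ENNReal.ofReal_mul (by unfold cHF; positivity)]
    congr 1
    rw [cHF]; ring

end Pool.Agent.P.MP_ab74d4_pr
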