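import Pool.Agent.P.MP_ab74d4_pr.Master

/-!
Abel summation bounds for trigonometric sums and the resulting covariance bounds.
-/

namespace Pool.Agent.P.MP_ab74d4_pr

open MeasureTheory Filter Topology Finset

theorem abel_id (c : ℕ → ℂ) (u : ℂ) {m n : ℕ} (h : m ≤ n) :
    (1 - u) * ∑ k ∈ Ico m n, c k * u ^ (k + 1) =
      c m * u ^ (m + 1) + ∑ k ∈ Ico m n, (c (k + 1) - c k) * u ^ (k + 2) - c n * u ^ (n + 1) := by
  induction n, h using Nat.le_induction with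
  | base => simp
  | succ n hn ih => rw [Finset.sum_Ico_succ_top hn, Finset.sum_Ico_succ_top hn, mul_add, ih]; ring

theorem abel_le (c : ℕ → ℂ) (d : ℕ → ℝ) (h1 : ∀ k, ‖c k‖ ≤ d k)
    (h2 : ∀ k, ‖c (k + 1) - c k‖ ≤ d k - d (k + 1)) {u : ℂ} (hu : ‖u‖ = 1) (m n : ℕ) :
    ‖1 - u‖ * ‖∑ k ∈ Ico m n, c k * u ^ (k + 1)‖ ≤ 2 * d m := by
  rcases le_or_gt m n with h | h
  · rw [← norm_mul, abel_id c u h]
    have e : ∑ k ∈ Ico m n, (d k - d (k + 1)) = d m - d n := by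
      clear h1 h2
      induction n, h using Nat.le_induction with
      | base => simp
      | succ n hn ih => rw [Finset.sum_Ico_succ_top hn, ih]; ring
    have h3 : ‖∑ k ∈ Ico m n, (c (k + 1) - c k) * u ^ (k + 2)‖ ≤ d m - d n := by
      rw [← e]
      refine (norm_sum_le _ _).trans (Finset.sum_le_sum fun k _ => ?_)
      rw [norm_mul, norm_pow, hu, one_pow, mul_one]; exact h2 k
    have h4 : ∀ k, ‖c k * u ^ (k + 1)‖ ≤ d k := fun k => by
      rw [norm_mul, norm_pow, hu, one_pow, mul_one]; exact h1 k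
    refine (norm_sub_le _ _).trans ?_
    have := norm_add_le (c m * u ^ (m + 1)) (∑ k ∈ Ico m n, (c (k + 1) - c k) * u ^ (k + 2))
    linarith [h4 m, h4 n]
  · rw [Finset.Ico_eq_empty_of_le h.le]
    simpa using (norm_nonneg _).trans (h1 m)

/-- the basic trigonometric sum -/
noncomputable def ts (u : ℂ) (m n : ℕ) : ℂ := ∑ k ∈ Ico m n, ((1 / ((k : ℝ) + 1) : ℝ) : ℂ) * u ^ (k + 1)

theorem ts_abel {u : ℂ} (hu : ‖u‖ = 1) (m n : ℕ) : ‖1 - u‖ * ‖ts u m n‖ ≤ 2 / ((m : ℝ) + 1) := by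
  have := abel_le (fun k => ((1 / ((k : ℝ) + 1) : ℝ) : ℂ)) (fun k => 1 / ((k : ℝ) + 1))
    (fun k => by rw [Complex.norm_real, Real.norm_eq_abs, abs_of_nonneg (by positivity)])
    (fun k => by
      rw [← Complex.ofReal_sub, Complex.norm_real, Real.norm_eq_abs, abs_sub_comm, abs_of_nonneg]
      rw [sub_nonneg]
      exact one_div_le_one_div_of_le (by positivity) (by push_cast; linarith)) hu m n
  simpa [ts, div_eq_mul_inv] using this

theorem ts_le_of_far {u : ℂ} (hu : ‖u‖ = 1) {η : ℝ} (hη : 0 < η) (h : η ≤ ‖1 - u‖) (m n : ℕ) :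
    ‖ts u m n‖ ≤ 2 / η := by
  have h1 := ts_abel hu m n
  have h2 : 2 / ((m : ℝ) + 1) ≤ 2 :=
    div_le_self (by norm_num) (by linarith [Nat.cast_nonneg (α := ℝ) m])
  rw [le_div_iff₀ hη]
  nlinarith [norm_nonneg (ts u m n)]

/-- partial harmonic sums -/
noncomputable def Hs (m n : ℕ) : ℝ := ∑ k ∈ Ico m n, 1 / ((k : ℝ) + 1)

theorem Hs_le {m n : ℕ} (hm : 1 ≤ m) (h : m ≤ n) : Hs m n ≤ Real.log n - Real.log m := by
  induction n, h using Nat.le_induction with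
  | base => simp [Hs]
  | succ n hn ih =>
    have hn0 : (0 : ℝ) < n := by exact_mod_cast (by omega : 0 < n)
    rw [Hs, Finset.sum_Ico_succ_top hn]
    have h1 := Real.one_sub_inv_le_log_of_pos (show 0 < ((n : ℝ) + 1) / n by positivity)
    rw [Real.log_div (by positivity) hn0.ne'] at h1
    have h2 : 1 - (((n : ℝ) + 1) / n)⁻¹ = 1 / ((n : ℝ) + 1) := by field_simp; ring
    rw [Hs] at ih
    push_cast
    linarith

theorem log_le_Hs (n : ℕ) : Real.log (n + 1) ≤ Hs 0 n := by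
  induction n with
  | zero => simp [Hs]
  | succ n ih =>
    rw [Hs, Finset.sum_Ico_succ_top (Nat.zero_le n)]
    have h1 := Real.log_le_sub_one_of_pos (show 0 < ((n : ℝ) + 1 + 1) / (n + 1) by positivity)
    rw [Real.log_div (by positivity) (by positivity)] at h1
    have h2 : ((n : ℝ) + 1 + 1) / (n + 1) - 1 = 1 / ((n : ℝ) + 1) := by field_simp; ring
    rw [Hs] at ih
    push_cast
    linarith

theorem Hs_zero_le {n : ℕ} (hn : 1 ≤ n) : Hs 0 n ≤ 1 + Real.log n := by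
  have h1 := Hs_le le_rfl hn
  have h2 : Hs 0 n = 1 + Hs 1 n := by
    rw [Hs, Hs, Finset.sum_eq_sum_Ico_succ_bot (by omega)]; simp
  simp only [Nat.cast_one, Real.log_one, sub_zero] at h1
  linarith

theorem norm_ts_le_Hs {u : ℂ} (hu : ‖u‖ = 1) (m n : ℕ) : ‖ts u m n‖ ≤ Hs m n := by
  refine (norm_sum_le _ _).trans (Finset.sum_le_sum fun k _ => ?_)
  rw [norm_mul, norm_pow, hu, one_pow, mul_one, Complex.norm_real, Real.norm_eq_abs,
    abs_of_nonneg (by positivity)]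

theorem ts_log {u : ℂ} (hu : ‖u‖ = 1) (hu1 : u ≠ 1) {m n : ℕ} (hm : 1 ≤ m) (h : m ≤ n) :
    ‖ts u m n‖ ≤ Real.log (1 + 1 / (m * ‖1 - u‖)) + 2 := by
  have hd : 0 < ‖1 - u‖ := norm_pos_iff.2 (sub_ne_zero.2 hu1.symm)
  have hm0 : (0 : ℝ) < m := by exact_mod_cast hm
  set x := 1 / ‖1 - u‖ with hx
  have hx0 : 0 < x := by positivity
  set M := m + ⌊x⌋₊ with hM
  have hlog : ∀ n, m ≤ n → n ≤ M → ‖ts u m n‖ ≤ Real.log (1 + 1 / (m * ‖1 - u‖)) := by
    intro n h1 h2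
    refine (norm_ts_le_Hs hu m n).trans ((Hs_le hm h1).trans ?_)
    have hn0 : (0 : ℝ) < n := by exact_mod_cast (by omega : 0 < n)
    rw [← Real.log_div hn0.ne' hm0.ne']
    refine Real.log_le_log (by positivity) ?_
    have h3 : (n : ℝ) ≤ m + x := by
      have : (n : ℝ) ≤ M := by exact_mod_cast h2
      rw [hM] at this; push_cast at this
      linarith [Nat.floor_le hx0.le]
    rw [div_le_iff₀ hm0]
    have : (1 + 1 / (m * ‖1 - u‖)) * m = m + x := by rw [hx]; field_simp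
    linarith
  rcases le_or_gt n M with h1 | h1
  · linarith [hlog n h h1]
  · have e : ts u m n = ts u m M + ts u M n :=
      (Finset.sum_Ico_consecutive _ (by omega) h1.le).symm
    have h2 := ts_abel hu M n
    have h3 : x < M + 1 := by
      rw [hM]; push_cast; linarith [Nat.lt_floor_add_one x]
    have h4 : ‖ts u M n‖ ≤ 2 := by
      rw [le_div_iff₀ (by positivity)] at h2
      have h5 : 1 ≤ ‖1 - u‖ * ((M : ℝ) + 1) := by
        rw [hx, div_lt_iff₀ hd] at h3; linarith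
      nlinarith [norm_nonneg (ts u M n)]
    rw [e]
    linarith [norm_add_le (ts u m M) (ts u M n), hlog M (by omega) le_rfl]

variable {ν : Measure ℂ}

theorem Law.Q_add (h : Law ν) (a b : ℂ) :
    Q ν (a + b) = Q ν a + Q ν b + (a * (starRingEnd ℂ) b).re + (tau ν * (a * b)).re := by
  simp only [h.Q_eq, Complex.sq_norm, Complex.normSq_add]
  have : tau ν * (a + b) ^ 2 = tau ν * a ^ 2 + tau ν * b ^ 2 + 2 * (tau ν * (a * b)) := by ring
  rw [this, Complex.add_re, Complex.add_re]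
  simp only [Complex.mul_re (2 : ℂ), Complex.re_ofNat, Complex.im_ofNat]
  ring

theorem Law.Q_smul (h : Law ν) (r : ℝ) (a : ℂ) : Q ν (r * a) = r ^ 2 * Q ν a := by
  simp only [h.Q_eq, norm_mul, Complex.norm_real, Real.norm_eq_abs, mul_pow, sq_abs]
  have : tau ν * ((r : ℂ) ^ 2 * a ^ 2) = ((r ^ 2 : ℝ) : ℂ) * (tau ν * a ^ 2) := by push_cast; ring
  rw [this, Complex.re_ofReal_mul]; ring

theorem Law.abs_re_tau (h : Law ν) (w : ℂ) : |(tau ν * w).re| ≤ ‖w‖ :=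
  (abs_re_mul_le _ _).trans (mul_le_of_le_one_left (norm_nonneg _) h.norm_tau)

theorem Law.Q_add_le (h : Law ν) (a b : ℂ) :
    Q ν (a + b) ≤ Q ν a + ‖b‖ ^ 2 + 2 * (‖a‖ * ‖b‖) := by
  rw [h.Q_add]
  have h1 := (abs_le.1 (abs_re_mul_le a ((starRingEnd ℂ) b))).2
  have h2 := (abs_le.1 (h.abs_re_tau (a * b))).2
  rw [Complex.norm_conj] at h1
  rw [norm_mul] at h2
  linarith [h.Q_le b]

theorem bb_mul (γ : ℝ) (k : ℕ) (z w : ℂ) :
    bb γ k z * bb γ k w = (γ ^ 2 : ℝ) * (((1 / ((k : ℝ) + 1) : ℝ) : ℂ) * (z * w) ^ (k + 1)) := by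
  have e : γ / sq1 k * (γ / sq1 k) = γ ^ 2 * (1 / ((k : ℝ) + 1)) := by
    rw [← sq1_sq]; have := sq1_pos k; field_simp
  calc bb γ k z * bb γ k w = ((γ / sq1 k * (γ / sq1 k) : ℝ) : ℂ) * (z * w) ^ (k + 1) := by
        simp only [bb]; push_cast; ring
    _ = _ := by rw [e]; push_cast; ring

theorem conj_bb (γ : ℝ) (k : ℕ) (z : ℂ) :
    (starRingEnd ℂ) (bb γ k z) = bb γ k ((starRingEnd ℂ) z) := by
  simp only [bb, map_mul, map_pow, Complex.conj_ofReal]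

theorem sum_bb_mul (γ : ℝ) (m n : ℕ) (z w : ℂ) :
    ∑ k ∈ Ico m n, bb γ k z * bb γ k w = (γ ^ 2 : ℝ) * ts (z * w) m n := by
  simp only [bb_mul, ts, Finset.mul_sum]

theorem Law.Vf_eq (h : Law ν) {γ : ℝ} (hγ : 0 ≤ γ) (m n : ℕ) {z : ℂ} (hz : ‖z‖ = 1) :
    Vf ν γ (Ico m n) z = γ ^ 2 / 4 * Hs m n + γ ^ 2 / 4 * (tau ν * ts (z * z) m n).re := by
  have e1 : ∑ k ∈ Ico m n, ‖bb γ k z‖ ^ 2 = γ ^ 2 * Hs m n := by
    rw [Hs, Finset.mul_sum]
    refine Finset.sum_congr rfl fun k _ => ?_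
    rw [norm_bb hγ k hz, div_pow, sq1_sq]; ring
  have e2 : ∑ k ∈ Ico m n, (tau ν * bb γ k z ^ 2).re = γ ^ 2 * (tau ν * ts (z * z) m n).re := by
    rw [← Complex.re_sum, ← Finset.mul_sum]
    simp only [pow_two (bb _ _ _), sum_bb_mul]
    rw [mul_left_comm, Complex.re_ofReal_mul]
  simp only [Vf, h.Q_eq, ← Finset.sum_div, Finset.sum_add_distrib, e1, e2]
  ring

theorem Law.abs_Vf_sub (h : Law ν) {γ : ℝ} (hγ : 0 ≤ γ) (m n : ℕ) {z : ℂ} (hz : ‖z‖ = 1)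
    {η : ℝ} (hη : 0 < η) (hfar : η ≤ ‖1 - z * z‖) :
    |Vf ν γ (Ico m n) z - γ ^ 2 / 4 * Hs m n| ≤ γ ^ 2 / η := by
  rw [h.Vf_eq hγ m n hz, add_sub_cancel_left, abs_mul, abs_of_nonneg (by positivity)]
  have h1 := (h.abs_re_tau (ts (z * z) m n)).trans
    (ts_le_of_far (by rw [norm_mul, hz, one_mul]) hη hfar m n)
  calc γ ^ 2 / 4 * |(tau ν * ts (z * z) m n).re| ≤ γ ^ 2 / 4 * (2 / η) :=
        mul_le_mul_of_nonneg_left h1 (by positivity)
    _ = γ ^ 2 / η / 2 := by ring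
    _ ≤ _ := half_le_self (by positivity)

theorem Law.pair_le (h : Law ν) (γ : ℝ) {m n : ℕ} (hm : 1 ≤ m) (hmn : m ≤ n) {z w : ℂ}
    (hz : ‖z‖ = 1) (hw : ‖w‖ = 1) (hzw : z * (starRingEnd ℂ) w ≠ 1)
    {η : ℝ} (hη : 0 < η) (hfar : η ≤ ‖1 - z * w‖) :
    ∑ k ∈ Ico m n, Q ν (bb γ k z + bb γ k w) / 2 - Vf ν γ (Ico m n) z - Vf ν γ (Ico m n) w ≤
      γ ^ 2 / 2 * Real.log (1 + 1 / (m * ‖1 - z * (starRingEnd ℂ) w‖)) + γ ^ 2 * (1 + 1 / η) := by
  have e1 : ∑ k ∈ Ico m n, (bb γ k z * (starRingEnd ℂ) (bb γ k w)).re =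
      γ ^ 2 * (ts (z * (starRingEnd ℂ) w) m n).re := by
    simp only [conj_bb]
    rw [← Complex.re_sum, sum_bb_mul, Complex.re_ofReal_mul]
  have e2 : ∑ k ∈ Ico m n, (tau ν * (bb γ k z * bb γ k w)).re =
      γ ^ 2 * (tau ν * ts (z * w) m n).re := by
    rw [← Complex.re_sum, ← Finset.mul_sum, sum_bb_mul, mul_left_comm, Complex.re_ofReal_mul]
  simp only [Vf, h.Q_add, ← Finset.sum_div, Finset.sum_add_distrib, e1, e2]
  have h1 := ((le_abs_self _).trans (Complex.abs_re_le_norm _)).trans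
    (ts_log (u := z * (starRingEnd ℂ) w) (by rw [norm_mul, Complex.norm_conj, hz, hw, one_mul])
      hzw hm hmn)
  have h2 := ((le_abs_self _).trans (h.abs_re_tau (ts (z * w) m n))).trans
    (ts_le_of_far (by rw [norm_mul, hz, hw, one_mul]) hη hfar m n)
  have h3 := mul_le_mul_of_nonneg_left h1 (sq_nonneg γ)
  have h4 := mul_le_mul_of_nonneg_left h2 (sq_nonneg γ)
  have e3 : γ ^ 2 * (2 / η) = 2 * (γ ^ 2 * (1 / η)) := by ring
  linarith

end Pool.Agent.P.MP_ab74d4_pr
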